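import Pool.Agent.Lib.CSE.Mer

/-!
# CSE, module Num: the lower bound for the weighted sums

`κ = kap ρ ≤ 3/5`. `cov N ρ ε c ∩ prI N ε ρ` contains the disjoint sets `prI N ε (2κ-1-c)` and
`prI N ((1-κ)/2+c) (min ρ (κ/2-c))` (`2κ-1-c ≤ 1/5 ≤ ρ`; `2κ-1-c ≤ (1-κ)/2+c` as `κ ≤ 3/5`;
`(1-κ)/2+c ≥ 1/5 ≥ ε`). With `K = {p ∈ prI N ε ρ : p ∈ cov, ¬ bd p}`:
`∑ wt f ≥ m2 ∑_{prI N ε ρ} wt + (m1-m2) ∑_{K} wt ≥ m2 ((ρ-ε)L - C) +
(m1-m2) ((2κ-1-c-ε)L + (min ρ (κ/2-c) - (1-κ)/2 - c)L - C - 1)` (`mer` three times; the bad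
covered primes have weight `≤ 1` by `hbd` with `R` = the set of all of them).
The constant `C` depends on `ρ ε c` only. `num3`: `mer`.
-/

set_option autoImplicit false

open Finset

namespace Pool.CSE

/-- the measure of the covered scales below `ρ` -/
noncomputable def nn (ρ ε c : ℝ) : ℝ :=
  (2 * kap ρ - 1 - c - ε) + (min ρ (kap ρ / 2 - c) - (1 - kap ρ) / 2 - c)

private theorem wt_nn (p : ℕ) : 0 ≤ wt p := by
  unfold wt
  exact div_nonneg (Real.log_natCast_nonneg p) (Nat.cast_nonneg p)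

theorem num (ρ ε c : ℝ) (hρ : 1 / 4 ≤ ρ) (hρ1 : ρ ≤ 489 / 1000) (hε : 0 < ε)
    (hε1 : ε ≤ 1 / 100) (hc : 0 < c) (hc1 : c ≤ 1 / 100) :
    ∃ C : ℝ, 0 ≤ C ∧ ∀ N : ℕ, 2 ≤ N → ∀ (f : ℕ → ℝ) (bd : ℕ → Prop) (m1 m2 : ℝ), 0 ≤ m2 →
      m2 ≤ m1 → (∀ p ∈ prI N ε ρ, m2 ≤ f p) →
      (∀ p ∈ prI N ε ρ, p ∈ cov N ρ ε c → ¬ bd p → m1 ≤ f p) →
      (∀ R : Finset ℕ, R ⊆ cov N ρ ε c → (∀ p ∈ R, bd p) → ∑ p ∈ R, wt p ≤ 1) →
      m2 * (ρ - ε) * Real.log N + (m1 - m2) * nn ρ ε c * Real.log N - C * m1 ≤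
        ∑ p ∈ prI N ε ρ, wt p * f p := by
  classical
  have hk1 : kap ρ ≤ 3 / 5 := min_le_left _ _
  have hk2 : 489 / 1000 ≤ kap ρ := by
    unfold kap
    refine le_min (by norm_num) (by linarith)
  obtain ⟨C1, hC1, h1⟩ := mer ε (2 * kap ρ - 1 - c) hε.le (by linarith)
  obtain ⟨C2, hC2, h2⟩ := mer ((1 - kap ρ) / 2 + c) (min ρ (kap ρ / 2 - c)) (by linarith)
    (le_trans (min_le_left _ _) (by linarith))
  obtain ⟨C3, hC3, h3⟩ := mer ε ρ hε.le (by linarith)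
  refine ⟨C1 + C2 + C3 + 1, by linarith, ?_⟩
  intro N hN f bd m1 m2 hm2 hm12 hf2 hf1 hbd
  have hN1 : 1 ≤ N := by omega
  set A := prI N ε (2 * kap ρ - 1 - c) with hA
  set B := prI N ((1 - kap ρ) / 2 + c) (min ρ (kap ρ / 2 - c)) with hB
  have hAp : A ⊆ prI N ε ρ := prI_mono hN1 le_rfl (by linarith)
  have hBp : B ⊆ prI N ε ρ := prI_mono hN1 (by linarith) (min_le_left _ _)
  have hAc : A ⊆ cov N ρ ε c := by
    unfold cov
    exact Finset.subset_union_left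
  have hBc : B ⊆ cov N ρ ε c := by
    unfold cov
    exact (prI_mono hN1 le_rfl (min_le_right _ _)).trans Finset.subset_union_right
  have hAB : Disjoint A B := prI_disj hN1 (by linarith)
  set K := (prI N ε ρ).filter (fun p => p ∈ cov N ρ ε c ∧ ¬ bd p) with hK
  have hsumD : ∑ p ∈ A ∪ B, wt p = ∑ p ∈ A, wt p + ∑ p ∈ B, wt p :=
    Finset.sum_union hAB
  have hDc : A ∪ B ⊆ cov N ρ ε c := Finset.union_subset hAc hBc
  have hDp : A ∪ B ⊆ prI N ε ρ := Finset.union_subset hAp hBp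
  have hsplit : ∑ p ∈ A ∪ B, wt p = ∑ p ∈ (A ∪ B).filter bd, wt p +
      ∑ p ∈ (A ∪ B).filter (fun p => ¬ bd p), wt p :=
    (Finset.sum_filter_add_sum_filter_not _ _ _).symm
  have hbad : ∑ p ∈ (A ∪ B).filter bd, wt p ≤ 1 :=
    hbd _ ((Finset.filter_subset _ _).trans hDc) (fun p hp => (Finset.mem_filter.1 hp).2)
  have hgood : ∑ p ∈ (A ∪ B).filter (fun p => ¬ bd p), wt p ≤ ∑ p ∈ K, wt p := by
    refine Finset.sum_le_sum_of_subset_of_nonneg ?_ (fun p _ _ => wt_nn p)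
    intro p hp
    rw [Finset.mem_filter] at hp
    rw [hK, Finset.mem_filter]
    exact ⟨hDp hp.1, hDc hp.1, hp.2⟩
  have hKsum : ∑ p ∈ A, wt p + ∑ p ∈ B, wt p - 1 ≤ ∑ p ∈ K, wt p := by linarith
  have hmain : m2 * ∑ p ∈ prI N ε ρ, wt p + (m1 - m2) * ∑ p ∈ K, wt p ≤
      ∑ p ∈ prI N ε ρ, wt p * f p := by
    rw [hK, Finset.sum_filter, Finset.mul_sum, Finset.mul_sum, ← Finset.sum_add_distrib]
    refine Finset.sum_le_sum ?_
    intro p hp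
    have hw := wt_nn p
    by_cases hq : p ∈ cov N ρ ε c ∧ ¬ bd p
    · rw [if_pos hq]
      have h5 := mul_le_mul_of_nonneg_left (hf1 p hp hq.1 hq.2) hw
      linarith
    · rw [if_neg hq]
      have h5 := mul_le_mul_of_nonneg_left (hf2 p hp) hw
      linarith
  have e1 := h1 N hN
  have e2 := h2 N hN
  have e3 := h3 N hN
  have g1 : m2 * ((ρ - ε) * Real.log N - C3) ≤ m2 * ∑ p ∈ prI N ε ρ, wt p :=
    mul_le_mul_of_nonneg_left e3 hm2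
  have hKl : nn ρ ε c * Real.log N - (C1 + C2 + 1) ≤ ∑ p ∈ K, wt p := by
    have hn : nn ρ ε c * Real.log N = (2 * kap ρ - 1 - c - ε) * Real.log N +
        (min ρ (kap ρ / 2 - c) - ((1 - kap ρ) / 2 + c)) * Real.log N := by
      unfold nn
      ring
    rw [hn]
    linarith
  have g2 : (m1 - m2) * (nn ρ ε c * Real.log N - (C1 + C2 + 1)) ≤ (m1 - m2) * ∑ p ∈ K, wt p :=
    mul_le_mul_of_nonneg_left hKl (by linarith)
  have g3 : 0 ≤ C3 * (m1 - m2) := mul_nonneg hC3 (by linarith)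
  have g4 : 0 ≤ (C1 + C2 + 1) * m2 := mul_nonneg (by linarith) hm2
  have g5 : m2 * (ρ - ε) * Real.log N + (m1 - m2) * nn ρ ε c * Real.log N -
      (C1 + C2 + C3 + 1) * m1 = m2 * ((ρ - ε) * Real.log N - C3) +
        (m1 - m2) * (nn ρ ε c * Real.log N - (C1 + C2 + 1)) - C3 * (m1 - m2) -
        (C1 + C2 + 1) * m2 := by
    ring
  rw [g5]
  linarith

theorem num3 (ρ : ℝ) (hρ : 1 / 4 ≤ ρ) :
    ∃ C : ℝ, 0 ≤ C ∧ ∀ N : ℕ, 2 ≤ N → ∀ (f : ℕ → ℝ) (m3 : ℝ), 0 ≤ m3 →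
      (∀ p ∈ prI N ρ (489 / 1000), m3 ≤ f p) →
      m3 * (489 / 1000 - ρ) * Real.log N - C * m3 ≤ ∑ p ∈ prI N ρ (489 / 1000), wt p * f p := by
  by_cases hρ1 : 0 ≤ ρ
  · obtain ⟨C, hC, h⟩ := mer ρ (489 / 1000) hρ1 (by norm_num)
    refine ⟨C, hC, ?_⟩
    intro N hN f m3 hm3 hf
    have h1 : ∑ p ∈ prI N ρ (489 / 1000), wt p * m3 ≤
        ∑ p ∈ prI N ρ (489 / 1000), wt p * f p :=
      Finset.sum_le_sum (fun p hp => mul_le_mul_of_nonneg_left (hf p hp) (wt_nn p))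
    rw [← Finset.sum_mul] at h1
    have h2 := mul_le_mul_of_nonneg_right (h N hN) hm3
    have h3 : ((489 / 1000 - ρ) * Real.log N - C) * m3 =
        m3 * (489 / 1000 - ρ) * Real.log N - C * m3 := by ring
    linarith
  · exact absurd (by linarith : (0:ℝ) ≤ ρ) hρ1

end Pool.CSE
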