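import Mathlib

/-!
# CSE, module Poly: pointwise inequalities (real numbers only)

`lin`: `1/s ≥ 2/s₀ - s/s₀²` (from `(s - s₀)² ≥ 0`). `sqr`: `2 √(t/32) ≤ c t + 1/(32 c)` (AM-GM).
`ab_any`: `lin` with `s₀ = 43/100`, `α β ≤ 1/4`, `sqr` with `c = 173/1000`:
`1/s + (4679/10000) t ≥ 2/.43 - 1/(4 * .1849) - 1/(64 * .173 * .1849) = 2.8106..`.
`aa1_cov`: `lin` with `s₀ = 312/1000`; `β ≤ 1-α`; then a polynomial inequality in `α` after
multiplication by `α (1-α)`; the true minimum of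
`2/s₀ - (α²+10⁻⁵)/s₀² + 1.37/α + 3.09/(1-α)` is `12.6576` (at `α = .5587`), we claim `12.65`.
`aa1_any`: `2.37/α + 3.09/(1-α) ≥ 10.8723..`. `aa1_out`: `1.37/α + 3.09/(1-α) ≥ 8.5749..`.
`aa2_cov`: `lin` with `s₀ = 35/100`: minimum of `2/s₀ - (α²+10⁻⁵)/s₀² + .6/α + 1.9/(1-α)` is
`8.5236` (at `.5912`).
`aa2_any`: `lin` with `s₀ = 46/100`, `sqr` with `c = 14/100`: minimum of
`2/s₀ - α²/s₀² - 1/(64 c s₀²) + .6/α + 1.9/(1-α)` is `7.6351` (at `.484`).
`aa2_out`: `.6/α + 1.9/(1-α) ≥ 4.6354..`.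
Polynomial inequalities in one variable `0 < α < 1`: `nlinarith` with squares of `α - α₀`
(tangent-line trick: `a/α ≥ 2a/α₀ - a α/α₀²`, `b/(1-α) ≥ 2b/(1-α₀) - b (1-α)/(1-α₀)²` are NOT
enough for the covered cases because of the term `-α²`; there multiply out and use `polyrith`/
`nlinarith [mul_nonneg .. (sq_nonneg (α - α₀))]`).
-/

set_option autoImplicit false

namespace Pool.CSE

private theorem Poly_aux_two (a b K α β : ℝ) (hα : 0 < α) (hβ : 0 < β) (h : α + β ≤ 1)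
    (hb : 0 ≤ b) (hK : K * (α * (1 - α)) ≤ a * (1 - α) + b * α) : K ≤ a / α + b / β := by
  have h1 : 0 < 1 - α := by linarith
  have h2 : b / (1 - α) ≤ b / β := by
    apply div_le_div_of_nonneg_left hb hβ
    linarith
  have h3 : K ≤ a / α + b / (1 - α) := by
    rw [div_add_div _ _ hα.ne' h1.ne', le_div_iff₀ (mul_pos hα h1)]
    nlinarith [hK]
  linarith

theorem lin (s s₀ : ℝ) (hs : 0 < s) (h0 : 0 < s₀) : 2 / s₀ - s / s₀ ^ 2 ≤ 1 / s := by
  have h1 : 1 / s - (2 / s₀ - s / s₀ ^ 2) = (s - s₀) ^ 2 / (s * s₀ ^ 2) := by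
    field_simp
    ring
  have h2 : 0 ≤ (s - s₀) ^ 2 / (s * s₀ ^ 2) := by positivity
  linarith

theorem sqr (t c : ℝ) (ht : 0 ≤ t) (hc : 0 < c) : 2 * √(t / 32) ≤ c * t + 1 / (32 * c) := by
  have h1 : √(t / 32) ^ 2 = t / 32 := Real.sq_sqrt (by positivity)
  have h2 : t = 32 * √(t / 32) ^ 2 := by linarith
  have h3 : c * (32 * √(t / 32) ^ 2) + 1 / (32 * c) - 2 * √(t / 32)
      = (32 * c * √(t / 32) - 1) ^ 2 / (32 * c) := by
    field_simp
    ring
  have h4 : 0 ≤ (32 * c * √(t / 32) - 1) ^ 2 / (32 * c) := by positivity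
  have h5 : c * t = c * (32 * √(t / 32) ^ 2) := by rw [← h2]
  linarith

theorem ab1_cov (α β s η : ℝ) (hα : 0 < α) (hβ : 0 < β) (h : α + β ≤ 1) (hs : 0 < s) (hη : 0 < η)
    (h1 : s ≤ α * β + η) : 4 * (1 - 4 * η) ≤ 1 / s := by
  have h2 := lin s (1 / 4) hs (by norm_num)
  norm_num at h2
  have h3 : α * β ≤ 1 / 4 := by nlinarith [sq_nonneg (α - β)]
  rw [one_div]
  linarith

theorem ab1_any (α β s : ℝ) (h : α + β ≤ 1) (hs : 0 < s) (h1 : s ≤ α) (h2 : s ≤ β) :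
    2 ≤ 1 / s := by
  rw [le_div_iff₀ hs]
  linarith

theorem ab2_cov (α β s M : ℝ) (hα : 0 < α) (hβ : 0 < β) (h : α + β ≤ 1) (hs : 0 < s)
    (hM : 1 ≤ M) (h1 : s ≤ α * β + 1 / 10000) : 399 / 100 ≤ 1 / s + 4679 / 10000 * (M - 1) := by
  have h2 := lin s (1 / 4) hs (by norm_num)
  norm_num at h2
  have h3 : α * β ≤ 1 / 4 := by nlinarith [sq_nonneg (α - β)]
  rw [one_div]
  linarith

theorem ab2_any (α β s M : ℝ) (hα : 0 < α) (hβ : 0 < β) (h : α + β ≤ 1) (hs : 0 < s)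
    (hM : 1 ≤ M) (h1 : s ≤ α * β + √((M - 1) / 32)) :
    281 / 100 ≤ 1 / s + 4679 / 10000 * (M - 1) := by
  have h2 : 200 / 43 - s * (10000 / 1849) ≤ 1 / s := by
    have h := lin s (43 / 100) hs (by norm_num)
    have e1 : (2 : ℝ) / (43 / 100) = 200 / 43 := by norm_num
    have e2 : s / (43 / 100) ^ 2 = s * (10000 / 1849) := by ring
    rw [e1, e2] at h
    exact h
  have h3 : α * β ≤ 1 / 4 := by nlinarith [sq_nonneg (α - β)]
  have h4 : 2 * √((M - 1) / 32) ≤ 173 / 1000 * (M - 1) + 125 / 692 := by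
    have h := sqr (M - 1) (173 / 1000) (by linarith) (by norm_num)
    have e1 : (1 : ℝ) / (32 * (173 / 1000)) = 125 / 692 := by norm_num
    rw [e1] at h
    exact h
  linarith

theorem aa1_cov (α β s : ℝ) (hα : 0 < α) (hβ : 0 < β) (h : α + β ≤ 1) (hs : 0 < s)
    (h1 : s ≤ α * α + 1 / 100000) :
    1265 / 100 ≤ 1 / s + 137 / 100 / α + 309 / 100 / β := by
  have h2 : 250 / 39 - s * (15625 / 1521) ≤ 1 / s := by
    have h := lin s (312 / 1000) hs (by norm_num)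
    have e1 : (2 : ℝ) / (312 / 1000) = 250 / 39 := by norm_num
    have e2 : s / (312 / 1000) ^ 2 = s * (15625 / 1521) := by ring
    rw [e1, e2] at h
    exact h
  have h3 := Poly_aux_two (137 / 100) (309 / 100)
    (1265 / 100 - (250 / 39 - (α * α + 1 / 100000) * (15625 / 1521))) α β hα hβ h
    (by norm_num) (by
      have hα1 : 0 ≤ 1 - α := by linarith
      nlinarith [sq_nonneg (α ^ 2 - α / 2 - 328 / 10000), sq_nonneg (α - 5588 / 10000), hα1])
  linarith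

theorem aa1_any (α β s : ℝ) (hα : 0 < α) (hβ : 0 < β) (h : α + β ≤ 1) (hs : 0 < s)
    (h1 : s ≤ α) : 1087 / 100 ≤ 1 / s + 137 / 100 / α + 309 / 100 / β := by
  have h2 : 1 / α ≤ 1 / s := one_div_le_one_div_of_le hs h1
  have h3 := Poly_aux_two (237 / 100) (309 / 100) (1087 / 100) α β hα hβ h (by norm_num)
    (by nlinarith [sq_nonneg (α - 467 / 1000)])
  have h4 : 237 / 100 / α = 1 / α + 137 / 100 / α := by
    field_simp
    norm_num
  linarith

theorem aa1_out (α β : ℝ) (hα : 0 < α) (hβ : 0 < β) (h : α + β ≤ 1) :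
    857 / 100 ≤ 137 / 100 / α + 309 / 100 / β :=
  Poly_aux_two (137 / 100) (309 / 100) (857 / 100) α β hα hβ h (by norm_num)
    (by nlinarith [sq_nonneg (α - 3996 / 10000)])

theorem aa2_cov (α β s M : ℝ) (hα : 0 < α) (hβ : 0 < β) (h : α + β ≤ 1) (hs : 0 < s)
    (hM : 1 ≤ M) (h1 : s ≤ α * α + 1 / 100000) :
    852 / 100 ≤ 1 / s + 6 / 10 / α + 19 / 10 / β + 3309 / 10000 * (M - 1) := by
  have h2 : 40 / 7 - s * (400 / 49) ≤ 1 / s := by
    have h := lin s (35 / 100) hs (by norm_num)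
    have e1 : (2 : ℝ) / (35 / 100) = 40 / 7 := by norm_num
    have e2 : s / (35 / 100) ^ 2 = s * (400 / 49) := by ring
    rw [e1, e2] at h
    exact h
  have h3 := Poly_aux_two (6 / 10) (19 / 10)
    (852 / 100 - (40 / 7 - (α * α + 1 / 100000) * (400 / 49))) α β hα hβ h
    (by norm_num) (by
      have hα1 : 0 ≤ 1 - α := by linarith
      nlinarith [sq_nonneg (α ^ 2 - α / 2 - 539 / 10000), sq_nonneg (α - 5914 / 10000), hα1])
  linarith

theorem aa2_any (α β s M : ℝ) (hα : 0 < α) (hβ : 0 < β) (h : α + β ≤ 1) (hs : 0 < s)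
    (hM : 1 ≤ M) (h1 : s ≤ α * α + √((M - 1) / 32)) :
    763 / 100 ≤ 1 / s + 6 / 10 / α + 19 / 10 / β + 3309 / 10000 * (M - 1) := by
  have h2 : 100 / 23 - s * (2500 / 529) ≤ 1 / s := by
    have h := lin s (46 / 100) hs (by norm_num)
    have e1 : (2 : ℝ) / (46 / 100) = 100 / 23 := by norm_num
    have e2 : s / (46 / 100) ^ 2 = s * (2500 / 529) := by ring
    rw [e1, e2] at h
    exact h
  have h4 : 2 * √((M - 1) / 32) ≤ 14 / 100 * (M - 1) + 25 / 112 := by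
    have h := sqr (M - 1) (14 / 100) (by linarith) (by norm_num)
    have e1 : (1 : ℝ) / (32 * (14 / 100)) = 25 / 112 := by norm_num
    rw [e1] at h
    exact h
  have h3 := Poly_aux_two (6 / 10) (19 / 10)
    (763 / 100 - (100 / 23 - α * α * (2500 / 529)
      - 25 / 224 * (2500 / 529))) α β hα hβ h
    (by norm_num) (by
      have hα1 : 0 ≤ 1 - α := by linarith
      nlinarith [sq_nonneg (α ^ 2 - α / 2 + 77 / 10000), sq_nonneg (α - 48397 / 100000), hα1])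
  linarith

theorem aa2_out (α β : ℝ) (hα : 0 < α) (hβ : 0 < β) (h : α + β ≤ 1) :
    463 / 100 ≤ 6 / 10 / α + 19 / 10 / β :=
  Poly_aux_two (6 / 10) (19 / 10) (463 / 100) α β hα hβ h (by norm_num)
    (by nlinarith [sq_nonneg (α - 3596 / 10000)])

end Pool.CSE
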