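import Pool.Agent.Lib.CSE.Skel
import Pool.Agent.Lib.CSE.Num
import Pool.Agent.Lib.CSE.Poly

/-!
# CSE, module AA: no configuration with `(X, Y) = (A, A)`, `ρ ≥ 3299/10000`

In both cases `ε = c = 1/10000`, `η = 1/100000`; `skel` gives `Sk`.
`aa1`: `3299/10000 ≤ ρ ≤ 189/500` (`kap ρ = 3/5`, `nn ρ ε c = 3/10 - 4/10000` because
`min ρ (3/10 - c) = 3/10 - c`). On `prI N ε ρ`: `f p = 1/sv + 137/100/dens A + 309/100/dens B`,
`m1 = 1265/100` (`aa1_cov`, `s1`), `m2 = 1087/100` (`aa1_any`); on `prI N ρ (489/1000)`: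
`f p = 137/100/dens A + 309/100/dens B`, `m3 = 857/100` (`aa1_out`, `num3`). Upper bound for the
total (`prI_split`, `prI_disj`: `SA`, `SB` run over `prI N ε (489/1000)`): `(1 + 137/100 +
309/100) L + C`. Lower: `1087/100 (ρ-ε) + 178/100 nn + 857/100 (489/1000 - ρ)` times `L`; the
difference of the coefficients is `≥ 2/100`.
`aa2`: `189/500 ≤ ρ ≤ 489/1000` (`kap ρ = 489/500 - ρ`, `nn = 717/500 - 3ρ - 4/10000`; note
`kap ρ / 2 - c ≤ ρ`). `f p = 1/sv + 6/10/dens A + 19/10/dens B + 3309/10000 (Mv - 1)`,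
`m1 = 852/100`, `m2 = 763/100`, `m3 = 463/100`. Upper: `(1 + 6/10 + 19/10 + 3309/10000 (11/500 + ρ))
L + C`. The difference is `≥ 3/100`.
-/

set_option autoImplicit false

open Finset Filter

namespace Pool.CSE

/-- the upper bound for the total of the weighted sums -/
private theorem AA_upper {N : ℕ} (hN : 1 ≤ N) {l m : ℤ} {ρ ε c η C : ℝ} {A B T : Finset ℤ}
    (hε : ε ≤ ρ) (hρ1 : ρ ≤ 489 / 1000) (S : Sk N l m ρ ε c η C A B A A T) (a b e : ℝ)
    (ha : 0 ≤ a) (hb : 0 ≤ b) (he : 0 ≤ e) :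
    ∑ p ∈ prI N ε ρ, wt p * (1 / sv l m A A T p + a / dens A p + b / dens B p +
        e * (Mv T p - 1)) + ∑ p ∈ prI N ρ (489 / 1000), wt p * (a / dens A p + b / dens B p) ≤
      (1 + a + b + e * (11 / 500 + ρ)) * Real.log N + (1 + a + b + e) * C := by
  have hA : ∑ p ∈ prI N ε (489 / 1000), wt p / dens A p = ∑ p ∈ prI N ε ρ, wt p / dens A p +
      ∑ p ∈ prI N ρ (489 / 1000), wt p / dens A p := by
    rw [prI_split hN hε hρ1, Finset.sum_union (prI_disj hN le_rfl)]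
  have hB : ∑ p ∈ prI N ε (489 / 1000), wt p / dens B p = ∑ p ∈ prI N ε ρ, wt p / dens B p +
      ∑ p ∈ prI N ρ (489 / 1000), wt p / dens B p := by
    rw [prI_split hN hε hρ1, Finset.sum_union (prI_disj hN le_rfl)]
  have e1 : ∑ p ∈ prI N ε ρ, wt p * (1 / sv l m A A T p + a / dens A p + b / dens B p +
      e * (Mv T p - 1)) = ∑ p ∈ prI N ε ρ, wt p / sv l m A A T p +
      a * ∑ p ∈ prI N ε ρ, wt p / dens A p + b * ∑ p ∈ prI N ε ρ, wt p / dens B p +
      e * ∑ p ∈ prI N ε ρ, wt p * (Mv T p - 1) := by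
    rw [Finset.mul_sum, Finset.mul_sum, Finset.mul_sum, ← Finset.sum_add_distrib,
      ← Finset.sum_add_distrib, ← Finset.sum_add_distrib]
    refine Finset.sum_congr rfl fun p _ => ?_
    ring
  have e2 : ∑ p ∈ prI N ρ (489 / 1000), wt p * (a / dens A p + b / dens B p) =
      a * ∑ p ∈ prI N ρ (489 / 1000), wt p / dens A p +
      b * ∑ p ∈ prI N ρ (489 / 1000), wt p / dens B p := by
    rw [Finset.mul_sum, Finset.mul_sum, ← Finset.sum_add_distrib]
    refine Finset.sum_congr rfl fun p _ => ?_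
    ring
  have hSA := S.SA
  have hSB := S.SB
  have hS1 := S.S1
  have hS3 := S.S3
  rw [hA] at hSA
  rw [hB] at hSB
  have k1 := mul_le_mul_of_nonneg_left hSA ha
  have k2 := mul_le_mul_of_nonneg_left hSB hb
  have k3 := mul_le_mul_of_nonneg_left hS3 he
  rw [e1, e2]
  nlinarith [k1, k2, k3, hS1]

theorem aa1 (l m : ℤ) (hl : l ≠ 0) (hm : m ≠ 0) (ρ : ℝ) (hρ : 3299 / 10000 ≤ ρ)
    (hρ1 : ρ ≤ 189 / 500) :
    ∀ᶠ N : ℕ in atTop, ∀ A B T : Finset ℤ, ¬ Conf N l m ρ A B A A T := by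
  have hr1 : (1 : ℝ) / 4 ≤ ρ := by linarith
  have hr2 : ρ ≤ 489 / 1000 := by linarith
  have hr3 : (1 : ℝ) / 10000 ≤ ρ := by linarith
  obtain ⟨C1, hC1⟩ := skel l m hl hm ρ (1 / 10000) (1 / 10000) (1 / 100000) hr1 hr2
    (by norm_num) (by norm_num) (by norm_num) (by norm_num) (by norm_num) (by norm_num)
  obtain ⟨C2, -, hC2⟩ := num ρ (1 / 10000) (1 / 10000) hr1 hr2
    (by norm_num) (by norm_num) (by norm_num) (by norm_num)
  obtain ⟨C3, -, hC3⟩ := num3 ρ hr1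
  have hlog : Tendsto (fun N : ℕ => Real.log N) atTop atTop :=
    Real.tendsto_log_atTop.comp tendsto_natCast_atTop_atTop
  filter_upwards [hC1, eventually_ge_atTop 2,
    hlog.eventually_gt_atTop ((C2 * (1265 / 100) + C3 * (857 / 100) + 546 / 100 * C1) * 50),
    hlog.eventually_gt_atTop 0] with N h1 h2 h3 h4 A B T hconf
  have S := h1 A B A A T hconf
  have hmono : prI N (1 / 10000) ρ ⊆ prI N (1 / 10000) (489 / 1000) :=
    prI_mono (by omega) le_rfl hr2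
  have hmono2 : prI N ρ (489 / 1000) ⊆ prI N (1 / 10000) (489 / 1000) :=
    prI_mono (by omega) hr3 le_rfl
  have up := AA_upper (by omega) hr3 hr2 S (137 / 100) (309 / 100) 0 (by norm_num) (by norm_num)
    le_rfl
  have lo := hC2 N h2 (fun p => 1 / sv l m A A T p + 137 / 100 / dens A p +
    309 / 100 / dens B p + 0 * (Mv T p - 1)) (Bad (1 / 100000) T) (1265 / 100) (1087 / 100)
    (by norm_num) (by norm_num) (fun p hp => by
      obtain ⟨d1, d2, d3⟩ := S.dA p (hmono hp)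
      obtain ⟨s1, s2, s3, s4⟩ := S.s0 p hp
      have := aa1_any _ _ _ d1 d2 d3 s1 s2
      simpa using this) (fun p hp _ hb => by
      obtain ⟨d1, d2, d3⟩ := S.dA p (hmono hp)
      obtain ⟨s1, s2, s3, s4⟩ := S.s0 p hp
      have := aa1_cov _ _ _ d1 d2 d3 s1 (S.s1 p hp hb)
      simpa using this) S.S5
  have lo3 := hC3 N h2 (fun p => 137 / 100 / dens A p + 309 / 100 / dens B p) (857 / 100)
    (by norm_num) (fun p hp => by
      obtain ⟨d1, d2, d3⟩ := S.dA p (hmono2 hp)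
      exact aa1_out _ _ d1 d2 d3)
  have hk : kap ρ = 3 / 5 := by
    unfold kap
    exact min_eq_left (by linarith)
  have hn : nn ρ (1 / 10000) (1 / 10000) = 3 / 10 - 4 / 10000 := by
    unfold nn
    rw [hk, min_eq_right (by linarith)]
    norm_num
  rw [hn] at lo
  have hL : 0 ≤ (ρ - 3299 / 10000) * Real.log N := mul_nonneg (by linarith) h4.le
  nlinarith [lo, lo3, up, h3, hL, h4]

theorem aa2 (l m : ℤ) (hl : l ≠ 0) (hm : m ≠ 0) (ρ : ℝ) (hρ : 189 / 500 ≤ ρ)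
    (hρ1 : ρ ≤ 489 / 1000) :
    ∀ᶠ N : ℕ in atTop, ∀ A B T : Finset ℤ, ¬ Conf N l m ρ A B A A T := by
  have hr1 : (1 : ℝ) / 4 ≤ ρ := by linarith
  have hr3 : (1 : ℝ) / 10000 ≤ ρ := by linarith
  obtain ⟨C1, hC1⟩ := skel l m hl hm ρ (1 / 10000) (1 / 10000) (1 / 100000) hr1 hρ1
    (by norm_num) (by norm_num) (by norm_num) (by norm_num) (by norm_num) (by norm_num)
  obtain ⟨C2, -, hC2⟩ := num ρ (1 / 10000) (1 / 10000) hr1 hρ1
    (by norm_num) (by norm_num) (by norm_num) (by norm_num)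
  obtain ⟨C3, -, hC3⟩ := num3 ρ hr1
  have hlog : Tendsto (fun N : ℕ => Real.log N) atTop atTop :=
    Real.tendsto_log_atTop.comp tendsto_natCast_atTop_atTop
  filter_upwards [hC1, eventually_ge_atTop 2,
    hlog.eventually_gt_atTop ((C2 * (852 / 100) + C3 * (463 / 100) +
      (1 + 6 / 10 + 19 / 10 + 3309 / 10000) * C1) * 100),
    hlog.eventually_gt_atTop 0] with N h1 h2 h3 h4 A B T hconf
  have S := h1 A B A A T hconf
  have hmono : prI N (1 / 10000) ρ ⊆ prI N (1 / 10000) (489 / 1000) :=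
    prI_mono (by omega) le_rfl hρ1
  have hmono2 : prI N ρ (489 / 1000) ⊆ prI N (1 / 10000) (489 / 1000) :=
    prI_mono (by omega) hr3 le_rfl
  have up := AA_upper (by omega) hr3 hρ1 S (6 / 10) (19 / 10) (3309 / 10000) (by norm_num)
    (by norm_num) (by norm_num)
  have lo := hC2 N h2 (fun p => 1 / sv l m A A T p + 6 / 10 / dens A p +
    19 / 10 / dens B p + 3309 / 10000 * (Mv T p - 1)) (Bad (1 / 100000) T) (852 / 100)
    (763 / 100) (by norm_num) (by norm_num) (fun p hp => by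
      obtain ⟨d1, d2, d3⟩ := S.dA p (hmono hp)
      obtain ⟨s1, s2, s3, s4⟩ := S.s0 p hp
      exact aa2_any _ _ _ _ d1 d2 d3 s1 s4 (S.s2 p hp)) (fun p hp _ hb => by
      obtain ⟨d1, d2, d3⟩ := S.dA p (hmono hp)
      obtain ⟨s1, s2, s3, s4⟩ := S.s0 p hp
      exact aa2_cov _ _ _ _ d1 d2 d3 s1 s4 (S.s1 p hp hb)) S.S5
  have lo3 := hC3 N h2 (fun p => 6 / 10 / dens A p + 19 / 10 / dens B p) (463 / 100)
    (by norm_num) (fun p hp => by
      obtain ⟨d1, d2, d3⟩ := S.dA p (hmono2 hp)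
      exact aa2_out _ _ d1 d2 d3)
  have hk : kap ρ = 489 / 500 - ρ := by
    unfold kap
    exact min_eq_right (by linarith)
  have hn : nn ρ (1 / 10000) (1 / 10000) = 717 / 500 - 3 * ρ - 4 / 10000 := by
    unfold nn
    rw [hk, min_eq_right (by linarith)]
    ring
  rw [hn] at lo
  have hL : 0 ≤ (ρ - 189 / 500) * Real.log N := mul_nonneg (by linarith) h4.le
  have hL2 : 0 ≤ (489 / 1000 - ρ) * Real.log N := mul_nonneg (by linarith) h4.le
  nlinarith [lo, lo3, up, h3, hL, hL2, h4]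

theorem no_conf_AA (l m : ℤ) (hl : l ≠ 0) (hm : m ≠ 0) (ρ : ℝ) (hρ : 3299 / 10000 ≤ ρ)
    (hρ1 : ρ ≤ 489 / 1000) :
    ∀ᶠ N : ℕ in atTop, ∀ A B T : Finset ℤ, ¬ Conf N l m ρ A B A A T := by
  rcases le_total ρ (189 / 500) with h | h
  · exact aa1 l m hl hm ρ hρ h
  · exact aa2 l m hl hm ρ h hρ1

end Pool.CSE
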