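import Pool.Agent.Lib.CSE.Skel
import Pool.Agent.Lib.CSE.Num
import Pool.Agent.Lib.CSE.Poly

/-!
# CSE, module AB: no configuration with `(X, Y) = (A, B)`, `ρ > 1/4`

`ab1`: `1/4 < ρ ≤ 31/100`. Let `d = min (ρ - 1/4) (1/20) / 40`, `ε = c = η = d` (`≤ 1/800`).
`skel` gives the constant `C₁` and, for large `N`, `Sk`. `num` with `f p = 1 / sv p`,
`bd = Bad η T`, `m1 = 4 (1 - 4 d)`, `m2 = 2`: hypotheses from `ab1_any`, `ab1_cov` (with
`α = dens A p`, `β = dens B p`; `prI N ε ρ ⊆ prI N ε (489/1000)` by `prI_mono`). Here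
`kap ρ = 3/5` and `nn ρ d d = min ρ (3/10 - d) - 3 d`: `(2κ-1-c-ε) + (min ρ (κ/2-c) - (1-κ)/2 - c)
= (1/5 - 2d) + (min ρ (3/10 - d) - 1/5 - d) = min ρ (3/10 - d) - 3 d ≥ min ρ (3/10) - 4 d`.
So with `S1`: `2 (ρ - d) L + (2 - 16 d) (min ρ (3/10) - 4 d) L - C₂ m1 ≤ L + C₁`, and the left
coefficient is `≥ 1 + 100 d`: contradiction for `L = log N` large.
`ab2`: `31/100 ≤ ρ ≤ 489/1000`: `ε = c = η = 1/10000`, `f p = 1 / sv p + (4679/10000) (Mv p - 1)`,
`m1 = 399/100`, `m2 = 281/100` (`ab2_cov`, `ab2_any`, `s1`, `s2`); upper bound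
`S1 + (4679/10000) S3`: `(1 + (4679/10000) (11/500 + ρ)) L + C`; lower bound
`281/100 (ρ - ε) + 118/100 nn` times `L`, minus a constant. The difference of the coefficients is
`≥ 6/100` for all `ρ` in the range (two cases `ρ ≤ 189/500` (`kap = 3/5`, `nn ≥ 3/10 - 4/10000`),
`ρ ≥ 189/500` (`kap ρ = 489/500 - ρ`, `nn = 717/500 - 3ρ - 4/10000`); linear in `ρ` in each).
-/

set_option autoImplicit false

open Finset Filter

namespace Pool.CSE

private theorem AB_prI_mono (N : ℕ) (hN : 1 ≤ N) (a b b' : ℝ) (h : b ≤ b') :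
    prI N a b ⊆ prI N a b' := by
  classical
  intro p hp
  simp only [prI, Finset.mem_filter] at hp ⊢
  refine ⟨hp.1, hp.2.1, hp.2.2.1, hp.2.2.2.trans ?_⟩
  exact Real.rpow_le_rpow_of_exponent_le (by exact_mod_cast hN) h

private theorem AB_log_large (c C : ℝ) (hc : 0 < c) :
    ∀ᶠ N : ℕ in atTop, C < c * Real.log N := by
  have h : Tendsto (fun N : ℕ => c * Real.log (N : ℝ)) atTop atTop :=
    Tendsto.const_mul_atTop hc (Real.tendsto_log_atTop.comp tendsto_natCast_atTop_atTop)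
  exact h.eventually_gt_atTop C

theorem ab1 (l m : ℤ) (hl : l ≠ 0) (hm : m ≠ 0) (ρ : ℝ) (hρ : 1 / 4 < ρ) (hρ1 : ρ ≤ 31 / 100) :
    ∀ᶠ N : ℕ in atTop, ∀ A B T : Finset ℤ, ¬ Conf N l m ρ A B A B T := by
  obtain ⟨d, hd⟩ : ∃ d : ℝ, d = min (ρ - 1 / 4) (1 / 20) / 40 := ⟨_, rfl⟩
  have hd1 : 40 * d ≤ ρ - 1 / 4 := by
    rw [hd]; linarith [min_le_left (ρ - 1 / 4) (1 / 20 : ℝ)]
  have hd2 : d ≤ 1 / 800 := by
    rw [hd]; linarith [min_le_right (ρ - 1 / 4) (1 / 20 : ℝ)]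
  have hd0 : 0 < d := by
    rw [hd]
    have : 0 < min (ρ - 1 / 4) (1 / 20 : ℝ) := lt_min (by linarith) (by norm_num)
    positivity
  obtain ⟨C₁, h₁⟩ := skel l m hl hm ρ d d d hρ.le (by linarith) hd0 (by linarith) hd0
    (by linarith) hd0 (by linarith)
  obtain ⟨C₂, hC₂, h₂⟩ := num ρ d d hρ.le (by linarith) hd0 (by linarith) hd0 (by linarith)
  have hk : kap ρ = 3 / 5 := by
    rw [kap]; exact min_eq_left (by linarith)
  have hnn : nn ρ d d = min ρ (3 / 10 - d) - 3 * d := by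
    rw [nn, hk]
    have : (3 / 5 : ℝ) / 2 - d = 3 / 10 - d := by ring
    rw [this]; ring
  filter_upwards [h₁, AB_log_large (100 * d) (C₁ + C₂ * (4 * (1 - 4 * d))) (by positivity),
    eventually_ge_atTop 2] with N hN hL hN2 A B T hconf
  have S := hN A B A B T hconf
  have hsub : prI N d ρ ⊆ prI N d (489 / 1000) :=
    AB_prI_mono N (by omega) d ρ (489 / 1000) (by linarith)
  have key := h₂ N hN2 (fun p => 1 / sv l m A B T p) (fun p => Bad d T p) (4 * (1 - 4 * d)) 2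
    (by norm_num) (by linarith)
    (by
      intro p hp
      obtain ⟨a1, a2, a3⟩ := S.dA p (hsub hp)
      obtain ⟨b1, b2, b3, b4⟩ := S.s0 p hp
      exact ab1_any _ _ _ a3 b1 b2 b3)
    (by
      intro p hp _ hb
      obtain ⟨a1, a2, a3⟩ := S.dA p (hsub hp)
      obtain ⟨b1, b2, b3, b4⟩ := S.s0 p hp
      exact ab1_cov _ _ _ _ a1 a2 a3 b1 hd0 (S.s1 p hp hb))
    S.S5
  have hsum : ∑ p ∈ prI N d ρ, wt p * (1 / sv l m A B T p) =
      ∑ p ∈ prI N d ρ, wt p / sv l m A B T p :=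
    Finset.sum_congr rfl fun p _ => by rw [mul_one_div]
  have hS1 := S.S1
  rw [← hsum] at hS1
  have hlog : 0 ≤ Real.log N := Real.log_natCast_nonneg N
  have hco : 1 + 100 * d ≤ 2 * (ρ - d) + (4 * (1 - 4 * d) - 2) * nn ρ d d := by
    rw [hnn]
    rcases le_total ρ (3 / 10 - d) with h | h
    · rw [min_eq_left h]; nlinarith
    · rw [min_eq_right h]; nlinarith
  have h3 : (1 + 100 * d) * Real.log N ≤
      (2 * (ρ - d) + (4 * (1 - 4 * d) - 2) * nn ρ d d) * Real.log N :=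
    mul_le_mul_of_nonneg_right hco hlog
  linarith

theorem ab2 (l m : ℤ) (hl : l ≠ 0) (hm : m ≠ 0) (ρ : ℝ) (hρ : 31 / 100 ≤ ρ)
    (hρ1 : ρ ≤ 489 / 1000) :
    ∀ᶠ N : ℕ in atTop, ∀ A B T : Finset ℤ, ¬ Conf N l m ρ A B A B T := by
  obtain ⟨C₁, h₁⟩ := skel l m hl hm ρ (1 / 10000) (1 / 10000) (1 / 10000) (by linarith) hρ1
    (by norm_num) (by norm_num) (by norm_num) (by norm_num) (by norm_num) (by norm_num)
  obtain ⟨C₂, hC₂, h₂⟩ := num ρ (1 / 10000) (1 / 10000) (by linarith) hρ1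
    (by norm_num) (by norm_num) (by norm_num) (by norm_num)
  filter_upwards [h₁, AB_log_large (6 / 100) (C₁ + 4679 / 10000 * C₁ + C₂ * (399 / 100))
    (by norm_num), eventually_ge_atTop 2] with N hN hL hN2 A B T hconf
  have S := hN A B A B T hconf
  have hsub : prI N (1 / 10000) ρ ⊆ prI N (1 / 10000) (489 / 1000) :=
    AB_prI_mono N (by omega) _ ρ (489 / 1000) hρ1
  have key := h₂ N hN2 (fun p => 1 / sv l m A B T p + 4679 / 10000 * (Mv T p - 1))
    (fun p => Bad (1 / 10000) T p) (399 / 100) (281 / 100)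
    (by norm_num) (by norm_num)
    (by
      intro p hp
      obtain ⟨a1, a2, a3⟩ := S.dA p (hsub hp)
      obtain ⟨b1, b2, b3, b4⟩ := S.s0 p hp
      exact ab2_any _ _ _ _ a1 a2 a3 b1 b4 (S.s2 p hp))
    (by
      intro p hp _ hb
      obtain ⟨a1, a2, a3⟩ := S.dA p (hsub hp)
      obtain ⟨b1, b2, b3, b4⟩ := S.s0 p hp
      exact ab2_cov _ _ _ _ a1 a2 a3 b1 b4 (S.s1 p hp hb))
    S.S5
  have hsum : ∑ p ∈ prI N (1 / 10000) ρ,
        wt p * (1 / sv l m A B T p + 4679 / 10000 * (Mv T p - 1)) =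
      ∑ p ∈ prI N (1 / 10000) ρ, wt p / sv l m A B T p +
        4679 / 10000 * ∑ p ∈ prI N (1 / 10000) ρ, wt p * (Mv T p - 1) := by
    rw [Finset.mul_sum, ← Finset.sum_add_distrib]
    exact Finset.sum_congr rfl fun p _ => by rw [mul_add, mul_one_div]; ring
  have hS1 := S.S1
  have hS3 := S.S3
  have hlog : 0 ≤ Real.log N := Real.log_natCast_nonneg N
  have hco : 1 + 4679 / 10000 * (11 / 500 + ρ) + 6 / 100 ≤
      281 / 100 * (ρ - 1 / 10000) + (399 / 100 - 281 / 100) * nn ρ (1 / 10000) (1 / 10000) := by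
    rcases le_total ρ (189 / 500) with h | h
    · have hk : kap ρ = 3 / 5 := by
        rw [kap]; exact min_eq_left (by linarith)
      have hmin : min ρ (kap ρ / 2 - 1 / 10000) = kap ρ / 2 - 1 / 10000 :=
        min_eq_right (by rw [hk]; linarith)
      rw [nn, hmin, hk]; linarith
    · have hk : kap ρ = 489 / 500 - ρ := by
        rw [kap]; exact min_eq_right (by linarith)
      have hmin : min ρ (kap ρ / 2 - 1 / 10000) = kap ρ / 2 - 1 / 10000 :=
        min_eq_right (by rw [hk]; linarith)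
      rw [nn, hmin, hk]; linarith
  have h3 := mul_le_mul_of_nonneg_right hco hlog
  rw [hsum] at key
  linarith

theorem no_conf_AB (l m : ℤ) (hl : l ≠ 0) (hm : m ≠ 0) (ρ : ℝ) (hρ : 1 / 4 < ρ)
    (hρ1 : ρ ≤ 489 / 1000) :
    ∀ᶠ N : ℕ in atTop, ∀ A B T : Finset ℤ, ¬ Conf N l m ρ A B A B T := by
  rcases le_total ρ (31 / 100) with h | h
  · exact ab1 l m hl hm ρ hρ h
  · exact ab2 l m hl hm ρ h hρ1

end Pool.CSE
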