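import Pool.Agent.Lib.CSE.Bias

/-!
# CSE, module BadSum: the bad primes of the covered scales have small weight

Proof. Let `C` be the constant of `bias`, `L = log N`. Group `R` by `i = Nat.log 2 p`
(`2^i ≤ p < 2^(i+1)`); there are at most `Nat.log 2 N + 1 ≤ 2 L + 2` values of `i`. Let
`R_i` be a nonempty group; choose `p₀ ∈ R_i` and its `m` (`1 ≤ m ≤ m0`,
`(1-κ+c')L ≤ m log p₀ ≤ (κ-c')L`, that is `N^(1-κ+c') ≤ p₀^m ≤ N^(κ-c')`). `bias` with `P = R_i`,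
`Q = 2 p₀` (all `p ∈ R_i` are `< 2^(i+1) ≤ 2 p₀`), `M = H N + 1` (`m ≤ m0 < N^ε < p` for large
`N`): `η^(2m) |R_i|^m N^κ ≤ C m^m (H N + 1 + 4^m p₀^(2m))`. As `N ≤ p₀^m N^(κ-c')` (from
`N^(1-κ+c') ≤ p₀^m`) and `p₀^(2m) ≤ p₀^m N^(κ-c')`, the right side is at most
`C m0^m0 (H + 1 + 4^m0) p₀^m N^(κ-c')`, so
`|R_i|^m ≤ K p₀^m N^(-c')`, `K = max 1 (C m0^m0 (H+1+4^m0) η^(-2 m0))`, and
`|R_i| ≤ K p₀ N^(-c'/m0)` (`m`-th root; `K ≥ 1`, `N^(-c') ≤ N^(-c' m/m0)`).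
For `p ∈ R_i`: `wt p = log p / p ≤ 2 L / p₀` (as `p ≥ 2^i > p₀/2`, `p ≤ N`), so the group
contributes at most `2 K L N^(-c'/m0)`, and all groups at most `(2L+2) 2 K L N^(-c'/m0) → 0`.
(The claim holds for every `κ` real, `κ ≤ 1` say.)
-/

set_option autoImplicit false

open Finset Filter

namespace Pool.CSE

private theorem BadSum_asym (K δ : ℝ) (hK : 0 < K) (hδ : 0 < δ) :
    ∀ᶠ N : ℕ in atTop,
      (2 * Real.log N + 1) * (2 * K * Real.log N * (N : ℝ) ^ (-δ)) ≤ 1 := by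
  have h1 : ∀ᶠ x : ℝ in atTop, ‖Real.log x‖ ≤ 1 * ‖x ^ (δ / 4)‖ :=
    (isLittleO_log_rpow_atTop (by positivity)).bound (by norm_num)
  have h2 : ∀ᶠ x : ℝ in atTop, 6 * K ≤ x ^ (δ / 2) :=
    (tendsto_rpow_atTop (by positivity)).eventually_ge_atTop _
  have h3 := tendsto_natCast_atTop_atTop (R := ℝ)
  filter_upwards [h3.eventually h1, h3.eventually h2, eventually_ge_atTop 1] with N h1 h2 hN
  have hN1 : (1 : ℝ) ≤ N := by exact_mod_cast hN
  have hN0 : (0 : ℝ) < N := by linarith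
  have hL : 0 ≤ Real.log N := Real.log_nonneg hN1
  have hp : (1 : ℝ) ≤ (N : ℝ) ^ (δ / 4) := Real.one_le_rpow hN1 (by positivity)
  rw [one_mul, Real.norm_of_nonneg hL, Real.norm_of_nonneg (by positivity)] at h1
  set y : ℝ := (N : ℝ) ^ (δ / 4) with hy
  have hyy : (N : ℝ) ^ (δ / 2) = y * y := by
    rw [hy, ← Real.rpow_add hN0]; congr 1; ring
  have hneg : (N : ℝ) ^ (-δ) * (y * y * (y * y)) = 1 := by
    rw [← hyy, ← Real.rpow_add hN0, ← Real.rpow_add hN0]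
    rw [show -δ + (δ / 2 + δ / 2) = 0 by ring, Real.rpow_zero]
  have hz : 0 < (N : ℝ) ^ (-δ) := by positivity
  rw [hyy] at h2
  calc (2 * Real.log N + 1) * (2 * K * Real.log N * (N : ℝ) ^ (-δ))
      ≤ (2 * y + y) * (2 * K * y * (N : ℝ) ^ (-δ)) := by gcongr
    _ = (6 * K) * (y * y) * (N : ℝ) ^ (-δ) := by ring
    _ ≤ (y * y) * (y * y) * (N : ℝ) ^ (-δ) := by gcongr
    _ = 1 := by rw [← hneg]; ring

private theorem BadSum_card (H m0 m n p₀ : ℕ) (η κ c' C N t : ℝ) (hη : 0 < η) (hη1 : η ≤ 1)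
    (hm1 : 1 ≤ m) (hm : m ≤ m0) (hC : 0 < C) (hN : 1 ≤ N) (hp0 : 1 ≤ p₀)
    (hc : 0 < c') (ht : N ^ κ ≤ t)
    (h1 : (1 - κ + c') * Real.log N ≤ m * Real.log p₀)
    (h2 : m * Real.log p₀ ≤ (κ - c') * Real.log N)
    (hb : η ^ (2 * m) * (n : ℝ) ^ m * t ≤
      C * (m : ℝ) ^ m * ((H * N + 1) + ((2 * p₀ : ℕ) : ℝ) ^ (2 * m))) :
    (n : ℝ) ≤ max 1 (C * (m0 : ℝ) ^ m0 * (H + 1 + 4 ^ m0) / η ^ (2 * m0)) * p₀ *
      N ^ (-(c' / m0)) := by
  set K : ℝ := max 1 (C * (m0 : ℝ) ^ m0 * (H + 1 + 4 ^ m0) / η ^ (2 * m0)) with hK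
  have hK1 : 1 ≤ K := le_max_left _ _
  have hK2 : C * (m0 : ℝ) ^ m0 * (H + 1 + 4 ^ m0) / η ^ (2 * m0) ≤ K := le_max_right _ _
  have hN0 : 0 < N := by linarith
  have hp : (1 : ℝ) ≤ p₀ := by exact_mod_cast hp0
  have hp00 : (0 : ℝ) < p₀ := by linarith
  have hm0' : (1 : ℝ) ≤ m0 := by exact_mod_cast le_trans hm1 hm
  have hmm0 : (m : ℝ) ≤ m0 := by exact_mod_cast hm
  have hm1' : (1 : ℝ) ≤ m := by exact_mod_cast hm1
  set x : ℝ := (p₀ : ℝ) ^ m with hx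
  have hx0 : 0 < x := by positivity
  have hlogx : Real.log x = m * Real.log p₀ := by rw [hx, Real.log_pow]
  have hxl : N ^ (1 - κ + c') ≤ x := by
    rw [Real.rpow_def_of_pos hN0, ← Real.le_log_iff_exp_le hx0, hlogx]
    linarith
  have hxu : x ≤ N ^ (κ - c') := by
    rw [Real.rpow_def_of_pos hN0, ← Real.log_le_iff_le_exp hx0, hlogx]
    linarith
  set w : ℝ := N ^ (κ - c') with hw
  have hw0 : 0 < w := by positivity
  have hNw : N ≤ x * w := by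
    calc N = N ^ (1 - κ + c') * N ^ (κ - c') := by
          rw [← Real.rpow_add hN0, show 1 - κ + c' + (κ - c') = 1 by ring, Real.rpow_one]
      _ ≤ x * w := by gcongr
  have hQ : ((2 * p₀ : ℕ) : ℝ) ^ (2 * m) = 4 ^ m * (x * x) := by
    push_cast
    rw [mul_pow, pow_mul, pow_mul, hx]
    norm_num
    ring
  have h4 : (4 : ℝ) ^ m ≤ 4 ^ m0 := pow_le_pow_right₀ (by norm_num) hm
  have hH : (0 : ℝ) ≤ H := Nat.cast_nonneg _
  have hR : (H * N + 1) + ((2 * p₀ : ℕ) : ℝ) ^ (2 * m) ≤ (H + 1 + 4 ^ m0) * (x * w) := by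
    rw [hQ]
    calc (H * N + 1) + 4 ^ m * (x * x) ≤ (H * N + N) + 4 ^ m0 * (x * w) := by gcongr
      _ = (H + 1) * N + 4 ^ m0 * (x * w) := by ring
      _ ≤ (H + 1) * (x * w) + 4 ^ m0 * (x * w) := by gcongr
      _ = _ := by ring
  have hmm : (m : ℝ) ^ m ≤ (m0 : ℝ) ^ m0 := by
    calc (m : ℝ) ^ m ≤ (m0 : ℝ) ^ m := by gcongr
      _ ≤ (m0 : ℝ) ^ m0 := pow_le_pow_right₀ hm0' hm
  have hηm : η ^ (2 * m0) ≤ η ^ (2 * m) :=
    pow_le_pow_of_le_one hη.le hη1 (by omega)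
  have hNk : N ^ κ = w * N ^ c' := by
    rw [hw, ← Real.rpow_add hN0]; congr 1; ring
  have hn0 : (0 : ℝ) ≤ (n : ℝ) ^ m := by positivity
  have step : η ^ (2 * m0) * (n : ℝ) ^ m * (w * N ^ c') ≤
      C * (m0 : ℝ) ^ m0 * ((H + 1 + 4 ^ m0) * (x * w)) := by
    calc η ^ (2 * m0) * (n : ℝ) ^ m * (w * N ^ c')
        ≤ η ^ (2 * m) * (n : ℝ) ^ m * t := by
          rw [← hNk]; gcongr
      _ ≤ C * (m : ℝ) ^ m * ((H * N + 1) + ((2 * p₀ : ℕ) : ℝ) ^ (2 * m)) := hb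
      _ ≤ C * (m0 : ℝ) ^ m0 * ((H + 1 + 4 ^ m0) * (x * w)) := by gcongr
  have hηp : 0 < η ^ (2 * m0) := by positivity
  have hNc : 0 < N ^ c' := by positivity
  have step2 : (n : ℝ) ^ m ≤ K * x * N ^ (-c') := by
    have h5 : (n : ℝ) ^ m * N ^ c' ≤
        C * (m0 : ℝ) ^ m0 * (H + 1 + 4 ^ m0) / η ^ (2 * m0) * x := by
      rw [div_mul_eq_mul_div, le_div_iff₀ hηp]
      have := (mul_le_mul_iff_left₀ hw0).mp
        (show (n : ℝ) ^ m * N ^ c' * η ^ (2 * m0) * w ≤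
          C * (m0 : ℝ) ^ m0 * (H + 1 + 4 ^ m0) * x * w by nlinarith [step])
      exact this
    rw [Real.rpow_neg hN0.le, ← div_eq_mul_inv, le_div_iff₀ hNc]
    exact h5.trans (by gcongr)
  have hm0ne : m ≠ 0 := by omega
  refine (pow_le_pow_iff_left₀ (by positivity) (by positivity) hm0ne).mp ?_
  calc (n : ℝ) ^ m ≤ K * x * N ^ (-c') := step2
    _ ≤ K ^ m * x * (N ^ (-(c' / m0))) ^ m := by
        have hKm : K ≤ K ^ m := by
          calc K = K ^ 1 := (pow_one K).symm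
            _ ≤ K ^ m := pow_le_pow_right₀ hK1 hm1
        have hNm : N ^ (-c') ≤ (N ^ (-(c' / m0))) ^ m := by
          rw [← Real.rpow_natCast, ← Real.rpow_mul hN0.le]
          apply Real.rpow_le_rpow_of_exponent_le hN
          have : c' / m0 * m ≤ c' := by
            rw [div_mul_eq_mul_div, div_le_iff₀ (by linarith)]
            gcongr
          linarith
        have hKpos : 0 < K := by linarith
        gcongr
    _ = (K * p₀ * N ^ (-(c' / m0))) ^ m := by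
        rw [hx]; ring

theorem bad_sum (H m0 : ℕ) (η κ c' ε : ℝ) (hη : 0 < η) (hη1 : η ≤ 1) (hκ : κ ≤ 1)
    (hc : 0 < c') (hε : 0 < ε) (hm0 : 1 ≤ m0) :
    ∀ᶠ N : ℕ in atTop, ∀ T : Finset ℤ, (∀ t ∈ T, |t| ≤ (H : ℤ) * N) →
      (N : ℝ) ^ κ ≤ T.card → ∀ R : Finset ℕ,
      (∀ p ∈ R, p.Prime ∧ Bad η T p ∧ (N : ℝ) ^ ε < p ∧ p ≤ N ∧
        ∃ m : ℕ, 1 ≤ m ∧ m ≤ m0 ∧ (1 - κ + c') * Real.log N ≤ m * Real.log p ∧
          m * Real.log p ≤ (κ - c') * Real.log N) →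
      ∑ p ∈ R, wt p ≤ 1 := by
  obtain ⟨C, hC, hbias⟩ := bias
  set K : ℝ := max 1 (C * (m0 : ℝ) ^ m0 * (H + 1 + 4 ^ m0) / η ^ (2 * m0)) with hK
  have hK1 : 1 ≤ K := le_max_left _ _
  have hm0' : (1 : ℝ) ≤ m0 := by exact_mod_cast hm0
  have hδ : 0 < c' / m0 := by positivity
  have h1 := BadSum_asym K (c' / m0) (by linarith) hδ
  have h2 : ∀ᶠ N : ℕ in atTop, (m0 : ℝ) ≤ (N : ℝ) ^ ε :=
    (tendsto_natCast_atTop_atTop (R := ℝ)).eventually
      ((tendsto_rpow_atTop hε).eventually_ge_atTop _)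
  filter_upwards [h1, h2, eventually_ge_atTop 1] with N h1 h2 hN T hT hTc R hR
  have hN1 : (1 : ℝ) ≤ N := by exact_mod_cast hN
  have hN0 : (0 : ℝ) < N := by linarith
  have hL : 0 ≤ Real.log N := Real.log_nonneg hN1
  have hTne : T.Nonempty := by
    rw [← Finset.card_pos]
    have : (0 : ℝ) < T.card := lt_of_lt_of_le (by positivity) hTc
    exact_mod_cast this
  set S : ℝ := 2 * K * Real.log N * (N : ℝ) ^ (-(c' / m0)) with hS
  have hS0 : 0 ≤ S := by positivity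
  have hmaps : ∀ p ∈ R, Nat.log 2 p ∈ range (Nat.log 2 N + 1) := by
    intro p hp
    rw [mem_range]
    have := Nat.log_mono_right (b := 2) (hR p hp).2.2.2.1
    omega
  rw [← Finset.sum_fiberwise_of_maps_to hmaps]
  have hgroup : ∀ i ∈ range (Nat.log 2 N + 1), ∑ p ∈ R with Nat.log 2 p = i, wt p ≤ S := by
    intro i _
    rcases (R.filter (fun p => Nat.log 2 p = i)).eq_empty_or_nonempty with he | hne
    · rw [he, Finset.sum_empty]; exact hS0
    obtain ⟨p₀, hp₀⟩ := hne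
    rw [mem_filter] at hp₀
    obtain ⟨hp₀R, hp₀i⟩ := hp₀
    obtain ⟨hpp, hpbad, hpε, hpN, m, hm1, hm, hml, hmu⟩ := hR p₀ hp₀R
    have hp₀0 : p₀ ≠ 0 := hpp.ne_zero
    have hlow : 2 ^ i ≤ p₀ := by rw [← hp₀i]; exact Nat.pow_log_le_self 2 hp₀0
    have hup : p₀ < 2 ^ (i + 1) := by
      rw [← hp₀i]; exact Nat.lt_pow_succ_log_self (by norm_num) p₀
    have hb := hbias m (R.filter (fun p => Nat.log 2 p = i)) (2 * p₀) (H * N + 1) T η hm1 hη hTne
      (by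
        intro p hp
        rw [mem_filter] at hp
        obtain ⟨hpR, hpi⟩ := hp
        obtain ⟨hq, hqbad, hqε, -, -⟩ := hR p hpR
        refine ⟨hq, ?_, ?_, hqbad⟩
        · have : (m : ℝ) < p := by
            calc (m : ℝ) ≤ m0 := by exact_mod_cast hm
              _ ≤ (N : ℝ) ^ ε := h2
              _ < p := hqε
          exact_mod_cast this
        · have : p < 2 ^ (i + 1) := by
            rw [← hpi]; exact Nat.lt_pow_succ_log_self (by norm_num) p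
          rw [pow_succ] at this
          omega)
      (by
        intro t ht
        have := hT t ht
        push_cast
        omega)
    have hcard := BadSum_card H m0 m (R.filter (fun p => Nat.log 2 p = i)).card p₀ η κ c' C N
      T.card hη hη1 hm1 hm hC hN1 hpp.one_lt.le hc hTc hml hmu (by
        refine hb.trans (le_of_eq ?_)
        push_cast
        ring)
    have hp₀pos : (0 : ℝ) < p₀ := by exact_mod_cast hpp.pos
    have hwt : ∀ p ∈ R.filter (fun p => Nat.log 2 p = i), wt p ≤ 2 * Real.log N / p₀ := by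
      intro p hp
      rw [mem_filter] at hp
      obtain ⟨hpR, hpi⟩ := hp
      obtain ⟨hq, -, -, hqN, -⟩ := hR p hpR
      have hqpos : (0 : ℝ) < p := by exact_mod_cast hq.pos
      have hge : p₀ ≤ 2 * p := by
        have : 2 ^ i ≤ p := by rw [← hpi]; exact Nat.pow_log_le_self 2 hq.ne_zero
        rw [pow_succ] at hup
        omega
      have hge' : (p₀ : ℝ) ≤ 2 * p := by exact_mod_cast hge
      have hlog : Real.log p ≤ Real.log N := Real.log_le_log hqpos (by exact_mod_cast hqN)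
      have hlog0 : 0 ≤ Real.log p := Real.log_nonneg (by exact_mod_cast hq.one_lt.le)
      unfold wt
      rw [div_le_div_iff₀ hqpos hp₀pos]
      calc Real.log p * p₀ ≤ Real.log N * (2 * p) := by gcongr
        _ = 2 * Real.log N * p := by ring
    calc ∑ p ∈ R with Nat.log 2 p = i, wt p
        ≤ (R.filter (fun p => Nat.log 2 p = i)).card • (2 * Real.log N / p₀) :=
          Finset.sum_le_card_nsmul _ _ _ hwt
      _ = ((R.filter (fun p => Nat.log 2 p = i)).card : ℝ) * (2 * Real.log N / p₀) := by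
          rw [nsmul_eq_mul]
      _ ≤ (K * p₀ * (N : ℝ) ^ (-(c' / m0))) * (2 * Real.log N / p₀) := by
          gcongr
      _ = S := by
          rw [hS]; field_simp
  have hnum : ((Nat.log 2 N + 1 : ℕ) : ℝ) ≤ 2 * Real.log N + 1 := by
    have h5 : (2 : ℝ) ^ (Nat.log 2 N) ≤ N := by
      exact_mod_cast Nat.pow_log_le_self 2 (by omega)
    have h6 : (Nat.log 2 N : ℝ) * Real.log 2 ≤ Real.log N := by
      rw [← Real.log_pow]
      exact Real.log_le_log (by positivity) h5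
    have h7 := Real.log_two_gt_d9
    have h8 : (0 : ℝ) ≤ (Nat.log 2 N : ℝ) := Nat.cast_nonneg _
    push_cast
    nlinarith
  calc ∑ i ∈ range (Nat.log 2 N + 1), ∑ p ∈ R with Nat.log 2 p = i, wt p
      ≤ (range (Nat.log 2 N + 1)).card • S := Finset.sum_le_card_nsmul _ _ _ hgroup
    _ = ((Nat.log 2 N + 1 : ℕ) : ℝ) * S := by rw [card_range, nsmul_eq_mul]
    _ ≤ (2 * Real.log N + 1) * S := by gcongr
    _ ≤ 1 := h1

end Pool.CSE
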