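import Pool.Agent.Lib.CSE.Root

/-!
# CSE, module ProdR: products of roots of unity of different prime orders

`P` is a set of primes, `u p` a nontrivial `p`-th root of unity.

`prod_support`: suppose `τ i₀ = p` and no `σ j` is `p`. Let `Q` be the product of the primes
`q ≠ p` in the (finite) set of values of `σ` and `τ` (or simply of `P.erase p`). Raise
`∏ u (σ i) = ∏ u (τ i)` to the power `Q`: the left side becomes `1`, the right side
`u p ^ (Q * k)`, `k` = number of `i` with `τ i = p`, `1 ≤ k ≤ m < p`. The order of `u p` is `p`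
(`orderOf_eq_prime`), so `p ∣ Q * k`, but `p ∤ Q` (different primes) and `p ∤ k`: contradiction.

`fiber_card`: if the fibre contains `σ`, every other `τ` in it has its values in the image of `σ`
(`prod_support`), a set with at most `m` elements: the fibre is contained in
`Fintype.piFinset (fun _ => univ.image σ)`, of cardinality `≤ m ^ m`.

`prod_sep`: with `n = (∏ σ i) * (∏ τ i) ≤ Q^(2m)` both products are `n`-th roots of unity of norm
one, so is their quotient `ζ ≠ 1`; `‖z - z'‖ = ‖z'‖ ‖z/z' - 1‖ ≥ 1/n ≥ 1/Q^(2m)` by `root_sep`.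
-/

set_option autoImplicit false

open Finset

namespace Pool.CSE

theorem prod_support (m : ℕ) (P : Finset ℕ) (u : ℕ → ℂ)
    (hP : ∀ p ∈ P, p.Prime ∧ m < p ∧ u p ^ p = 1 ∧ u p ≠ 1) (σ τ : Fin m → ℕ)
    (hσ : ∀ i, σ i ∈ P) (hτ : ∀ i, τ i ∈ P) (h : ∏ i, u (σ i) = ∏ i, u (τ i)) :
    ∀ i, ∃ j, τ i = σ j := by
  classical
  intro i₀
  by_contra hcon
  push Not at hcon
  set p := τ i₀ with hp
  have hpP : p ∈ P := hτ i₀
  obtain ⟨hpp, hmp, hup, hu1⟩ := hP p hpP
  set Q := ∏ q ∈ P.erase p, q with hQ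
  have hQ1 : ∀ q ∈ P, q ≠ p → u q ^ Q = 1 := by
    intro q hq hne
    have hd : q ∣ Q := Finset.dvd_prod_of_mem (fun q => q) (Finset.mem_erase.2 ⟨hne, hq⟩)
    obtain ⟨c, hc⟩ := hd
    rw [hc, pow_mul, (hP q hq).2.2.1, one_pow]
  have hL : (∏ i, u (σ i)) ^ Q = 1 := by
    rw [← Finset.prod_pow]
    exact Finset.prod_eq_one fun i _ => hQ1 _ (hσ i) (fun hh => hcon i hh.symm)
  have hR : (∏ i, u (τ i)) ^ Q = u p ^ (Q * (univ.filter (fun i => τ i = p)).card) := by
    rw [← Finset.prod_pow]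
    have : ∀ i ∈ (univ : Finset (Fin m)), u (τ i) ^ Q = if τ i = p then u p ^ Q else 1 := by
      intro i _
      split_ifs with hi
      · rw [hi]
      · exact hQ1 _ (hτ i) hi
    rw [Finset.prod_congr rfl this, Finset.prod_ite, Finset.prod_const, Finset.prod_const_one,
      mul_one, ← pow_mul]
  rw [← h, hL] at hR
  have hord : orderOf (u p) = p := by
    have : Fact p.Prime := ⟨hpp⟩
    exact orderOf_eq_prime hup hu1
  have hdvd : p ∣ Q * (univ.filter (fun i => τ i = p)).card := by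
    have h3 := orderOf_dvd_of_pow_eq_one hR.symm
    rwa [hord] at h3
  rcases (Nat.Prime.dvd_mul hpp).1 hdvd with hd | hd
  · rw [hQ] at hd
    obtain ⟨q, hq, hpq⟩ := (Prime.dvd_finsetProd_iff (Nat.Prime.prime hpp) _).1 hd
    rw [Finset.mem_erase] at hq
    exact hq.1 (((Nat.prime_dvd_prime_iff_eq hpp (hP q hq.2).1).1 hpq).symm)
  · have hpos : 0 < (univ.filter (fun i => τ i = p)).card :=
      Finset.card_pos.2 ⟨i₀, by simp [hp]⟩
    have hle : (univ.filter (fun i => τ i = p)).card ≤ m := by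
      refine (Finset.card_le_univ _).trans ?_
      simp
    have := Nat.le_of_dvd hpos hd
    omega

theorem fiber_card (m : ℕ) (P : Finset ℕ) (u : ℕ → ℂ)
    (hP : ∀ p ∈ P, p.Prime ∧ m < p ∧ u p ^ p = 1 ∧ u p ≠ 1) (z : ℂ) :
    open Classical in
    ((Fintype.piFinset (fun _ : Fin m => P)).filter (fun τ => ∏ i, u (τ i) = z)).card ≤ m ^ m := by
  classical
  rcases Finset.eq_empty_or_nonempty
    ((Fintype.piFinset (fun _ : Fin m => P)).filter (fun τ => ∏ i, u (τ i) = z)) with h0 | ⟨σ, hσ⟩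
  · rw [h0]; simp
  · rw [Finset.mem_filter, Fintype.mem_piFinset] at hσ
    have hsub : (Fintype.piFinset (fun _ : Fin m => P)).filter (fun τ => ∏ i, u (τ i) = z) ⊆
        Fintype.piFinset (fun _ : Fin m => univ.image σ) := by
      intro τ hτ
      rw [Finset.mem_filter, Fintype.mem_piFinset] at hτ
      rw [Fintype.mem_piFinset]
      intro i
      obtain ⟨j, hj⟩ := prod_support m P u hP σ τ hσ.1 hτ.1 (hσ.2.trans hτ.2.symm) i
      rw [Finset.mem_image]
      exact ⟨j, mem_univ _, hj.symm⟩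
    refine (Finset.card_le_card hsub).trans ?_
    rw [Fintype.card_piFinset, Finset.prod_const, Finset.card_univ, Fintype.card_fin]
    refine Nat.pow_le_pow_left ?_ m
    refine Finset.card_image_le.trans ?_
    simp

theorem prod_sep (m Q : ℕ) (P : Finset ℕ) (u : ℕ → ℂ)
    (hP : ∀ p ∈ P, p.Prime ∧ p ≤ Q ∧ u p ^ p = 1) (σ τ : Fin m → ℕ)
    (hσ : ∀ i, σ i ∈ P) (hτ : ∀ i, τ i ∈ P) (h : ∏ i, u (σ i) ≠ ∏ i, u (τ i)) :
    1 / (Q : ℝ) ^ (2 * m) ≤ ‖∏ i, u (σ i) - ∏ i, u (τ i)‖ := by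
  set z := ∏ i, u (σ i) with hz
  set z' := ∏ i, u (τ i) with hz'
  set n := (∏ i, σ i) * (∏ i, τ i) with hn
  have hpos : 0 < n := by
    refine Nat.mul_pos (Finset.prod_pos fun i _ => (hP _ (hσ i)).1.pos)
      (Finset.prod_pos fun i _ => (hP _ (hτ i)).1.pos)
  have hle : n ≤ Q ^ (2 * m) := by
    have h1 : ∏ i, σ i ≤ Q ^ m := by
      refine (Finset.prod_le_prod' (fun i _ => (hP _ (hσ i)).2.1)).trans ?_
      simp
    have h2 : ∏ i, τ i ≤ Q ^ m := by
      refine (Finset.prod_le_prod' (fun i _ => (hP _ (hτ i)).2.1)).trans ?_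
      simp
    calc n ≤ Q ^ m * Q ^ m := Nat.mul_le_mul h1 h2
      _ = Q ^ (2 * m) := by rw [← pow_add, two_mul]
  have hz1 : z ^ n = 1 := by
    rw [hz, ← Finset.prod_pow]
    refine Finset.prod_eq_one fun i _ => ?_
    obtain ⟨c, hc⟩ : σ i ∣ n :=
      (Finset.dvd_prod_of_mem (fun i => σ i) (Finset.mem_univ i)).trans (Dvd.intro _ rfl)
    rw [hc, pow_mul, (hP _ (hσ i)).2.2, one_pow]
  have hz1' : z' ^ n = 1 := by
    rw [hz', ← Finset.prod_pow]
    refine Finset.prod_eq_one fun i _ => ?_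
    obtain ⟨c, hc⟩ : τ i ∣ n :=
      (Finset.dvd_prod_of_mem (fun i => τ i) (Finset.mem_univ i)).trans (Dvd.intro_left _ rfl)
    rw [hc, pow_mul, (hP _ (hτ i)).2.2, one_pow]
  have hnorm : ‖z'‖ = 1 := Complex.norm_eq_one_of_pow_eq_one hz1' hpos.ne'
  have hz0 : z' ≠ 0 := by
    intro h0
    rw [h0, norm_zero] at hnorm
    exact zero_ne_one hnorm
  have hζ1 : (z / z') ^ n = 1 := by rw [div_pow, hz1, hz1', div_one]
  have hζ2 : z / z' ≠ 1 := by
    intro h1
    rw [div_eq_one_iff_eq hz0] at h1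
    exact h h1
  have hsep := root_sep n hpos (z / z') hζ1 hζ2
  have heq : z - z' = z' * (z / z' - 1) := by
    field_simp
  rw [heq, norm_mul, hnorm, one_mul]
  refine le_trans ?_ hsep
  have hn0 : (0 : ℝ) < n := by exact_mod_cast hpos
  refine one_div_le_one_div_of_le hn0 ?_
  exact_mod_cast hle

end Pool.CSE
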