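import Pool.Agent.Lib.CSE.Defs
import Pool.Agent.Lib.CSE.ProdR
import Pool.Agent.Lib.NSqP.LS0

/-!
# CSE, module Bias: Lemma B (a large set is biased modulo few primes)

Proof. If `P = ∅`: the left side is `0` (as `m ≥ 1`). Choose for `p ∈ P` a root `u p` with
`η |T| ≤ ‖∑_{t∈T} (u p)^t‖` and a unimodular `c p` (a complex number of norm one) with
`c p * ∑_{t∈T} (u p)^t = ‖∑_{t∈T} (u p)^t‖`. Put `f x = ∑_{p∈P} c p * (u p)^x` (`x : ℤ`, zpow).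
(1) `η |P| |T| ≤ ∑_{t∈T} ‖f t‖` (exchange the sums; real part / norm).
(2) `(∑_{t∈T} ‖f t‖)^(2m) ≤ |T|^(2m-1) ∑_{t∈T} ‖f t‖^(2m)` (`inner_le_nnorm_mul_nnorm` is not
    needed: `pow_sum_div_card_le_sum_pow`, or `inner_mul_le_norm_mul_norm`;
    `Finset.pow_sum_div_card_le_sum_pow`).
(3) `∑_{t∈T} ‖f t‖^(2m) ≤ ∑_{x ∈ fr M} ‖(f x)^m‖^2` (`T ⊆ fr M`, `fr M = Ioo (-M) M`).
(4) `(f x)^m = ∑_{σ ∈ piFinset (fun _ : Fin m => P)} (∏ c (σ i)) * (∏ u (σ i))^x`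
    (`Finset.sum_pow'`-like: `Finset.prod_univ_sum`), `= ∑_{z∈S} a z * z^x`, where
    `S = image of σ ↦ ∏ u (σ i)` (a `Finset ℂ`), `a z = ∑_{σ : ∏ u (σ i) = z} ∏ c (σ i)`.
(5) `NSqP.LS0` with `ι = ℂ`, `s = S`, `u = id`, `L = Q^(2m)`: `‖z‖ = 1` and the separation
    `prod_sep`. So (3) is at most `C (M + Q^(2m)) ∑_{z∈S} ‖a z‖^2`.
(6) `‖a z‖ ≤ fibre card ≤ m^m` (`fiber_card`), so `∑ ‖a z‖^2 ≤ m^m ∑_z fibre card = m^m |P|^m`.
(7) Together `(η |P| |T|)^(2m) ≤ |T|^(2m-1) C (M + Q^(2m)) m^m |P|^m`; divide by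
    `|T|^(2m-1) |P|^m`.
-/

set_option autoImplicit false

open Finset

namespace Pool.CSE

open Pool.Agent.NSqP (fr mem_fr)

private theorem bias_unimod (S : ℂ) : ∃ c : ℂ, ‖c‖ = 1 ∧ c * S = (‖S‖ : ℂ) := by
  refine ⟨Complex.exp (((-S.arg : ℝ) : ℂ) * Complex.I), Complex.norm_exp_ofReal_mul_I _, ?_⟩
  conv_lhs => rw [← Complex.norm_mul_exp_arg_mul_I S]
  rw [mul_left_comm, ← Complex.exp_add]
  have h : ((-(((‖S‖ : ℂ) * Complex.exp (S.arg * Complex.I)).arg) : ℝ) : ℂ) * Complex.I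
      + (S.arg : ℂ) * Complex.I = 0 := by
    rw [Complex.norm_mul_exp_arg_mul_I S]
    push_cast
    ring
  rw [h, Complex.exp_zero, mul_one]

private theorem bias_choose (T : Finset ℤ) (η : ℝ) (P : Finset ℕ)
    (hP : ∀ p ∈ P, Bad η T p) : ∃ u c : ℕ → ℂ, ∀ p ∈ P, u p ^ p = 1 ∧ u p ≠ 1 ∧ ‖c p‖ = 1 ∧
      η * T.card ≤ (c p * ∑ t ∈ T, u p ^ t).re := by
  have h1 : ∀ p : ℕ, ∃ z : ℂ × ℂ, p ∈ P → z.1 ^ p = 1 ∧ z.1 ≠ 1 ∧ ‖z.2‖ = 1 ∧
      η * T.card ≤ (z.2 * ∑ t ∈ T, z.1 ^ t).re := by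
    intro p
    by_cases hp : p ∈ P
    · obtain ⟨ζ, h1, h2, h3⟩ := hP p hp
      obtain ⟨c, hc, hc2⟩ := bias_unimod (∑ t ∈ T, ζ ^ t)
      refine ⟨(ζ, c), fun _ => ⟨h1, h2, hc, ?_⟩⟩
      dsimp only
      rw [hc2, Complex.ofReal_re]
      exact h3
    · exact ⟨(0, 0), fun h => absurd h hp⟩
  choose z hz using h1
  exact ⟨fun p => (z p).1, fun p => (z p).2, fun p hp => hz p hp⟩

private theorem bias_pow (m : ℕ) (P : Finset ℕ) (u c : ℕ → ℂ) (x : ℤ) :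
    open Classical in
    (∑ p ∈ P, c p * u p ^ x) ^ m =
      ∑ z ∈ (Fintype.piFinset (fun _ : Fin m => P)).image (fun σ => ∏ i, u (σ i)),
        (∑ σ ∈ (Fintype.piFinset (fun _ : Fin m => P)).filter (fun σ => ∏ i, u (σ i) = z),
          ∏ i, c (σ i)) * z ^ x := by
  classical
  have h1 : (∑ p ∈ P, c p * u p ^ x) ^ m = ∏ _i : Fin m, ∑ p ∈ P, c p * u p ^ x := by
    rw [Finset.prod_const, Finset.card_univ, Fintype.card_fin]
  rw [h1, Finset.prod_univ_sum]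
  rw [← Finset.sum_fiberwise_of_maps_to (g := fun σ : Fin m → ℕ => ∏ i, u (σ i))
    (t := (Fintype.piFinset (fun _ : Fin m => P)).image (fun σ => ∏ i, u (σ i)))
    (fun σ hσ => Finset.mem_image_of_mem _ hσ)]
  refine Finset.sum_congr rfl fun z _ => ?_
  rw [Finset.sum_mul]
  refine Finset.sum_congr rfl fun σ hσ => ?_
  rw [Finset.mem_filter] at hσ
  rw [Finset.prod_mul_distrib, ← hσ.2, Finset.prod_zpow]

theorem bias : ∃ C : ℝ, 0 < C ∧ ∀ (m : ℕ) (P : Finset ℕ) (Q M : ℕ) (T : Finset ℤ) (η : ℝ),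
    1 ≤ m → 0 < η → T.Nonempty →
    (∀ p ∈ P, p.Prime ∧ m < p ∧ p ≤ Q ∧ Bad η T p) → (∀ t ∈ T, |t| < (M : ℤ)) →
    η ^ (2 * m) * (P.card : ℝ) ^ m * T.card ≤ C * (m : ℝ) ^ m * (M + (Q : ℝ) ^ (2 * m)) := by
  classical
  obtain ⟨C, hC, hLS⟩ := Pool.Agent.NSqP.LS0
  refine ⟨C, hC, ?_⟩
  intro m P Q M T η hm hη hT hP hTM
  rcases P.eq_empty_or_nonempty with hP0 | hPne
  · rw [hP0, Finset.card_empty, Nat.cast_zero, zero_pow (by omega), mul_zero, zero_mul]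
    positivity
  obtain ⟨u, c, huc⟩ := bias_choose T η P (fun p hp => (hP p hp).2.2.2)
  have hQ1 : 1 ≤ Q := by
    obtain ⟨p, hp⟩ := hPne
    exact (hP p hp).1.one_le.trans (hP p hp).2.2.1
  set f : ℤ → ℂ := fun x => ∑ p ∈ P, c p * u p ^ x with hf
  set S : Finset ℂ := (Fintype.piFinset (fun _ : Fin m => P)).image (fun σ => ∏ i, u (σ i)) with hS
  set F : ℂ → Finset (Fin m → ℕ) := fun z =>
    (Fintype.piFinset (fun _ : Fin m => P)).filter (fun σ => ∏ i, u (σ i) = z) with hF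
  set a : ℂ → ℂ := fun z => ∑ σ ∈ F z, ∏ i, c (σ i) with ha
  have hTc : (0 : ℝ) < T.card := by exact_mod_cast hT.card_pos
  have hPc : (0 : ℝ) < P.card := by exact_mod_cast hPne.card_pos
  -- step 1
  have s1 : η * P.card * T.card ≤ ∑ t ∈ T, ‖f t‖ := by
    have h1 : (∑ p ∈ P, c p * ∑ t ∈ T, u p ^ t) = ∑ t ∈ T, f t := by
      rw [hf]
      simp_rw [Finset.mul_sum]
      exact Finset.sum_comm
    calc η * P.card * T.card = ∑ _p ∈ P, η * T.card := by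
          rw [Finset.sum_const, nsmul_eq_mul]; ring
      _ ≤ ∑ p ∈ P, (c p * ∑ t ∈ T, u p ^ t).re :=
          Finset.sum_le_sum fun p hp => (huc p hp).2.2.2
      _ = (∑ p ∈ P, c p * ∑ t ∈ T, u p ^ t).re := (Complex.re_sum _ _).symm
      _ = (∑ t ∈ T, f t).re := by rw [h1]
      _ ≤ ‖∑ t ∈ T, f t‖ := Complex.re_le_norm _
      _ ≤ ∑ t ∈ T, ‖f t‖ := norm_sum_le _ _
  -- step 2
  have s2 : (∑ t ∈ T, ‖f t‖) ^ (2 * m) ≤ (T.card : ℝ) ^ (2 * m - 1) * ∑ t ∈ T, ‖f t‖ ^ (2 * m) := by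
    have h1 := pow_sum_div_card_le_sum_pow (s := T) (f := fun t => ‖f t‖)
      (fun t _ => norm_nonneg _) (2 * m - 1)
    have h2 : 2 * m - 1 + 1 = 2 * m := by omega
    rw [h2, div_le_iff₀ (by positivity)] at h1
    linarith [mul_comm ((T.card : ℝ) ^ (2 * m - 1)) (∑ t ∈ T, ‖f t‖ ^ (2 * m))]
  -- step 3
  have s3 : ∑ t ∈ T, ‖f t‖ ^ (2 * m) ≤ ∑ x ∈ fr M, ‖(f x) ^ m‖ ^ 2 := by
    have h1 : ∀ x : ℤ, ‖(f x) ^ m‖ ^ 2 = ‖f x‖ ^ (2 * m) := by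
      intro x
      rw [norm_pow, ← pow_mul, mul_comm]
    simp_rw [h1]
    refine Finset.sum_le_sum_of_subset_of_nonneg ?_ fun _ _ _ => by positivity
    intro t ht
    rw [fr, Finset.mem_Ioo]
    exact abs_lt.1 (hTM t ht)
  -- step 4
  have s4 : ∀ x : ℤ, (f x) ^ m = ∑ z ∈ S, a z * z ^ x := by
    intro x
    exact bias_pow m P u c x
  -- step 5
  have hroot : ∀ p ∈ P, ‖u p‖ = 1 := fun p hp =>
    Complex.norm_eq_one_of_pow_eq_one (huc p hp).1 (hP p hp).1.ne_zero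
  have s5 : ∑ x ∈ fr M, ‖(f x) ^ m‖ ^ 2 ≤ C * (M + (Q : ℝ) ^ (2 * m)) * ∑ z ∈ S, ‖a z‖ ^ 2 := by
    simp_rw [s4]
    refine hLS ℂ S a id ((Q : ℝ) ^ (2 * m)) M ?_ ?_ ?_
    · exact one_le_pow₀ (by exact_mod_cast hQ1)
    · intro z hz
      rw [hS, Finset.mem_image] at hz
      obtain ⟨σ, hσ, rfl⟩ := hz
      rw [Fintype.mem_piFinset] at hσ
      rw [id, norm_prod]
      exact Finset.prod_eq_one fun i _ => hroot _ (hσ i)
    · intro z hz w hw hzw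
      rw [hS, Finset.mem_image] at hz hw
      obtain ⟨σ, hσ, rfl⟩ := hz
      obtain ⟨τ, hτ, rfl⟩ := hw
      rw [Fintype.mem_piFinset] at hσ hτ
      exact prod_sep m Q P u (fun p hp => ⟨(hP p hp).1, (hP p hp).2.2.1, (huc p hp).1⟩) σ τ hσ hτ
        hzw
  -- step 6
  have s6 : ∑ z ∈ S, ‖a z‖ ^ 2 ≤ (m : ℝ) ^ m * (P.card : ℝ) ^ m := by
    have h1 : ∀ z ∈ S, ‖a z‖ ^ 2 ≤ (m : ℝ) ^ m * ((F z).card : ℝ) := by
      intro z _
      have h2 : ‖a z‖ ≤ (F z).card := by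
        calc ‖a z‖ ≤ ∑ σ ∈ F z, ‖∏ i, c (σ i)‖ := norm_sum_le _ _
          _ ≤ ∑ _σ ∈ F z, (1 : ℝ) := by
            refine Finset.sum_le_sum fun σ hσ => ?_
            rw [hF, Finset.mem_filter, Fintype.mem_piFinset] at hσ
            rw [norm_prod]
            exact (Finset.prod_eq_one fun i _ => (huc _ (hσ.1 i)).2.2.1).le
          _ = (F z).card := by rw [Finset.sum_const, nsmul_eq_mul, mul_one]
      have h3 : ((F z).card : ℝ) ≤ (m : ℝ) ^ m := by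
        have := fiber_card m P u (fun p hp => ⟨(hP p hp).1, (hP p hp).2.1, (huc p hp).1,
          (huc p hp).2.1⟩) z
        exact_mod_cast this
      rw [sq]
      exact mul_le_mul (h2.trans h3) h2 (norm_nonneg _) (by positivity)
    calc ∑ z ∈ S, ‖a z‖ ^ 2 ≤ ∑ z ∈ S, (m : ℝ) ^ m * ((F z).card : ℝ) := Finset.sum_le_sum h1
      _ = (m : ℝ) ^ m * ((∑ z ∈ S, (F z).card : ℕ) : ℝ) := by
        rw [← Finset.mul_sum]; push_cast; rfl
      _ = (m : ℝ) ^ m * (P.card : ℝ) ^ m := by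
        have h4 : ∑ z ∈ S, (F z).card = P.card ^ m := by
          rw [← Finset.card_eq_sum_card_fiberwise
            (f := fun σ : Fin m → ℕ => ∏ i, u (σ i))
            (s := Fintype.piFinset (fun _ : Fin m => P))
            (t := S) (fun σ hσ => Finset.mem_image_of_mem _ hσ)]
          rw [Fintype.card_piFinset, Finset.prod_const, Finset.card_univ, Fintype.card_fin]
        rw [h4]
        push_cast
        rfl
  -- step 7
  have s7 : (η * P.card * T.card) ^ (2 * m) ≤ (T.card : ℝ) ^ (2 * m - 1) *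
      (C * (M + (Q : ℝ) ^ (2 * m)) * ((m : ℝ) ^ m * (P.card : ℝ) ^ m)) := by
    calc (η * P.card * T.card) ^ (2 * m) ≤ (∑ t ∈ T, ‖f t‖) ^ (2 * m) :=
          pow_le_pow_left₀ (by positivity) s1 _
      _ ≤ (T.card : ℝ) ^ (2 * m - 1) * ∑ t ∈ T, ‖f t‖ ^ (2 * m) := s2
      _ ≤ (T.card : ℝ) ^ (2 * m - 1) *
          (C * (M + (Q : ℝ) ^ (2 * m)) * ((m : ℝ) ^ m * (P.card : ℝ) ^ m)) := by
        refine mul_le_mul_of_nonneg_left ?_ (by positivity)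
        refine (s3.trans s5).trans ?_
        exact mul_le_mul_of_nonneg_left s6 (by positivity)
  have s8 : (η * P.card * T.card) ^ (2 * m) =
      ((T.card : ℝ) ^ (2 * m - 1) * (P.card : ℝ) ^ m) *
        (η ^ (2 * m) * (P.card : ℝ) ^ m * T.card) := by
    have h2 : (T.card : ℝ) ^ (2 * m) = (T.card : ℝ) ^ (2 * m - 1) * T.card := by
      rw [← pow_succ]
      congr 1
      omega
    have h3 : (P.card : ℝ) ^ (2 * m) = (P.card : ℝ) ^ m * (P.card : ℝ) ^ m := by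
      rw [← pow_add, two_mul]
    rw [mul_pow, mul_pow, h2, h3]
    ring
  have h9 : (0 : ℝ) < (T.card : ℝ) ^ (2 * m - 1) * (P.card : ℝ) ^ m := by positivity
  refine le_of_mul_le_mul_left ?_ h9
  rw [← s8]
  refine s7.trans (le_of_eq ?_)
  ring

end Pool.CSE
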