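import Pool.Agent.Lib.CSE.BadSum

/-!
# CSE, module Cover: (S5)

`cover_aux`: `u` real. Second case: `m = 2`. First case (`ε ≤ u ≤ 2κ-1-c`, so `κ > 1/2`): let
`m = ⌈(1-κ+c/2)/u⌉₊`; then `m u ≥ 1-κ+c/2`, `m u < 1-κ+c/2+u ≤ κ-c/2`, `m ≥ 1` because
`1-κ+c/2 > 0`, and `m ≤ (1-κ+c/2)/ε + 1 ≤ 2/ε + 1`. (`m0 = max 2 ⌈2/ε + 1⌉₊`.)

`cover`: let `κ = kap ρ` (`≤ 3/5`, and `≤ 489/500-ρ`). For `p ∈ cov N ρ ε c` put
`u = log p / log N` (`N ≥ 2`): `N^a < p ≤ N^b` gives `a < u ≤ b`; `p > N^ε` in the second range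
because `(1-κ)/2 + c ≥ 1/5 > ε`; apply `cover_aux`, multiply by `log N`, and use `bad_sum` with
`c' = c/2`, `H = |l|.natAbs + |m|.natAbs` (the hypothesis on `T` is `|t| ≤ H N`) and
`N^κ ≤ N^(489/500-ρ) ≤ |T|`.
-/

set_option autoImplicit false

open Finset Filter

namespace Pool.CSE

theorem cover_aux (κ c ε : ℝ) (hκ : κ ≤ 3 / 5) (hc : 0 < c) (hc1 : c ≤ 1 / 100) (hε : 0 < ε) :
    ∃ m0 : ℕ, 1 ≤ m0 ∧ ∀ u : ℝ, (ε ≤ u ∧ u ≤ 2 * κ - 1 - c) ∨
      ((1 - κ) / 2 + c ≤ u ∧ u ≤ κ / 2 - c) →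
      ∃ m : ℕ, 1 ≤ m ∧ m ≤ m0 ∧ 1 - κ + c / 2 ≤ m * u ∧ m * u ≤ κ - c / 2 := by
  refine ⟨max 2 ⌈2 / ε + 1⌉₊, le_trans (by norm_num) (le_max_left _ _), ?_⟩
  rintro u (⟨h1, h2⟩ | ⟨h1, h2⟩)
  · have hu : 0 < u := lt_of_lt_of_le hε h1
    have hx : 0 < (1 - κ + c / 2) / u := div_pos (by linarith) hu
    refine ⟨⌈(1 - κ + c / 2) / u⌉₊, Nat.ceil_pos.2 hx, le_trans ?_ (le_max_right _ _), ?_, ?_⟩
    · apply Nat.ceil_mono
      have h3 : (1 - κ + c / 2) / u ≤ 2 / ε := by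
        apply div_le_div₀ (by norm_num) (by linarith) hε h1
      linarith
    · have h4 := Nat.le_ceil ((1 - κ + c / 2) / u)
      rw [div_le_iff₀ hu] at h4
      exact h4
    · have h5 := Nat.ceil_lt_add_one hx.le
      have h6 : (⌈(1 - κ + c / 2) / u⌉₊ : ℝ) * u < ((1 - κ + c / 2) / u + 1) * u :=
        mul_lt_mul_of_pos_right h5 hu
      rw [add_mul, div_mul_cancel₀ _ hu.ne', one_mul] at h6
      linarith
  · refine ⟨2, by norm_num, le_max_left _ _, ?_, ?_⟩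
    · push_cast
      linarith
    · push_cast
      linarith

theorem cover (l m : ℤ) (ρ ε c η : ℝ) (hρ : 1 / 4 ≤ ρ) (hε : 0 < ε)
    (hε1 : ε ≤ 1 / 100) (hc : 0 < c) (hc1 : c ≤ 1 / 100) (hη : 0 < η) (hη1 : η ≤ 1) :
    ∀ᶠ N : ℕ in atTop, ∀ T : Finset ℤ, (∀ t ∈ T, |t| ≤ (|l| + |m|) * (N : ℤ)) →
      (N : ℝ) ^ (489 / 500 - ρ) ≤ T.card →
      ∀ R : Finset ℕ, R ⊆ cov N ρ ε c → (∀ p ∈ R, Bad η T p) → ∑ p ∈ R, wt p ≤ 1 := by
  have hκ : kap ρ ≤ 3 / 5 := min_le_left _ _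
  have hκ2 : kap ρ ≤ 489 / 500 - ρ := min_le_right _ _
  obtain ⟨m0, hm0, hm⟩ := cover_aux (kap ρ) c ε hκ hc hc1 hε
  filter_upwards [bad_sum (l.natAbs + m.natAbs) m0 η (kap ρ) (c / 2) ε hη hη1 (by linarith)
    (by linarith) hε hm0, eventually_ge_atTop 2] with N hN hN2 T hT hTc R hR hB
  have hN1 : (1 : ℝ) < N := by exact_mod_cast hN2
  have hN0 : (0 : ℝ) < N := by linarith
  have hL : 0 < Real.log N := Real.log_pos hN1
  apply hN T
  · intro t ht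
    have h := hT t ht
    push_cast
    exact h
  · exact le_trans (Real.rpow_le_rpow_of_exponent_le hN1.le hκ2) hTc
  · intro p hp
    have hp1 := hR hp
    have key : ∀ a b : ℝ, p ∈ prI N a b → p.Prime ∧ p ≤ N ∧ a * Real.log N < Real.log p ∧
        Real.log p ≤ b * Real.log N ∧ (N : ℝ) ^ a < p := by
      intro a b h
      unfold prI at h
      rw [Finset.mem_filter, Finset.mem_range] at h
      obtain ⟨h1, h2, h3, h4⟩ := h
      have hp0 : (0 : ℝ) < p := by exact_mod_cast h2.pos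
      refine ⟨h2, by omega, ?_, ?_, h3⟩
      · rw [← Real.log_rpow hN0]
        exact Real.log_lt_log (Real.rpow_pos_of_pos hN0 _) h3
      · rw [← Real.log_rpow hN0]
        exact Real.log_le_log hp0 h4
    unfold cov at hp1
    rw [Finset.mem_union] at hp1
    have hconv : ∀ w : ℕ, 1 - kap ρ + c / 2 ≤ w * (Real.log p / Real.log N) →
        w * (Real.log p / Real.log N) ≤ kap ρ - c / 2 →
        (1 - kap ρ + c / 2) * Real.log N ≤ w * Real.log p ∧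
          w * Real.log p ≤ (kap ρ - c / 2) * Real.log N := by
      intro w h1 h2
      have e : (w : ℝ) * (Real.log p / Real.log N) * Real.log N = w * Real.log p := by
        field_simp
      constructor
      · rw [← e]
        exact mul_le_mul_of_nonneg_right h1 hL.le
      · rw [← e]
        exact mul_le_mul_of_nonneg_right h2 hL.le
    rcases hp1 with h | h
    · obtain ⟨h1, h2, h3, h4, h5⟩ := key _ _ h
      obtain ⟨w, hw1, hw2, hw3, hw4⟩ := hm (Real.log p / Real.log N) (Or.inl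
        ⟨(by rw [le_div_iff₀ hL]; exact h3.le), (by rw [div_le_iff₀ hL]; exact h4)⟩)
      obtain ⟨g1, g2⟩ := hconv w hw3 hw4
      exact ⟨h1, hB p hp, h5, h2, w, hw1, hw2, g1, g2⟩
    · obtain ⟨h1, h2, h3, h4, h5⟩ := key _ _ h
      obtain ⟨w, hw1, hw2, hw3, hw4⟩ := hm (Real.log p / Real.log N) (Or.inr
        ⟨(by rw [le_div_iff₀ hL]; exact h3.le), (by rw [div_le_iff₀ hL]; exact h4)⟩)
      obtain ⟨g1, g2⟩ := hconv w hw3 hw4
      refine ⟨h1, hB p hp, lt_of_le_of_lt (Real.rpow_le_rpow_of_exponent_le hN1.le ?_) h5, h2,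
        w, hw1, hw2, g1, g2⟩
      linarith

end Pool.CSE
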