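import Mathlib
import Pool.Agent.Lib.MP_4b09b1_nt.LS

/-!
# CSE (composite-free sumsets expand), MP_4b09b1_nt: definitions

Paper: /team-store/MP_4b09b1_nt_expansion_paper46.md (helper46). `L = log N`; a prime `p` with
`N^a < p ≤ N^b` is in `prI N a b`; `wt p = log p / p`. The residue classes occupied by a set are
`res X p`, the number of congruent pairs is `pairs T p` (both from `MP_4b09b1_nt/Defs.lean`).
-/

set_option autoImplicit false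

open Finset

namespace Pool.CSE

open Pool.Agent.Lib.MP_4b09b1_nt (res pairs)

/-- the number of solutions of `l x + m y = t`, `x ∈ X`, `y ∈ Y`, modulo `p` -/
noncomputable def G (p : ℕ) (l m : ℤ) (X Y : Finset (ZMod p)) (t : ZMod p) : ℕ :=
  open Classical in
  ((X ×ˢ Y).filter (fun z : ZMod p × ZMod p => (l : ZMod p) * z.1 + (m : ZMod p) * z.2 = t)).card

/-- the number of representations `t = l x + m y`, `x ∈ X`, `y ∈ Y` -/
def rep (l m : ℤ) (X Y : Finset ℤ) (t : ℤ) : ℕ :=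
  ((X ×ˢ Y).filter (fun z : ℤ × ℤ => l * z.1 + m * z.2 = t)).card

/-- `T` has a bias modulo `p` -/
def Bad (η : ℝ) (T : Finset ℤ) (p : ℕ) : Prop :=
  ∃ ζ : ℂ, ζ ^ p = 1 ∧ ζ ≠ 1 ∧ η * T.card ≤ ‖∑ t ∈ T, ζ ^ t‖

/-- the primes `N^a < p ≤ N^b`, `p ≤ N` -/
noncomputable def prI (N : ℕ) (a b : ℝ) : Finset ℕ :=
  open Classical in
  (range (N + 1)).filter (fun p : ℕ => p.Prime ∧ (N : ℝ) ^ a < p ∧ (p : ℝ) ≤ (N : ℝ) ^ b)

/-- the weight of a prime -/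
noncomputable def wt (p : ℕ) : ℝ := Real.log p / p

/-- the density of the residue classes occupied by `X` -/
noncomputable def dens (X : Finset ℤ) (p : ℕ) : ℝ := (res X p).card / p

/-- the average over `t ∈ T` of `G / p` -/
noncomputable def sv (l m : ℤ) (X Y T : Finset ℤ) (p : ℕ) : ℝ :=
  (∑ t ∈ T, (G p l m (res X p) (res Y p) (t : ZMod p) : ℝ)) / (p * T.card)

/-- `p` times the collision probability of `T` modulo `p` -/
noncomputable def Mv (T : Finset ℤ) (p : ℕ) : ℝ := p * pairs T p / (T.card : ℝ) ^ 2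

/-- the exponent `κ` -/
noncomputable def kap (ρ : ℝ) : ℝ := min (3 / 5) (489 / 500 - ρ)

/-- the covered primes: two ranges of scales in which only few primes can be bad -/
noncomputable def cov (N : ℕ) (ρ ε c : ℝ) : Finset ℕ :=
  open Classical in
  prI N ε (2 * kap ρ - 1 - c) ∪ prI N ((1 - kap ρ) / 2 + c) (kap ρ / 2 - c)

/-- the configuration of the Proposition -/
structure Conf (N : ℕ) (l m : ℤ) (ρ : ℝ) (A B X Y T : Finset ℤ) : Prop where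
  hA : ∀ a ∈ A, 1 ≤ a ∧ a ≤ (N : ℤ)
  hB : ∀ b ∈ B, 1 ≤ b ∧ b ≤ (N : ℤ)
  hX : X = A ∨ X = B
  hY : Y = A ∨ Y = B
  loc : ∀ p : ℕ, p.Prime → (p : ℝ) ≤ (N : ℝ) ^ (489 / 1000 : ℝ) →
    (res A p).card + (res B p).card ≤ p
  cA : (N : ℝ) ^ (489 / 1000 : ℝ) ≤ A.card
  cB : (N : ℝ) ^ (489 / 1000 : ℝ) ≤ B.card
  hT : ∀ t ∈ T, |t| ≤ (|l| + |m|) * (N : ℤ)
  cT : (N : ℝ) ^ (489 / 500 - ρ) ≤ T.card
  rT : ∀ t ∈ T, (N : ℝ) ^ ρ ≤ rep l m X Y t

/-- the local data which a configuration provides -/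
structure Sk (N : ℕ) (l m : ℤ) (ρ ε c η C : ℝ) (A B X Y T : Finset ℤ) : Prop where
  dA : ∀ p ∈ prI N ε (489 / 1000), 0 < dens A p ∧ 0 < dens B p ∧ dens A p + dens B p ≤ 1
  s0 : ∀ p ∈ prI N ε ρ, 0 < sv l m X Y T p ∧ sv l m X Y T p ≤ dens X p ∧
    sv l m X Y T p ≤ dens Y p ∧ 1 ≤ Mv T p
  s1 : ∀ p ∈ prI N ε ρ, ¬ Bad η T p → sv l m X Y T p ≤ dens X p * dens Y p + η
  s2 : ∀ p ∈ prI N ε ρ, sv l m X Y T p ≤ dens X p * dens Y p + √((Mv T p - 1) / 32)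
  S1 : ∑ p ∈ prI N ε ρ, wt p / sv l m X Y T p ≤ Real.log N + C
  SA : ∑ p ∈ prI N ε (489 / 1000), wt p / dens A p ≤ Real.log N + C
  SB : ∑ p ∈ prI N ε (489 / 1000), wt p / dens B p ≤ Real.log N + C
  S3 : ∑ p ∈ prI N ε ρ, wt p * (Mv T p - 1) ≤ (11 / 500 + ρ) * Real.log N + C
  S5 : ∀ R : Finset ℕ, R ⊆ cov N ρ ε c → (∀ p ∈ R, Bad η T p) → ∑ p ∈ R, wt p ≤ 1

end Pool.CSE
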