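import Pool.Agent.Lib.CSE.Defs

/-!
# CSE, module FouA: Fourier analysis modulo a prime (basic facts)

`hat X k = ∑_{x∈X} e(k x)`, `e = ZMod.stdAddChar`.
`parseval`: expand the square and use the orthogonality `∑_k e(k (x - x')) = p` if `x = x'`, else `0`
(`AddChar.sum_mulShift`, `ZMod.isPrimitive_stdAddChar`).
`hat_sq_le`: `hat X (-k)` is the complex conjugate of `hat X k`, `k ≠ -k` for `k ≠ 0`, `p ≠ 2`; so
`2 ‖hat X k‖² ≤ ∑_{k≠0} ‖hat X k‖² = p |X| - |X|² ≤ p²/4`.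
`sum_G`: `G(t) = ∑_{x,y} 1[lx+my=t] = (1/p) ∑_k ∑_{x,y} e(k(lx+my-t))`, so
`∑_{t∈T} G(t) = (1/p) ∑_k hat X (kl) * hat Y (km) * ∑_{t∈T} e(-k t)`.
-/

set_option autoImplicit false

open Finset

namespace Pool.CSE

/-- the Fourier transform of a set modulo `p` -/
noncomputable def hat {p : ℕ} [NeZero p] (X : Finset (ZMod p)) (k : ZMod p) : ℂ :=
  ∑ x ∈ X, ZMod.stdAddChar (k * x)

/-- the Fourier transform of a set of integers modulo `p` -/
noncomputable def hatT (p : ℕ) [NeZero p] (T : Finset ℤ) (k : ZMod p) : ℂ :=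
  ∑ t ∈ T, ZMod.stdAddChar (k * (t : ZMod p))

/-- orthogonality -/
theorem fouA_orth (p : ℕ) [NeZero p] (b : ZMod p) :
    ∑ k : ZMod p, (ZMod.stdAddChar (k * b) : ℂ) = if b = 0 then (p : ℂ) else 0 := by
  rw [AddChar.sum_mulShift b (ZMod.isPrimitive_stdAddChar p)]
  simp [ZMod.card]

/-- the squared norm of an exponential sum as a double sum -/
theorem fouA_sq {ι : Type*} (p : ℕ) [NeZero p] (S : Finset ι) (f : ι → ZMod p) (k : ZMod p) :
    ((‖∑ x ∈ S, (ZMod.stdAddChar (k * f x) : ℂ)‖ ^ 2 : ℝ) : ℂ) =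
      ∑ z ∈ S ×ˢ S, (ZMod.stdAddChar (k * (f z.1 - f z.2)) : ℂ) := by
  have h1 : ((‖∑ x ∈ S, (ZMod.stdAddChar (k * f x) : ℂ)‖ ^ 2 : ℝ) : ℂ) =
      (∑ x ∈ S, (ZMod.stdAddChar (k * f x) : ℂ)) *
        (starRingEnd ℂ) (∑ x ∈ S, (ZMod.stdAddChar (k * f x) : ℂ)) := by
    rw [Complex.mul_conj, Complex.normSq_eq_norm_sq]
  rw [h1, map_sum, Finset.sum_mul_sum, Finset.sum_product]
  refine Finset.sum_congr rfl fun x _ => Finset.sum_congr rfl fun y _ => ?_
  rw [← AddChar.map_neg_eq_conj, ← AddChar.map_add_eq_mul]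
  congr 1
  ring

/-- the mean square of an exponential sum -/
theorem fouA_mean {ι : Type*} (p : ℕ) [NeZero p] (S : Finset ι) (f : ι → ZMod p) :
    ∑ k : ZMod p, ‖∑ x ∈ S, (ZMod.stdAddChar (k * f x) : ℂ)‖ ^ 2 =
      p * ((S ×ˢ S).filter (fun z : ι × ι => f z.1 = f z.2)).card := by
  have h : ((∑ k : ZMod p, ‖∑ x ∈ S, (ZMod.stdAddChar (k * f x) : ℂ)‖ ^ 2 : ℝ) : ℂ) =
      ((p * ((S ×ˢ S).filter (fun z : ι × ι => f z.1 = f z.2)).card : ℝ) : ℂ) := by
    rw [Complex.ofReal_sum]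
    rw [Finset.sum_congr rfl fun k _ => fouA_sq p S f k]
    rw [Finset.sum_comm]
    rw [Finset.sum_congr rfl fun z _ => fouA_orth p (f z.1 - f z.2)]
    rw [← Finset.sum_filter]
    simp only [sub_eq_zero, Finset.sum_const, nsmul_eq_mul]
    push_cast
    ring
  exact_mod_cast h

theorem parseval (p : ℕ) [Fact p.Prime] (X : Finset (ZMod p)) :
    ∑ k : ZMod p, ‖hat X k‖ ^ 2 = p * X.card := by
  have h := fouA_mean p X (fun x => x)
  unfold hat
  rw [h]
  congr 2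
  refine (Finset.card_bij (fun z _ => z.1) ?_ ?_ ?_)
  · intro z hz
    exact (Finset.mem_product.1 (Finset.mem_filter.1 hz).1).1
  · intro z hz w hw hzw
    have h1 := (Finset.mem_filter.1 hz).2
    have h2 := (Finset.mem_filter.1 hw).2
    refine Prod.ext hzw ?_
    rw [← h1, ← h2]
    exact hzw
  · intro x hx
    exact ⟨(x, x), Finset.mem_filter.2 ⟨Finset.mk_mem_product hx hx, rfl⟩, rfl⟩

theorem fouA_hat_zero (p : ℕ) [NeZero p] (X : Finset (ZMod p)) : hat X 0 = X.card := by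
  simp [hat]

theorem parseval_ne (p : ℕ) [Fact p.Prime] (X : Finset (ZMod p)) :
    ∑ k ∈ univ.erase (0 : ZMod p), ‖hat X k‖ ^ 2 = p * X.card - (X.card : ℝ) ^ 2 := by
  have h := Finset.add_sum_erase univ (fun k : ZMod p => ‖hat X k‖ ^ 2) (Finset.mem_univ 0)
  rw [parseval] at h
  simp only [fouA_hat_zero, Complex.norm_natCast] at h
  linarith

theorem fouA_hat_neg (p : ℕ) [NeZero p] (X : Finset (ZMod p)) (k : ZMod p) :
    ‖hat X (-k)‖ = ‖hat X k‖ := by
  have h : hat X (-k) = (starRingEnd ℂ) (hat X k) := by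
    unfold hat
    rw [map_sum]
    refine Finset.sum_congr rfl fun x _ => ?_
    rw [← AddChar.map_neg_eq_conj, neg_mul]
  rw [h, RCLike.norm_conj]

theorem hat_sq_le (p : ℕ) [Fact p.Prime] (hp : p ≠ 2) (X : Finset (ZMod p)) (k : ZMod p)
    (hk : k ≠ 0) : ‖hat X k‖ ^ 2 ≤ (p : ℝ) ^ 2 / 8 := by
  have hne : k ≠ -k := by
    intro h
    have h2 : (2 : ZMod p) * k = 0 := by
      linear_combination h
    rcases mul_eq_zero.1 h2 with h3 | h3
    · have h4 : ((2 : ℕ) : ZMod p) = 0 := by exact_mod_cast h3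
      rw [ZMod.natCast_eq_zero_iff] at h4
      have := (Nat.prime_dvd_prime_iff_eq (Fact.out : p.Prime) Nat.prime_two).1 h4
      exact hp this
    · exact hk h3
  have hsub : ({k, -k} : Finset (ZMod p)) ⊆ univ.erase (0 : ZMod p) := by
    intro x hx
    rw [Finset.mem_insert, Finset.mem_singleton] at hx
    rw [Finset.mem_erase]
    rcases hx with rfl | rfl
    · exact ⟨hk, Finset.mem_univ _⟩
    · exact ⟨neg_ne_zero.2 hk, Finset.mem_univ _⟩
  have h1 : ∑ x ∈ ({k, -k} : Finset (ZMod p)), ‖hat X x‖ ^ 2 ≤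
      ∑ x ∈ univ.erase (0 : ZMod p), ‖hat X x‖ ^ 2 :=
    Finset.sum_le_sum_of_subset_of_nonneg hsub fun x _ _ => by positivity
  rw [Finset.sum_pair hne, parseval_ne, fouA_hat_neg] at h1
  nlinarith [sq_nonneg ((p : ℝ) / 2 - X.card)]

theorem hatT_sq (p : ℕ) [Fact p.Prime] (T : Finset ℤ) :
    ∑ k : ZMod p, ‖hatT p T k‖ ^ 2 = p * Pool.Agent.Lib.MP_4b09b1_nt.pairs T p := by
  have h := fouA_mean p T (fun t : ℤ => (t : ZMod p))
  unfold hatT
  rw [h]
  congr 2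
  unfold Pool.Agent.Lib.MP_4b09b1_nt.pairs
  congr 1
  ext z
  simp only [Finset.mem_filter]
  refine and_congr_right fun _ => ?_
  rw [eq_comm, ZMod.intCast_eq_intCast_iff_dvd_sub]

theorem sum_G (p : ℕ) [Fact p.Prime] (l m : ℤ) (X Y : Finset (ZMod p)) (T : Finset ℤ) :
    ((∑ t ∈ T, (G p l m X Y (t : ZMod p) : ℝ) : ℝ) : ℂ) =
      (1 / p) * ∑ k : ZMod p, hat X (k * l) * hat Y (k * m) * hatT p T (-k) := by
  have hp0 : (p : ℂ) ≠ 0 := by
    exact_mod_cast (Fact.out : p.Prime).ne_zero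
  have h1 : ∀ k : ZMod p, hat X (k * l) * hat Y (k * m) * hatT p T (-k) =
      ∑ t ∈ T, ∑ z ∈ X ×ˢ Y, (ZMod.stdAddChar
        (k * ((l : ZMod p) * z.1 + (m : ZMod p) * z.2 - (t : ZMod p))) : ℂ) := by
    intro k
    unfold hat hatT
    rw [Finset.sum_mul_sum, ← Finset.sum_product', mul_comm, Finset.sum_mul_sum]
    refine Finset.sum_congr rfl fun t _ => Finset.sum_congr rfl fun z _ => ?_
    rw [← AddChar.map_add_eq_mul, ← AddChar.map_add_eq_mul]
    congr 1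
    ring
  rw [Finset.sum_congr rfl fun k _ => h1 k, Finset.sum_comm, Finset.mul_sum, Complex.ofReal_sum]
  refine Finset.sum_congr rfl fun t _ => ?_
  rw [Finset.sum_comm]
  rw [Finset.sum_congr rfl fun z _ => fouA_orth p _]
  rw [← Finset.sum_filter]
  simp only [Finset.sum_const, nsmul_eq_mul]
  unfold G
  rw [Complex.ofReal_natCast]
  have h2 : ((X ×ˢ Y).filter (fun z : ZMod p × ZMod p =>
      (l : ZMod p) * z.1 + (m : ZMod p) * z.2 - (t : ZMod p) = 0)).card =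
      ((X ×ˢ Y).filter (fun z : ZMod p × ZMod p =>
        (l : ZMod p) * z.1 + (m : ZMod p) * z.2 = (t : ZMod p))).card := by
    congr 1
    ext z
    simp only [Finset.mem_filter, sub_eq_zero]
  rw [h2]
  field_simp

end Pool.CSE
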