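import Pool.Agent.Lib.CSE.FouA

/-!
# CSE, module FouB: the three bounds for the average of `G`

`G_le_X`: `(x,y) ↦ x` is injective on the solutions if `m ≠ 0` in `ZMod p`. `G_le_Y` likewise.

`G_nonbad`: in `sum_G` the term `k = 0` is `|X||Y||T|/p`. For `k ≠ 0` put `ζ = e(-k)`:
`ζ^p = 1`, `ζ ≠ 1` and `hatT p T (-k) = ∑_{t∈T} ζ^t` (zpow), so `‖hatT p T (-k)‖ < η |T|` as `p` is
not bad. The rest is at most `η|T| (1/p) ∑_k ‖hat X (kl)‖ ‖hat Y (km)‖ ≤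
η |T| (1/p) (∑_k ‖hat X (kl)‖²)^{1/2} (∑_k ‖hat Y (km)‖²)^{1/2} = η|T| √(|X||Y|)` (Cauchy-Schwarz,
`parseval`, the bijections `k ↦ kl`, `k ↦ km`).

`G_l2`: again the term `k = 0` is `|X||Y||T|/p`; the rest is at most
`(1/p) ∑_{k≠0} ‖hat X (kl)‖ ‖hat Y (km)‖ ‖hatT p T (-k)‖ ≤
(1/p) (∑_{k≠0} ‖hat X (kl)‖² ‖hat Y (km)‖²)^{1/2} (∑_{k≠0} ‖hatT p T k‖²)^{1/2}`.
First factor: `≤ (p²/8 * (p|Y| - |Y|²))^{1/2} ≤ (p^4/32)^{1/2}` (`hat_sq_le`, `parseval_ne`,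
`p|Y| - |Y|² ≤ p²/4`). Second factor: `∑_{k≠0} ‖hatT‖² = p * pairs T p - |T|²` (`hatT_sq`).
So the rest is `≤ (1/p) (p²/√32) |T| √(p pairs/|T|² - 1) = |T| p √((p pairs/|T|² - 1)/32)`.
-/

set_option autoImplicit false

open Finset

namespace Pool.CSE

open Pool.Agent.Lib.MP_4b09b1_nt (res pairs)

theorem fouB_card_le (p : ℕ) [Fact p.Prime] (l m : ℤ) (X Y : Finset (ZMod p)) (t : ZMod p)
    (A : Finset (ZMod p)) (f : ZMod p × ZMod p → ZMod p)
    (hf : ∀ z ∈ X ×ˢ Y, f z ∈ A)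
    (hi : ∀ z w : ZMod p × ZMod p, (l : ZMod p) * z.1 + (m : ZMod p) * z.2 = t →
      (l : ZMod p) * w.1 + (m : ZMod p) * w.2 = t → f z = f w → z = w) :
    G p l m X Y t ≤ A.card := by
  unfold G
  refine Finset.card_le_card_of_injOn f ?_ ?_
  · intro z hz
    exact hf z (Finset.mem_filter.1 (Finset.mem_coe.1 hz)).1
  · intro z hz w hw hzw
    exact hi z w (Finset.mem_filter.1 (Finset.mem_coe.1 hz)).2
      (Finset.mem_filter.1 (Finset.mem_coe.1 hw)).2 hzw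

theorem G_le_X (p : ℕ) [Fact p.Prime] (l m : ℤ) (hm : (m : ZMod p) ≠ 0)
    (X Y : Finset (ZMod p)) (t : ZMod p) : G p l m X Y t ≤ X.card := by
  refine fouB_card_le p l m X Y t X (fun z => z.1) (fun z hz => (Finset.mem_product.1 hz).1) ?_
  intro z w hz hw h
  have h' : z.1 = w.1 := h
  refine Prod.ext h' ?_
  apply mul_left_cancel₀ hm
  have h2 : (l : ZMod p) * z.1 + (m : ZMod p) * z.2 = (l : ZMod p) * w.1 + (m : ZMod p) * w.2 :=
    hz.trans hw.symm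
  rw [h'] at h2
  exact add_left_cancel h2

theorem G_le_Y (p : ℕ) [Fact p.Prime] (l m : ℤ) (hl : (l : ZMod p) ≠ 0)
    (X Y : Finset (ZMod p)) (t : ZMod p) : G p l m X Y t ≤ Y.card := by
  refine fouB_card_le p l m X Y t Y (fun z => z.2) (fun z hz => (Finset.mem_product.1 hz).2) ?_
  intro z w hz hw h
  have h' : z.2 = w.2 := h
  refine Prod.ext ?_ h'
  apply mul_left_cancel₀ hl
  have h2 : (l : ZMod p) * z.1 + (m : ZMod p) * z.2 = (l : ZMod p) * w.1 + (m : ZMod p) * w.2 :=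
    hz.trans hw.symm
  rw [h'] at h2
  exact add_right_cancel h2

theorem fouB_hatT_zero (p : ℕ) [NeZero p] (T : Finset ℤ) : hatT p T 0 = T.card := by
  simp [hatT]

theorem fouB_shift (p : ℕ) [Fact p.Prime] (l : ℤ) (hl : (l : ZMod p) ≠ 0)
    (f : ZMod p → ℝ) : ∑ k : ZMod p, f (k * l) = ∑ k : ZMod p, f k :=
  Fintype.sum_equiv (Equiv.mulRight₀ (l : ZMod p) hl) _ _ (fun _ => rfl)

theorem fouB_shift_ne (p : ℕ) [Fact p.Prime] (l : ℤ) (hl : (l : ZMod p) ≠ 0)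
    (f : ZMod p → ℝ) : ∑ k ∈ univ.erase (0 : ZMod p), f (k * l) =
      ∑ k ∈ univ.erase (0 : ZMod p), f k := by
  have h1 := Finset.add_sum_erase univ (fun k : ZMod p => f (k * l)) (Finset.mem_univ 0)
  have h2 := Finset.add_sum_erase univ f (Finset.mem_univ (0 : ZMod p))
  have h3 := fouB_shift p l hl f
  simp only [zero_mul] at h1
  linarith

theorem fouB_main (p : ℕ) [Fact p.Prime] (l m : ℤ) (X Y : Finset (ZMod p)) (T : Finset ℤ) :
    ∑ t ∈ T, (G p l m X Y (t : ZMod p) : ℝ) ≤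
      (1 / p) * ((X.card * Y.card * T.card : ℝ) + ∑ k ∈ univ.erase (0 : ZMod p),
        ‖hat X (k * l)‖ * ‖hat Y (k * m)‖ * ‖hatT p T (-k)‖) := by
  have h := sum_G p l m X Y T
  have h0 := Finset.add_sum_erase univ
    (fun k : ZMod p => hat X (k * l) * hat Y (k * m) * hatT p T (-k)) (Finset.mem_univ 0)
  rw [← h0] at h
  have hS : (0 : ℝ) ≤ ∑ t ∈ T, (G p l m X Y (t : ZMod p) : ℝ) :=
    Finset.sum_nonneg fun _ _ => Nat.cast_nonneg _
  have h1 : ‖((∑ t ∈ T, (G p l m X Y (t : ZMod p) : ℝ) : ℝ) : ℂ)‖ =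
      ∑ t ∈ T, (G p l m X Y (t : ZMod p) : ℝ) := by
    rw [Complex.norm_real, Real.norm_of_nonneg hS]
  rw [← h1, h, norm_mul]
  have h2 : ‖(1 / p : ℂ)‖ = 1 / p := by
    rw [norm_div, norm_one, Complex.norm_natCast]
  rw [h2]
  refine mul_le_mul_of_nonneg_left ?_ (by positivity)
  refine (norm_add_le _ _).trans ?_
  refine add_le_add ?_ ?_
  · simp only [zero_mul, neg_zero, fouA_hat_zero, fouB_hatT_zero, norm_mul,
      Complex.norm_natCast]
    exact le_refl _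
  · refine (norm_sum_le _ _).trans ?_
    refine Finset.sum_le_sum fun k _ => ?_
    rw [norm_mul, norm_mul]

theorem fouB_nonbad (p : ℕ) [Fact p.Prime] (T : Finset ℤ) (η : ℝ) (hbad : ¬ Bad η T p)
    (k : ZMod p) (hk : k ≠ 0) : ‖hatT p T (-k)‖ ≤ η * T.card := by
  by_contra hcon
  push Not at hcon
  apply hbad
  refine ⟨ZMod.stdAddChar (-k), ?_, ?_, ?_⟩
  · rw [← AddChar.map_nsmul_eq_pow]
    simp
  · intro h
    have h0 : (ZMod.stdAddChar (-k) : ℂ) = ZMod.stdAddChar (0 : ZMod p) := by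
      rw [h, AddChar.map_zero_eq_one]
    have := ZMod.injective_stdAddChar h0
    exact hk (neg_eq_zero.1 this)
  · refine hcon.le.trans (le_of_eq ?_)
    unfold hatT
    congr 1
    refine Finset.sum_congr rfl fun t _ => ?_
    rw [← AddChar.map_zsmul_eq_zpow]
    congr 1
    rw [zsmul_eq_mul, mul_comm]

theorem fouB_cs {ι : Type*} (s : Finset ι) (f g : ι → ℝ) :
    ∑ i ∈ s, f i * g i ≤ √(∑ i ∈ s, f i ^ 2) * √(∑ i ∈ s, g i ^ 2) := by
  rw [← Real.sqrt_mul (Finset.sum_nonneg fun _ _ => sq_nonneg _)]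
  apply Real.le_sqrt_of_sq_le
  exact Finset.sum_mul_sq_le_sq_mul_sq s f g

theorem G_nonbad (p : ℕ) [Fact p.Prime] (l m : ℤ) (hl : (l : ZMod p) ≠ 0)
    (hm : (m : ZMod p) ≠ 0) (X Y : Finset (ZMod p)) (T : Finset ℤ) (η : ℝ) (hη : 0 ≤ η)
    (hbad : ¬ Bad η T p) :
    ∑ t ∈ T, (G p l m X Y (t : ZMod p) : ℝ) ≤
      T.card * (X.card * Y.card / p + η * √(X.card * Y.card)) := by
  have hp : (0 : ℝ) < p := by
    exact_mod_cast (Fact.out : p.Prime).pos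
  refine (fouB_main p l m X Y T).trans ?_
  have h1 : ∑ k ∈ univ.erase (0 : ZMod p),
        ‖hat X (k * l)‖ * ‖hat Y (k * m)‖ * ‖hatT p T (-k)‖ ≤
      (η * T.card) * ∑ k : ZMod p, ‖hat X (k * l)‖ * ‖hat Y (k * m)‖ := by
    rw [Finset.mul_sum]
    refine (Finset.sum_le_sum (g := fun k : ZMod p =>
      (η * T.card) * (‖hat X (k * l)‖ * ‖hat Y (k * m)‖)) fun k hk => ?_).trans ?_
    · rw [mul_comm]
      exact mul_le_mul_of_nonneg_right (fouB_nonbad p T η hbad k (Finset.ne_of_mem_erase hk))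
        (by positivity)
    · exact Finset.sum_le_sum_of_subset_of_nonneg (Finset.subset_univ _)
        (fun _ _ _ => by positivity)
  have h2 : ∑ k : ZMod p, ‖hat X (k * l)‖ * ‖hat Y (k * m)‖ ≤ p * √(X.card * Y.card) := by
    refine (fouB_cs univ (fun k : ZMod p => ‖hat X (k * l)‖)
      (fun k : ZMod p => ‖hat Y (k * m)‖)).trans ?_
    rw [fouB_shift p l hl (fun k => ‖hat X k‖ ^ 2), fouB_shift p m hm (fun k => ‖hat Y k‖ ^ 2),
      parseval, parseval, ← Real.sqrt_mul (by positivity)]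
    apply le_of_eq
    rw [show (p : ℝ) * X.card * (p * Y.card) = (p : ℝ) ^ 2 * (X.card * Y.card) by ring,
      Real.sqrt_mul (by positivity), Real.sqrt_sq hp.le]
  have h3 := h1.trans (mul_le_mul_of_nonneg_left h2 (by positivity : (0 : ℝ) ≤ η * T.card))
  calc (1 / p : ℝ) * ((X.card * Y.card * T.card : ℝ) + ∑ k ∈ univ.erase (0 : ZMod p),
        ‖hat X (k * l)‖ * ‖hat Y (k * m)‖ * ‖hatT p T (-k)‖)
      ≤ (1 / p) * ((X.card * Y.card * T.card : ℝ) +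
        (η * T.card) * (p * √(X.card * Y.card))) := by
        refine mul_le_mul_of_nonneg_left ?_ (by positivity)
        linarith
    _ = T.card * (X.card * Y.card / p + η * √(X.card * Y.card)) := by
        field_simp

theorem fouB_T_ne (p : ℕ) [Fact p.Prime] (T : Finset ℤ) :
    ∑ k ∈ univ.erase (0 : ZMod p), ‖hatT p T (-k)‖ ^ 2 =
      p * Pool.Agent.Lib.MP_4b09b1_nt.pairs T p - (T.card : ℝ) ^ 2 := by
  have h := Finset.add_sum_erase univ (fun k : ZMod p => ‖hatT p T (-k)‖ ^ 2)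
    (Finset.mem_univ 0)
  have h2 : ∑ k : ZMod p, ‖hatT p T (-k)‖ ^ 2 = ∑ k : ZMod p, ‖hatT p T k‖ ^ 2 :=
    Fintype.sum_equiv (Equiv.neg (ZMod p)) _ _ (fun _ => rfl)
  rw [h2, hatT_sq] at h
  simp only [neg_zero, fouB_hatT_zero, Complex.norm_natCast] at h
  linarith

theorem G_l2 (p : ℕ) [Fact p.Prime] (hp : p ≠ 2) (l m : ℤ) (hl : (l : ZMod p) ≠ 0)
    (hm : (m : ZMod p) ≠ 0) (X Y : Finset (ZMod p)) (T : Finset ℤ) (hT : T.Nonempty) :
    ∑ t ∈ T, (G p l m X Y (t : ZMod p) : ℝ) ≤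
      T.card * (X.card * Y.card / p + p * √((Mv T p - 1) / 32)) := by
  have hp0 : (0 : ℝ) < p := by
    exact_mod_cast (Fact.out : p.Prime).pos
  have hT0 : (0 : ℝ) < T.card := by
    exact_mod_cast Finset.card_pos.2 hT
  refine (fouB_main p l m X Y T).trans ?_
  set W : ℝ := p * Pool.Agent.Lib.MP_4b09b1_nt.pairs T p - (T.card : ℝ) ^ 2 with hW
  have hTn : ∑ k ∈ univ.erase (0 : ZMod p), ‖hatT p T (-k)‖ ^ 2 = W := fouB_T_ne p T
  have hW0 : 0 ≤ W := by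
    rw [← hTn]
    exact Finset.sum_nonneg fun _ _ => sq_nonneg _
  have h1 : ∑ k ∈ univ.erase (0 : ZMod p),
        ‖hat X (k * l)‖ * ‖hat Y (k * m)‖ * ‖hatT p T (-k)‖ ≤
      √((p : ℝ) ^ 4 / 32) * √W := by
    refine (fouB_cs (univ.erase (0 : ZMod p)) (fun k : ZMod p =>
      ‖hat X (k * l)‖ * ‖hat Y (k * m)‖) (fun k : ZMod p => ‖hatT p T (-k)‖)).trans ?_
    rw [hTn]
    refine mul_le_mul_of_nonneg_right (Real.sqrt_le_sqrt ?_) (Real.sqrt_nonneg _)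
    have h2 : ∑ k ∈ univ.erase (0 : ZMod p), (‖hat X (k * l)‖ * ‖hat Y (k * m)‖) ^ 2 ≤
        ((p : ℝ) ^ 2 / 8) * ∑ k ∈ univ.erase (0 : ZMod p), ‖hat Y (k * m)‖ ^ 2 := by
      rw [Finset.mul_sum]
      refine Finset.sum_le_sum fun k hk => ?_
      rw [mul_pow]
      exact mul_le_mul_of_nonneg_right (hat_sq_le p hp X _
        (mul_ne_zero (Finset.ne_of_mem_erase hk) hl)) (sq_nonneg _)
    rw [fouB_shift_ne p m hm (fun k => ‖hat Y k‖ ^ 2), parseval_ne] at h2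
    refine h2.trans ?_
    have h3 : (p : ℝ) * Y.card - (Y.card : ℝ) ^ 2 ≤ (p : ℝ) ^ 2 / 4 := by
      nlinarith [sq_nonneg ((p : ℝ) / 2 - Y.card)]
    calc ((p : ℝ) ^ 2 / 8) * ((p : ℝ) * Y.card - (Y.card : ℝ) ^ 2)
        ≤ ((p : ℝ) ^ 2 / 8) * ((p : ℝ) ^ 2 / 4) :=
          mul_le_mul_of_nonneg_left h3 (by positivity)
      _ = (p : ℝ) ^ 4 / 32 := by ring
  have h4 : √((p : ℝ) ^ 4 / 32) * √W = (p : ℝ) ^ 2 * √(W / 32) := by
    rw [← Real.sqrt_mul (by positivity), show (p : ℝ) ^ 4 / 32 * W =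
      ((p : ℝ) ^ 2) ^ 2 * (W / 32) by ring, Real.sqrt_mul (by positivity),
      Real.sqrt_sq (by positivity)]
  have h5 : (T.card : ℝ) * √((Mv T p - 1) / 32) = √(W / 32) := by
    have h6 : W / 32 = (T.card : ℝ) ^ 2 * ((Mv T p - 1) / 32) := by
      rw [hW]
      unfold Mv
      field_simp
    rw [h6, Real.sqrt_mul (by positivity), Real.sqrt_sq hT0.le]
  rw [h4] at h1
  calc (1 / p : ℝ) * ((X.card * Y.card * T.card : ℝ) + ∑ k ∈ univ.erase (0 : ZMod p),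
        ‖hat X (k * l)‖ * ‖hat Y (k * m)‖ * ‖hatT p T (-k)‖)
      ≤ (1 / p) * ((X.card * Y.card * T.card : ℝ) + (p : ℝ) ^ 2 * √(W / 32)) := by
        refine mul_le_mul_of_nonneg_left ?_ (by positivity)
        linarith
    _ = T.card * (X.card * Y.card / p) + p * √(W / 32) := by
        field_simp
    _ = T.card * (X.card * Y.card / p + p * √((Mv T p - 1) / 32)) := by
        rw [← h5]
        ring

/-- `1 ≤ Mv` (Cauchy-Schwarz over the residue classes, or `hatT_sq` and its term `k = 0`) -/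
theorem one_le_Mv (p : ℕ) [Fact p.Prime] (T : Finset ℤ) (hT : T.Nonempty) : 1 ≤ Mv T p := by
  have hT0 : (0 : ℝ) < T.card := by
    exact_mod_cast Finset.card_pos.2 hT
  have h := fouB_T_ne p T
  have h0 : (0 : ℝ) ≤ ∑ k ∈ univ.erase (0 : ZMod p), ‖hatT p T (-k)‖ ^ 2 :=
    Finset.sum_nonneg fun _ _ => sq_nonneg _
  unfold Mv
  rw [le_div_iff₀ (by positivity)]
  linarith

end Pool.CSE
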