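import Pool.Agent.Lib.CSE.Defs

/-!
# CSE, module Lar: three forms of the larger sieve

All follow from `larger_sieve (X P hP D hD hX) : ∑_{p∈P} log p * pairs X p ≤
|X| ∑_{p∈P} log p + |X|² log D`.
`res_sieve`: `pairs X p = ∑_{classes} n_c² ≥ |X|² / |res X p|` (Cauchy-Schwarz); divide by `|X|²`.
`rep_sieve`: for `t ∈ T` let `X_t` be the set of the `x ∈ X` for which some `y ∈ Y` has
`l x + m y = t`; `|X_t| = rep l m X Y t ≥ R` (`m ≠ 0`: `y` is determined by `x`) and
`|res X_t p| ≤ G p l m (res X p) (res Y p) t` (choose for every class of `res X_t p` an `x ∈ X_t` and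
its `y`; the pair of classes is a solution with this first coordinate). So
`∑_{p∈P} log p / G_p(t) ≤ log D + (∑_{p∈P} log p)/R` (`res_sieve`), for every `t ∈ T`; sum over `t ∈ T`;
for each `p`: `∑_{t∈T} 1/G_p(t) ≥ |T|² / ∑_{t∈T} G_p(t)` (Cauchy-Schwarz, all `G_p(t) ≥ 1`;
`Finset.sum_div...`, `inner_mul_le_norm_mul_norm` or `div_add_div_same, sq_sum_div_le_sum_sq_div`
(Sedrakyan's lemma `Finset.sq_sum_div_le_sum_sq_div`)). Divide by `|T|`.
`col_sieve`: divide `larger_sieve` for `T` by `|T|²`.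
`G_pos`: `t = l x + m y` gives a solution modulo `p`.
-/

set_option autoImplicit false

open Finset

namespace Pool.CSE

open Pool.Agent.Lib.MP_4b09b1_nt (res pairs larger_sieve)

private lemma lar_mem_res {X : Finset ℤ} {p : ℕ} {c : ZMod p} :
    c ∈ res X p ↔ ∃ x ∈ X, (x : ZMod p) = c := by
  classical
  unfold res
  simp [Finset.bind_def]

private lemma lar_res_nonempty {X : Finset ℤ} (hX : X.Nonempty) (p : ℕ) :
    (res X p).Nonempty := by
  obtain ⟨x, hx⟩ := hX
  exact ⟨(x : ZMod p), lar_mem_res.mpr ⟨x, hx, rfl⟩⟩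

/-- Cauchy-Schwarz: `|X|² ≤ |res X p| * pairs X p` -/
private lemma lar_card_sq_le (X : Finset ℤ) (p : ℕ) :
    (X.card : ℝ) ^ 2 ≤ (res X p).card * (pairs X p : ℝ) := by
  classical
  have h1 : (X.card : ℝ) = ∑ c ∈ res X p, ((X.filter (fun x : ℤ => (x : ZMod p) = c)).card : ℝ) := by
    have h := Finset.card_eq_sum_card_fiberwise (s := X) (t := res X p)
      (f := fun x : ℤ => (x : ZMod p)) (by
        intro x hx
        exact lar_mem_res.mpr ⟨x, hx, rfl⟩)
    exact_mod_cast h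
  have h2 : (pairs X p : ℝ)
      = ∑ c ∈ res X p, ((X.filter (fun x : ℤ => (x : ZMod p) = c)).card : ℝ) ^ 2 := by
    have h := Finset.card_eq_sum_card_fiberwise
      (s := (X ×ˢ X).filter (fun t => (p : ℤ) ∣ t.1 - t.2)) (t := res X p)
      (f := fun t : ℤ × ℤ => (t.1 : ZMod p)) (by
        intro t ht
        simp only [Finset.coe_filter, Finset.mem_product, Set.mem_ofPred_eq] at ht
        exact lar_mem_res.mpr ⟨t.1, ht.1.1, rfl⟩)
    have h3 : (pairs X p : ℕ) = ((X ×ˢ X).filter (fun t => (p : ℤ) ∣ t.1 - t.2)).card := by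
      unfold pairs
      congr
    rw [h3, h]
    push_cast
    apply Finset.sum_congr rfl
    intro c _
    rw [sq]
    have h4 : (((X ×ˢ X).filter (fun t : ℤ × ℤ => (p : ℤ) ∣ t.1 - t.2)).filter
        (fun t : ℤ × ℤ => (t.1 : ZMod p) = c))
        = (X.filter (fun x : ℤ => (x : ZMod p) = c)) ×ˢ (X.filter (fun x : ℤ => (x : ZMod p) = c)) := by
      ext t
      simp only [Finset.mem_filter, Finset.mem_product]
      constructor
      · rintro ⟨⟨⟨h5, h6⟩, h7⟩, h8⟩
        refine ⟨⟨h5, h8⟩, h6, ?_⟩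
        rw [← h8]
        have h9 := (ZMod.intCast_zmod_eq_zero_iff_dvd (t.1 - t.2) p)
        have h10 := (ZMod.intCast_zmod_eq_zero_iff_dvd (t.1 - t.2) p).mpr h7
        push_cast at h10
        exact (sub_eq_zero.mp h10).symm
      · rintro ⟨⟨h5, h8⟩, h6, h9⟩
        refine ⟨⟨⟨h5, h6⟩, ?_⟩, h8⟩
        rw [← ZMod.intCast_zmod_eq_zero_iff_dvd]
        push_cast
        rw [h8, h9, sub_self]
    rw [h4, Finset.card_product]
    push_cast
    rfl
  rw [h1, h2]
  exact sq_sum_le_card_mul_sum_sq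

theorem res_sieve (X : Finset ℤ) (hX : X.Nonempty) (P : Finset ℕ) (hP : ∀ p ∈ P, p.Prime)
    (D : ℝ) (hD : 1 ≤ D) (hX' : ∀ x ∈ X, ∀ x' ∈ X, |(x : ℝ) - x'| ≤ D) :
    ∑ p ∈ P, Real.log p / (res X p).card ≤ Real.log D + (∑ p ∈ P, Real.log p) / X.card := by
  classical
  have h := larger_sieve X P hP D hD hX'
  have hc : (0 : ℝ) < X.card := by exact_mod_cast hX.card_pos
  have hlog : ∀ p ∈ P, 0 ≤ Real.log (p : ℝ) := fun p hp =>
    Real.log_nonneg (by exact_mod_cast (hP p hp).one_lt.le)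
  have h1 : (X.card : ℝ) ^ 2 * ∑ p ∈ P, Real.log p / (res X p).card
      ≤ ∑ p ∈ P, Real.log p * pairs X p := by
    rw [Finset.mul_sum]
    apply Finset.sum_le_sum
    intro p hp
    have h2 : (0 : ℝ) < (res X p).card := by
      have : (res X p).Nonempty := lar_res_nonempty hX p
      exact_mod_cast this.card_pos
    have h3 := lar_card_sq_le X p
    rw [← mul_div_assoc, div_le_iff₀ h2]
    calc (X.card : ℝ) ^ 2 * Real.log p ≤ ((res X p).card * (pairs X p : ℝ)) * Real.log p :=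
          mul_le_mul_of_nonneg_right h3 (hlog p hp)
      _ = Real.log p * pairs X p * (res X p).card := by ring
  have h2 : (X.card : ℝ) ^ 2 * ∑ p ∈ P, Real.log p / (res X p).card
      ≤ (X.card : ℝ) ^ 2 * (Real.log D + (∑ p ∈ P, Real.log p) / X.card) := by
    refine (h1.trans h).trans (le_of_eq ?_)
    field_simp
    ring
  exact le_of_mul_le_mul_left h2 (by positivity)

theorem G_pos (p : ℕ) (l m : ℤ) (X Y : Finset ℤ) (t : ℤ) (h : 0 < rep l m X Y t) :
    0 < G p l m (res X p) (res Y p) (t : ZMod p) := by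
  classical
  unfold rep at h
  obtain ⟨z, hz⟩ := Finset.card_pos.mp h
  simp only [Finset.mem_filter, Finset.mem_product] at hz
  obtain ⟨⟨h1, h2⟩, h3⟩ := hz
  unfold G
  apply Finset.card_pos.mpr
  refine ⟨((z.1 : ZMod p), (z.2 : ZMod p)), ?_⟩
  simp only [Finset.mem_filter, Finset.mem_product]
  refine ⟨⟨lar_mem_res.mpr ⟨z.1, h1, rfl⟩, lar_mem_res.mpr ⟨z.2, h2, rfl⟩⟩, ?_⟩
  rw [← h3]
  push_cast
  rfl

/-- the elements of `X` which occur in a representation of `t` -/
private noncomputable def larXt (l m : ℤ) (X Y : Finset ℤ) (t : ℤ) : Finset ℤ :=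
  open Classical in X.filter (fun x => ∃ y ∈ Y, l * x + m * y = t)

private lemma larXt_card (l m : ℤ) (hm : m ≠ 0) (X Y : Finset ℤ) (t : ℤ) :
    (larXt l m X Y t).card = rep l m X Y t := by
  classical
  unfold rep
  symm
  apply Finset.card_bij (fun z _ => z.1)
  · intro z hz
    simp only [Finset.mem_filter, Finset.mem_product] at hz
    simp only [larXt, Finset.mem_filter]
    exact ⟨hz.1.1, z.2, hz.1.2, hz.2⟩
  · intro z hz w hw h
    simp only [Finset.mem_filter, Finset.mem_product] at hz hw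
    have h1 : m * z.2 = m * w.2 := by
      have h2 := hz.2
      have h3 := hw.2
      rw [h] at h2
      linarith
    exact Prod.ext h (mul_left_cancel₀ hm h1)
  · intro x hx
    simp only [larXt, Finset.mem_filter] at hx
    obtain ⟨h1, y, h2, h3⟩ := hx
    refine ⟨(x, y), ?_, rfl⟩
    simp only [Finset.mem_filter, Finset.mem_product]
    exact ⟨⟨h1, h2⟩, h3⟩

private lemma larXt_res (p : ℕ) (l m : ℤ) (X Y : Finset ℤ) (t : ℤ) :
    (res (larXt l m X Y t) p).card ≤ G p l m (res X p) (res Y p) (t : ZMod p) := by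
  classical
  unfold G
  have h : res (larXt l m X Y t) p ⊆
      ((res X p ×ˢ res Y p).filter (fun z : ZMod p × ZMod p =>
        (l : ZMod p) * z.1 + (m : ZMod p) * z.2 = (t : ZMod p))).image Prod.fst := by
    intro c hc
    obtain ⟨x, hx, h4⟩ := lar_mem_res.mp hc
    simp only [larXt, Finset.mem_filter] at hx
    obtain ⟨h1, y, h2, h3⟩ := hx
    simp only [Finset.mem_image, Finset.mem_filter, Finset.mem_product]
    refine ⟨((x : ZMod p), (y : ZMod p)),
      ⟨⟨lar_mem_res.mpr ⟨x, h1, rfl⟩, lar_mem_res.mpr ⟨y, h2, rfl⟩⟩, ?_⟩, h4⟩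
    rw [← h3]
    push_cast
    rfl
  refine (Finset.card_le_card h).trans (Finset.card_image_le.trans (le_of_eq ?_))
  congr

theorem rep_sieve (l m : ℤ) (hm : m ≠ 0) (X Y T : Finset ℤ) (hT : T.Nonempty) (R : ℝ)
    (hR : 0 < R) (hrep : ∀ t ∈ T, R ≤ rep l m X Y t) (P : Finset ℕ) (hP : ∀ p ∈ P, p.Prime)
    (D : ℝ) (hD : 1 ≤ D) (hX' : ∀ x ∈ X, ∀ x' ∈ X, |(x : ℝ) - x'| ≤ D) :
    ∑ p ∈ P, Real.log p *
      (T.card / ∑ t ∈ T, (G p l m (res X p) (res Y p) (t : ZMod p) : ℝ)) ≤
      Real.log D + (∑ p ∈ P, Real.log p) / R := by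
  classical
  have hlog : ∀ p ∈ P, 0 ≤ Real.log (p : ℝ) := fun p hp =>
    Real.log_nonneg (by exact_mod_cast (hP p hp).one_lt.le)
  have hsum : 0 ≤ ∑ p ∈ P, Real.log (p : ℝ) := Finset.sum_nonneg hlog
  have hc : (0 : ℝ) < T.card := by exact_mod_cast hT.card_pos
  have hrep' : ∀ t ∈ T, 0 < rep l m X Y t := by
    intro t ht
    have := hrep t ht
    have h1 : (0 : ℝ) < rep l m X Y t := lt_of_lt_of_le hR this
    exact_mod_cast h1
  have hG : ∀ p : ℕ, ∀ t ∈ T, (0 : ℝ) < G p l m (res X p) (res Y p) (t : ZMod p) := by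
    intro p t ht
    exact_mod_cast G_pos p l m X Y t (hrep' t ht)
  -- one `t`
  have h1 : ∀ t ∈ T, ∑ p ∈ P, Real.log p / (G p l m (res X p) (res Y p) (t : ZMod p) : ℝ)
      ≤ Real.log D + (∑ p ∈ P, Real.log p) / R := by
    intro t ht
    have hcard := larXt_card l m hm X Y t
    have hne : (larXt l m X Y t).Nonempty := by
      rw [← Finset.card_pos, hcard]
      exact hrep' t ht
    have hsub : ∀ x ∈ larXt l m X Y t, x ∈ X := by
      intro x hx
      simp only [larXt, Finset.mem_filter] at hx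
      exact hx.1
    have h2 := res_sieve (larXt l m X Y t) hne P hP D hD
      (fun x hx x' hx' => hX' x (hsub x hx) x' (hsub x' hx'))
    refine (Finset.sum_le_sum ?_).trans (h2.trans ?_)
    · intro p hp
      apply div_le_div_of_nonneg_left (hlog p hp)
      · have : (res (larXt l m X Y t) p).Nonempty := lar_res_nonempty hne p
        exact_mod_cast this.card_pos
      · exact_mod_cast larXt_res p l m X Y t
    · have h3 : R ≤ ((larXt l m X Y t).card : ℝ) := by
        rw [hcard]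
        exact hrep t ht
      have h4 : (∑ p ∈ P, Real.log (p : ℝ)) / ((larXt l m X Y t).card : ℝ)
          ≤ (∑ p ∈ P, Real.log (p : ℝ)) / R := div_le_div_of_nonneg_left hsum hR h3
      linarith
  -- one `p`
  have h2 : ∀ p ∈ P, (T.card : ℝ) * (Real.log p *
      (T.card / ∑ t ∈ T, (G p l m (res X p) (res Y p) (t : ZMod p) : ℝ)))
      ≤ ∑ t ∈ T, Real.log p / (G p l m (res X p) (res Y p) (t : ZMod p) : ℝ) := by
    intro p hp
    have h3 := Finset.sq_sum_div_le_sum_sq_div T (fun _ : ℤ => (1 : ℝ))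
      (g := fun t : ℤ => (G p l m (res X p) (res Y p) (t : ZMod p) : ℝ)) (fun t ht => hG p t ht)
    simp only [Finset.sum_const, nsmul_eq_mul, mul_one, one_pow] at h3
    have h4 := mul_le_mul_of_nonneg_left h3 (hlog p hp)
    rw [Finset.mul_sum] at h4
    refine le_trans (le_of_eq ?_) (h4.trans (le_of_eq ?_))
    · ring
    · apply Finset.sum_congr rfl
      intro t _
      rw [mul_one_div]
  have h3 : (T.card : ℝ) * ∑ p ∈ P, Real.log p *
      (T.card / ∑ t ∈ T, (G p l m (res X p) (res Y p) (t : ZMod p) : ℝ))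
      ≤ (T.card : ℝ) * (Real.log D + (∑ p ∈ P, Real.log p) / R) := by
    rw [Finset.mul_sum]
    refine (Finset.sum_le_sum h2).trans ?_
    rw [Finset.sum_comm]
    refine (Finset.sum_le_sum h1).trans (le_of_eq ?_)
    rw [Finset.sum_const, nsmul_eq_mul]
  exact le_of_mul_le_mul_left h3 hc

theorem col_sieve (T : Finset ℤ) (hT : T.Nonempty) (P : Finset ℕ) (hP : ∀ p ∈ P, p.Prime)
    (D : ℝ) (hD : 1 ≤ D) (hT' : ∀ x ∈ T, ∀ x' ∈ T, |(x : ℝ) - x'| ≤ D) :
    ∑ p ∈ P, wt p * Mv T p ≤ Real.log D + (∑ p ∈ P, Real.log p) / T.card := by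
  classical
  have h := larger_sieve T P hP D hD hT'
  have hc : (0 : ℝ) < T.card := by exact_mod_cast hT.card_pos
  have h1 : (T.card : ℝ) ^ 2 * ∑ p ∈ P, wt p * Mv T p = ∑ p ∈ P, Real.log p * pairs T p := by
    rw [Finset.mul_sum]
    apply Finset.sum_congr rfl
    intro p hp
    have hp0 : (0 : ℝ) < p := by exact_mod_cast (hP p hp).pos
    unfold wt Mv
    field_simp
  have h2 : (T.card : ℝ) ^ 2 * ∑ p ∈ P, wt p * Mv T p
      ≤ (T.card : ℝ) ^ 2 * (Real.log D + (∑ p ∈ P, Real.log p) / T.card) := by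
    rw [h1]
    refine h.trans (le_of_eq ?_)
    field_simp
    ring
  exact le_of_mul_le_mul_left h2 (by positivity)

end Pool.CSE
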