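import Pool.Agent.Lib.CSE.Defs

/-!
# CSE, module Pig: the popular values

`val l m X Y` is the set of the values `l x + m y`; `pop .. N ρ` the values with at least `N^ρ`
representations; `lad ρ₀ j = min (489/1000) (ρ₀ + j/1000)`.

`sum_rep`: `∑_{t ∈ val} rep t = |X| |Y|` (`Finset.card_eq_sum_card_image` /
`card_eq_sum_card_fiberwise`).
`rep_le`: `rep t ≤ |X|` (`m ≠ 0`: `(x, y) ↦ x` is injective on the solutions).
`pig`: suppose `|pop j| < N^(489/500 - lad j)` for all `j ≤ 240`. For every `t ∈ val`: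
`rep t ≤ N^ρ₀ + ∑_{j=0}^{240} N^(lad j + 1/1000) 1[t ∈ pop j]`: if `rep t ≥ N^ρ₀ = N^(lad 0)` take
the largest `j ≤ 240` with `N^(lad j) ≤ rep t`; if `j < 240` then
`rep t < N^(lad (j+1)) ≤ N^(lad j + 1/1000)`; if `j = 240` then `lad j = 489/1000` (as
`ρ₀ ≥ 1/4`) and `rep t ≤ |X| ≤ N^(49/100)`. Sum over `t ∈ val`: `|X| |Y| ≤ |val| N^ρ₀ +
∑_j N^(lad j + 1/1000) |pop j| ≤ N^(γ+ρ₀) + 241 N^(979/1000)`, and this is `< N^(98/100)/16` for
large `N`, as `γ + ρ₀ < 98/100`: contradiction with `|X| |Y| ≥ N^(98/100)/16`.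
-/

set_option autoImplicit false

open Finset Filter

namespace Pool.CSE

/-- the values of `l x + m y` -/
def val (l m : ℤ) (X Y : Finset ℤ) : Finset ℤ :=
  (X ×ˢ Y).image (fun z : ℤ × ℤ => l * z.1 + m * z.2)

/-- the popular values -/
noncomputable def pop (l m : ℤ) (X Y : Finset ℤ) (N : ℕ) (ρ : ℝ) : Finset ℤ :=
  open Classical in
  (val l m X Y).filter (fun t : ℤ => (N : ℝ) ^ ρ ≤ rep l m X Y t)

/-- the ladder of exponents -/
noncomputable def lad (ρ₀ : ℝ) (j : ℕ) : ℝ := min (489 / 1000) (ρ₀ + j / 1000)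

theorem sum_rep (l m : ℤ) (X Y : Finset ℤ) :
    ∑ t ∈ val l m X Y, rep l m X Y t = X.card * Y.card := by
  rw [← Finset.card_product]
  exact (Finset.card_eq_sum_card_image (fun z : ℤ × ℤ => l * z.1 + m * z.2) (X ×ˢ Y)).symm

theorem rep_le (l m : ℤ) (hm : m ≠ 0) (X Y : Finset ℤ) (t : ℤ) : rep l m X Y t ≤ X.card := by
  refine Finset.card_le_card_of_injOn (fun z : ℤ × ℤ => z.1) ?_ ?_
  · intro z hz
    rw [Finset.mem_coe, Finset.mem_filter, Finset.mem_product] at hz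
    exact hz.1.1
  · intro z hz w hw h
    rw [Finset.mem_coe, Finset.mem_filter] at hz hw
    have h1 : z.1 = w.1 := h
    have h2 : m * z.2 = m * w.2 := by
      have := hz.2.trans hw.2.symm
      rw [h1] at this
      exact add_left_cancel this
    exact Prod.ext h1 (mul_left_cancel₀ hm h2)

private theorem lad_succ (ρ₀ : ℝ) (j : ℕ) : lad ρ₀ (j + 1) ≤ lad ρ₀ j + 1 / 1000 := by
  unfold lad
  rw [← min_add_add_right]
  refine min_le_min (by norm_num) ?_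
  push_cast
  linarith

private theorem lad_zero (ρ₀ : ℝ) : lad ρ₀ 0 ≤ ρ₀ := by
  unfold lad
  refine (min_le_right _ _).trans ?_
  simp

private theorem lad_last (ρ₀ : ℝ) (hρ : 1 / 4 ≤ ρ₀) : lad ρ₀ 240 = 489 / 1000 := by
  unfold lad
  refine min_eq_left ?_
  push_cast
  linarith

private theorem step (N : ℕ) (hN : 1 ≤ N) (ρ₀ r : ℝ) (hρ : 1 / 4 ≤ ρ₀)
    (hr : r ≤ (N : ℝ) ^ (49 / 100 : ℝ)) (h0 : (N : ℝ) ^ lad ρ₀ 0 ≤ r) :
    ∃ j : ℕ, j ≤ 240 ∧ (N : ℝ) ^ lad ρ₀ j ≤ r ∧ r ≤ (N : ℝ) ^ (lad ρ₀ j + 1 / 1000) := by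
  by_contra hcon
  push Not at hcon
  have hN1 : (1 : ℝ) ≤ (N : ℝ) := by exact_mod_cast hN
  have key : ∀ j : ℕ, j ≤ 240 → (N : ℝ) ^ lad ρ₀ j ≤ r := by
    intro j
    induction j with
    | zero => intro _; exact h0
    | succ j ih =>
      intro hj
      have h1 := hcon j (by omega) (ih (by omega))
      refine le_trans ?_ h1.le
      exact Real.rpow_le_rpow_of_exponent_le hN1 (lad_succ ρ₀ j)
  have h2 := hcon 240 le_rfl (key 240 le_rfl)
  rw [lad_last ρ₀ hρ] at h2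
  have h3 : (489 / 1000 + 1 / 1000 : ℝ) = 49 / 100 := by norm_num
  rw [h3] at h2
  linarith

private theorem small (δ c : ℝ) (hδ : δ < 98 / 100) (hc : 0 < c) :
    ∀ᶠ N : ℕ in atTop, (N : ℝ) ^ δ < c * (N : ℝ) ^ (98 / 100 : ℝ) := by
  have h1 : Tendsto (fun N : ℕ => (N : ℝ) ^ (-(98 / 100 - δ))) atTop (nhds 0) :=
    (tendsto_rpow_neg_atTop (by linarith)).comp tendsto_natCast_atTop_atTop
  have h2 := (tendsto_order.1 h1).2 c hc
  filter_upwards [h2, eventually_ge_atTop 1] with N hN hN1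
  have hN0 : (0 : ℝ) < (N : ℝ) := by exact_mod_cast hN1
  have h3 : (N : ℝ) ^ δ = (N : ℝ) ^ (-(98 / 100 - δ)) * (N : ℝ) ^ (98 / 100 : ℝ) := by
    rw [← Real.rpow_add hN0]
    congr 1
    ring
  rw [h3]
  exact mul_lt_mul_of_pos_right hN (Real.rpow_pos_of_pos hN0 _)

theorem pig (l m : ℤ) (hm : m ≠ 0) (ρ₀ γ : ℝ) (hρ : 1 / 4 ≤ ρ₀)
    (hγ : γ + ρ₀ < 98 / 100) :
    ∀ᶠ N : ℕ in atTop, ∀ X Y : Finset ℤ, (N : ℝ) ^ (49 / 100 : ℝ) / 4 ≤ X.card →
      (N : ℝ) ^ (49 / 100 : ℝ) / 4 ≤ Y.card → (X.card : ℝ) ≤ (N : ℝ) ^ (49 / 100 : ℝ) →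
      ((val l m X Y).card : ℝ) ≤ (N : ℝ) ^ γ →
      ∃ j : ℕ, j ≤ 240 ∧
        (N : ℝ) ^ (489 / 500 - lad ρ₀ j) ≤ (pop l m X Y N (lad ρ₀ j)).card := by
  filter_upwards [small (γ + ρ₀) (1 / 32) hγ (by norm_num),
    small (979 / 1000) (1 / (241 * 32)) (by norm_num) (by norm_num),
    eventually_ge_atTop 1] with N hE1 hE2 hN1
  intro X Y hX hY hXN hV
  by_contra hcon
  push Not at hcon
  have hN0 : (0 : ℝ) < (N : ℝ) := by exact_mod_cast hN1
  have hN1' : (1 : ℝ) ≤ (N : ℝ) := by exact_mod_cast hN1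
  -- the pointwise bound
  have hpt : ∀ t ∈ val l m X Y, (rep l m X Y t : ℝ) ≤ (N : ℝ) ^ ρ₀ +
      ∑ j ∈ range 241, (N : ℝ) ^ (lad ρ₀ j + 1 / 1000) *
        (if t ∈ pop l m X Y N (lad ρ₀ j) then (1 : ℝ) else 0) := by
    intro t ht
    have hnn : ∀ j ∈ range 241, 0 ≤ (N : ℝ) ^ (lad ρ₀ j + 1 / 1000) *
        (if t ∈ pop l m X Y N (lad ρ₀ j) then (1 : ℝ) else 0) := by
      intro j _
      refine mul_nonneg (Real.rpow_nonneg hN0.le _) ?_
      split_ifs <;> norm_num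
    by_cases h0 : (N : ℝ) ^ lad ρ₀ 0 ≤ (rep l m X Y t : ℝ)
    · have hr : (rep l m X Y t : ℝ) ≤ (N : ℝ) ^ (49 / 100 : ℝ) := by
        refine le_trans ?_ hXN
        exact_mod_cast rep_le l m hm X Y t
      obtain ⟨j, hj, hj1, hj2⟩ := step N hN1 ρ₀ _ hρ hr h0
      have hmem : t ∈ pop l m X Y N (lad ρ₀ j) := by
        unfold pop
        rw [Finset.mem_filter]
        exact ⟨ht, hj1⟩
      have hs := Finset.single_le_sum hnn (Finset.mem_range.2 (by omega : j < 241))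
      rw [if_pos hmem, mul_one] at hs
      have hp : 0 ≤ (N : ℝ) ^ ρ₀ := Real.rpow_nonneg hN0.le _
      linarith
    · push Not at h0
      have h1 : (N : ℝ) ^ lad ρ₀ 0 ≤ (N : ℝ) ^ ρ₀ :=
        Real.rpow_le_rpow_of_exponent_le hN1' (lad_zero ρ₀)
      have h2 := Finset.sum_nonneg hnn
      linarith
  -- sum it
  have hsum : (X.card : ℝ) * Y.card ≤ (N : ℝ) ^ (γ + ρ₀) + 241 * (N : ℝ) ^ (979 / 1000 : ℝ) := by
    have h1 : (X.card : ℝ) * Y.card = ∑ t ∈ val l m X Y, (rep l m X Y t : ℝ) := by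
      rw [← Nat.cast_mul, ← sum_rep l m X Y, Nat.cast_sum]
    rw [h1]
    refine (Finset.sum_le_sum hpt).trans ?_
    rw [Finset.sum_add_distrib, Finset.sum_const, nsmul_eq_mul, Finset.sum_comm]
    refine add_le_add ?_ ?_
    · rw [Real.rpow_add hN0]
      exact mul_le_mul_of_nonneg_right hV (Real.rpow_nonneg hN0.le _)
    · have h2 : ∀ j ∈ range 241, ∑ t ∈ val l m X Y, (N : ℝ) ^ (lad ρ₀ j + 1 / 1000) *
          (if t ∈ pop l m X Y N (lad ρ₀ j) then (1 : ℝ) else 0) ≤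
          (N : ℝ) ^ (979 / 1000 : ℝ) := by
        intro j hj
        rw [← Finset.mul_sum]
        have h3 : ∑ t ∈ val l m X Y,
            (if t ∈ pop l m X Y N (lad ρ₀ j) then (1 : ℝ) else 0) =
            ((pop l m X Y N (lad ρ₀ j)).card : ℝ) := by
          rw [Finset.sum_boole]
          congr 2
          ext t
          simp only [Finset.mem_filter, pop]
          tauto
        rw [h3]
        have h4 := hcon j (by have := Finset.mem_range.1 hj; omega)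
        have h5 : (N : ℝ) ^ (979 / 1000 : ℝ) =
            (N : ℝ) ^ (lad ρ₀ j + 1 / 1000) * (N : ℝ) ^ (489 / 500 - lad ρ₀ j) := by
          rw [← Real.rpow_add hN0]
          congr 1
          ring
        rw [h5]
        exact mul_le_mul_of_nonneg_left h4.le (Real.rpow_nonneg hN0.le _)
      refine (Finset.sum_le_sum h2).trans ?_
      rw [Finset.sum_const, Finset.card_range, nsmul_eq_mul]
      norm_num
  have hlow : (N : ℝ) ^ (98 / 100 : ℝ) / 16 ≤ (X.card : ℝ) * Y.card := by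
    have h1 : (N : ℝ) ^ (98 / 100 : ℝ) = (N : ℝ) ^ (49 / 100 : ℝ) * (N : ℝ) ^ (49 / 100 : ℝ) := by
      rw [← Real.rpow_add hN0]
      norm_num
    have h2 : (N : ℝ) ^ (98 / 100 : ℝ) / 16 =
        ((N : ℝ) ^ (49 / 100 : ℝ) / 4) * ((N : ℝ) ^ (49 / 100 : ℝ) / 4) := by
      rw [h1]; ring
    rw [h2]
    exact mul_le_mul hX hY (by positivity) (by positivity)
  linarith

end Pool.CSE
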