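import Pool.Agent.Lib.CSE.Defs

/-!
# CSE, module Red: from composite-free sumsets to local conditions

`N` large: `N^(489/1000) + 2 ≤ N^(49/100)/4` and so on. Take `A' = A.filter (N^(489/1000) < a)`
(the others are at most `N^(489/1000)` many), `k = ⌈N^(49/100)/4⌉₊ ≤ |A'|`, `A₁ ⊆ A'` with `k`
elements (`Finset.exists_subset_card_eq`), cast to `ℤ`; `B₁` likewise (only `|B₁| = k` is needed).
`loc`: let `p ≤ N^(489/1000)` be prime. If `a + b ≡ 0 mod p`, `a ∈ A₁`, `b ∈ B₁`, then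
`p ∣ a + b`, `a + b > N^(489/1000) ≥ p`, so `a + b` is not prime, but `a + b > 1`: contradiction
with `hAB`. So `res A₁ p` and the image of `res B₁ p` under `x ↦ -x` are disjoint subsets of `ZMod p`.
-/

set_option autoImplicit false

open Finset Filter

namespace Pool.CSE

open Pool.Agent.Lib.MP_4b09b1_nt (res)

private theorem Red_mem (X : Finset ℤ) (p : ℕ) (x : ZMod p) :
    x ∈ res X p ↔ ∃ a ∈ X, (a : ZMod p) = x := by
  classical
  unfold res
  simp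

theorem loc_of_prime (N : ℕ) (A B : Finset ℤ) (hA : ∀ a ∈ A, (N : ℝ) ^ (489 / 1000 : ℝ) < (a : ℝ))
    (hB : ∀ b ∈ B, 1 ≤ b) (hAB : ∀ a ∈ A, ∀ b ∈ B, Prime (a + b)) (p : ℕ) (hp : p.Prime)
    (hpN : (p : ℝ) ≤ (N : ℝ) ^ (489 / 1000 : ℝ)) :
    (res A p).card + (res B p).card ≤ p := by
  classical
  have : Fact p.Prime := ⟨hp⟩
  have h1 : (res B p).card = ((res B p).image (fun x => -x)).card :=
    (Finset.card_image_of_injective _ neg_injective).symm
  have hd : Disjoint (res A p) ((res B p).image (fun x => -x)) := by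
    rw [Finset.disjoint_left]
    intro x hx hx'
    obtain ⟨a, ha, rfl⟩ := (Red_mem A p x).1 hx
    obtain ⟨y, hy, hxy⟩ := Finset.mem_image.1 hx'
    obtain ⟨b, hb, rfl⟩ := (Red_mem B p y).1 hy
    have h0 : (((a + b : ℤ)) : ZMod p) = 0 := by
      push_cast
      rw [← hxy]; ring
    have hdvd : (p : ℤ) ∣ a + b := (ZMod.intCast_zmod_eq_zero_iff_dvd (a + b) p).1 h0
    have hass : Associated (p : ℤ) (a + b) :=
      ((Nat.prime_iff_prime_int.1 hp).dvd_prime_iff_associated (hAB a ha b hb)).1 hdvd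
    have hb1 := hB b hb
    have ha1 := hA a ha
    have ha0 : (0 : ℝ) < (a : ℝ) := lt_of_le_of_lt (by positivity) ha1
    have ha0' : (0 : ℤ) < a := by exact_mod_cast ha0
    have heq : (p : ℤ) = a + b := by
      rcases (Int.associated_iff.1 hass) with h | h
      · exact h
      · exfalso
        have : (0 : ℤ) ≤ (p : ℤ) := by positivity
        omega
    have h2 : ((p : ℤ) : ℝ) = ((a + b : ℤ) : ℝ) := by rw [heq]
    push_cast at h2
    have hb1' : (1 : ℝ) ≤ (b : ℝ) := by exact_mod_cast hb1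
    linarith
  rw [h1, ← Finset.card_union_of_disjoint hd]
  calc _ ≤ (Finset.univ : Finset (ZMod p)).card := Finset.card_le_card (Finset.subset_univ _)
    _ = p := by rw [Finset.card_univ, ZMod.card]

theorem red : ∀ᶠ N : ℕ in atTop, ∀ A B : Finset ℕ, A ⊆ Icc 1 N → B ⊆ Icc 1 N →
    (N : ℝ) ^ (49 / 100 : ℝ) ≤ A.card → (N : ℝ) ^ (49 / 100 : ℝ) ≤ B.card →
    (∀ a ∈ A, ∀ b ∈ B, ¬ (1 < a + b ∧ ¬ (a + b).Prime)) →
    ∃ A₁ B₁ : Finset ℤ, (∀ a ∈ A₁, ∃ a' ∈ A, a = (a' : ℤ)) ∧ (∀ b ∈ B₁, ∃ b' ∈ B, b = (b' : ℤ)) ∧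
      (∀ p : ℕ, p.Prime → (p : ℝ) ≤ (N : ℝ) ^ (489 / 1000 : ℝ) →
        (res A₁ p).card + (res B₁ p).card ≤ p) ∧
      (N : ℝ) ^ (49 / 100 : ℝ) / 4 ≤ A₁.card ∧ (N : ℝ) ^ (49 / 100 : ℝ) / 4 ≤ B₁.card ∧
      (A₁.card : ℝ) ≤ (N : ℝ) ^ (49 / 100 : ℝ) ∧ (B₁.card : ℝ) ≤ (N : ℝ) ^ (49 / 100 : ℝ) ∧
      (N : ℝ) ^ (489 / 1000 : ℝ) ≤ A₁.card ∧ (N : ℝ) ^ (489 / 1000 : ℝ) ≤ B₁.card := by
  classical
  have e1 : ∀ᶠ N : ℕ in atTop, (4 : ℝ) ≤ (N : ℝ) ^ (1 / 1000 : ℝ) :=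
    ((tendsto_rpow_atTop (by norm_num : (0 : ℝ) < 1 / 1000)).comp
      tendsto_natCast_atTop_atTop).eventually_ge_atTop 4
  have e2 : ∀ᶠ N : ℕ in atTop, (2 : ℝ) ≤ (N : ℝ) ^ (49 / 100 : ℝ) :=
    ((tendsto_rpow_atTop (by norm_num : (0 : ℝ) < 49 / 100)).comp
      tendsto_natCast_atTop_atTop).eventually_ge_atTop 2
  filter_upwards [e1, e2, eventually_ge_atTop 1] with N h1 h2 hN A B hA hB cA cB hAB
  have hN0 : (0 : ℝ) < (N : ℝ) := by exact_mod_cast hN
  set t : ℝ := (N : ℝ) ^ (49 / 100 : ℝ) with ht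
  set s : ℝ := (N : ℝ) ^ (489 / 1000 : ℝ) with hs
  have hs0 : 0 < s := Real.rpow_pos_of_pos hN0 _
  have hst : s ≤ t / 4 := by
    have : t = s * (N : ℝ) ^ (1 / 1000 : ℝ) := by
      rw [ht, hs, ← Real.rpow_add hN0]; norm_num
    rw [this]
    nlinarith
  set k : ℕ := ⌈t / 4⌉₊ with hk
  have hk1 : t / 4 ≤ (k : ℝ) := Nat.le_ceil _
  have hk2 : (k : ℝ) < t / 4 + 1 := Nat.ceil_lt_add_one (by linarith)
  set A' : Finset ℕ := A.filter (fun a : ℕ => s < (a : ℝ)) with hA'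
  have hsm : ((A.filter (fun a : ℕ => ¬ s < (a : ℝ))).card : ℝ) ≤ s := by
    have hsub : A.filter (fun a : ℕ => ¬ s < (a : ℝ)) ⊆ Finset.Icc 1 ⌊s⌋₊ := by
      intro a ha
      rw [Finset.mem_filter] at ha
      rw [Finset.mem_Icc]
      refine ⟨(Finset.mem_Icc.1 (hA ha.1)).1, Nat.le_floor (not_lt.1 ha.2)⟩
    have := Finset.card_le_card hsub
    rw [Nat.card_Icc] at this
    calc ((A.filter (fun a : ℕ => ¬ s < (a : ℝ))).card : ℝ) ≤ (⌊s⌋₊ : ℝ) := by exact_mod_cast this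
      _ ≤ s := Nat.floor_le hs0.le
  have hcard : (A'.card : ℝ) + ((A.filter (fun a : ℕ => ¬ s < (a : ℝ))).card : ℝ) = A.card := by
    rw [hA']
    exact_mod_cast Finset.card_filter_add_card_filter_not (s := A) (fun a : ℕ => s < (a : ℝ))
  have hkA : k ≤ A'.card := by
    have : (k : ℝ) ≤ A'.card := by linarith
    exact_mod_cast this
  have hkB : k ≤ B.card := by
    have : (k : ℝ) ≤ B.card := by linarith
    exact_mod_cast this
  obtain ⟨A₀, hA₀, cA₀⟩ := Finset.exists_subset_card_eq hkA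
  obtain ⟨B₀, hB₀, cB₀⟩ := Finset.exists_subset_card_eq hkB
  refine ⟨A₀.map Nat.castEmbedding, B₀.map Nat.castEmbedding, ?_, ?_, ?_, ?_⟩
  · intro a ha
    rw [Finset.mem_map] at ha
    obtain ⟨a', ha', rfl⟩ := ha
    exact ⟨a', (Finset.mem_filter.1 (hA₀ ha')).1, rfl⟩
  · intro b hb
    rw [Finset.mem_map] at hb
    obtain ⟨b', hb', rfl⟩ := hb
    exact ⟨b', hB₀ hb', rfl⟩
  · intro p hp hpN
    refine loc_of_prime N _ _ ?_ ?_ ?_ p hp hpN
    · intro a ha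
      rw [Finset.mem_map] at ha
      obtain ⟨a', ha', rfl⟩ := ha
      have := (Finset.mem_filter.1 (hA₀ ha')).2
      simpa using this
    · intro b hb
      rw [Finset.mem_map] at hb
      obtain ⟨b', hb', rfl⟩ := hb
      have := (Finset.mem_Icc.1 (hB (hB₀ hb'))).1
      simp only [Nat.castEmbedding_apply]
      exact_mod_cast this
    · intro a ha b hb
      rw [Finset.mem_map] at ha hb
      obtain ⟨a', ha', rfl⟩ := ha
      obtain ⟨b', hb', rfl⟩ := hb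
      have haA := (Finset.mem_filter.1 (hA₀ ha')).1
      have hbB := hB₀ hb'
      have ha1 := (Finset.mem_Icc.1 (hA haA)).1
      have hb1 := (Finset.mem_Icc.1 (hB hbB)).1
      have := hAB a' haA b' hbB
      have hpr : (a' + b').Prime := by
        by_contra hcon
        exact this ⟨by omega, hcon⟩
      have := Nat.prime_iff_prime_int.1 hpr
      simp only [Nat.castEmbedding_apply]
      exact_mod_cast this
  · rw [Finset.card_map, Finset.card_map, cA₀, cB₀]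
    refine ⟨hk1, hk1, by linarith, by linarith, by linarith, by linarith⟩

end Pool.CSE
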