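import Pool.Agent.Lib.CSE.AB
import Pool.Agent.Lib.CSE.AA
import Pool.Agent.Lib.CSE.Pig
import Pool.Agent.Lib.CSE.Red

/-!
# CSE, module Main: composite-free sumsets expand

Proof. `red` gives `A₁, B₁`. `conf_of`: if `(X, Y)` is one of `(A₁, B₁)`, `(A₁, A₁)`, `(B₁, B₁)` and
`T = pop l m X Y N ρ` has at least `N^(489/500-ρ)` elements then `Conf N l m ρ A₁ B₁ X Y T`
(`hT`: `t = l x + m y`, `|x|, |y| ≤ N`). `val l m X Y` injects into the image over `ℕ` sets of the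
theorem (it is a subset of it: elements of `A₁` come from `A`).
(1) if `|{l a + m b}| ≤ N^γ`: `pig` with `ρ₀ = 1/4 + (73/100 - γ')/2`, `γ' = max γ (7/10)`
(`γ' < 73/100`, `N^γ ≤ N^γ'`, `γ' + ρ₀ = 1/4 + 73/200 + γ'/2 < 98/100`) gives `j ≤ 240`;
`ρ = lad ρ₀ j ∈ (1/4, 489/1000]`: contradiction with `no_conf_AB` (for all `j ≤ 240`
simultaneously: `Filter.eventually_all_finset` or `(Finset.range 241).eventually_all`).
(2) if `|{l a + m a'}| ≤ N^(65/100)`: `pig` with `ρ₀ = 3299/10000`, `γ = 65/100`; `no_conf_AA`.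
(3) for `B`: `Conf N l m ρ A₁ B₁ B₁ B₁ T` gives `Conf N l m ρ B₁ A₁ B₁ B₁ T` (symmetry of the
hypotheses); `no_conf_AA`.
-/

set_option autoImplicit false

open Finset Filter

namespace Pool.CSE

open Pool.Agent.Lib.MP_4b09b1_nt (res pairs)

private theorem Main_conf (N : ℕ) (l m : ℤ) (ρ : ℝ) (A B X Y : Finset ℤ)
    (hA : ∀ a ∈ A, 1 ≤ a ∧ a ≤ (N : ℤ)) (hB : ∀ b ∈ B, 1 ≤ b ∧ b ≤ (N : ℤ))
    (hX : X = A ∨ X = B) (hY : Y = A ∨ Y = B)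
    (loc : ∀ p : ℕ, p.Prime → (p : ℝ) ≤ (N : ℝ) ^ (489 / 1000 : ℝ) →
      (res A p).card + (res B p).card ≤ p)
    (cA : (N : ℝ) ^ (489 / 1000 : ℝ) ≤ A.card) (cB : (N : ℝ) ^ (489 / 1000 : ℝ) ≤ B.card)
    (cT : (N : ℝ) ^ (489 / 500 - ρ) ≤ (pop l m X Y N ρ).card) :
    Conf N l m ρ A B X Y (pop l m X Y N ρ) := by
  classical
  have hXN : ∀ x ∈ X, |x| ≤ (N : ℤ) := by
    intro x hx
    rcases hX with rfl | rfl
    · have := hA x hx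
      rw [abs_of_nonneg (by omega)]
      exact this.2
    · have := hB x hx
      rw [abs_of_nonneg (by omega)]
      exact this.2
  have hYN : ∀ y ∈ Y, |y| ≤ (N : ℤ) := by
    intro x hx
    rcases hY with rfl | rfl
    · have := hA x hx
      rw [abs_of_nonneg (by omega)]
      exact this.2
    · have := hB x hx
      rw [abs_of_nonneg (by omega)]
      exact this.2
  refine ⟨hA, hB, hX, hY, loc, cA, cB, ?_, cT, ?_⟩
  · intro t ht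
    unfold pop val at ht
    rw [Finset.mem_filter, Finset.mem_image] at ht
    obtain ⟨⟨⟨x, y⟩, hz, rfl⟩, -⟩ := ht
    rw [Finset.mem_product] at hz
    have h1 := hXN x hz.1
    have h2 := hYN y hz.2
    calc |l * x + m * y| ≤ |l * x| + |m * y| := abs_add_le _ _
      _ = |l| * |x| + |m| * |y| := by rw [abs_mul, abs_mul]
      _ ≤ |l| * N + |m| * N := by
          have := mul_le_mul_of_nonneg_left h1 (abs_nonneg l)
          have := mul_le_mul_of_nonneg_left h2 (abs_nonneg m)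
          linarith
      _ = (|l| + |m|) * (N : ℤ) := by ring
  · intro t ht
    unfold pop at ht
    rw [Finset.mem_filter] at ht
    exact ht.2

private theorem Main_val (l m : ℤ) (A B : Finset ℕ) (X Y : Finset ℤ)
    (hX : ∀ a ∈ X, ∃ a' ∈ A, a = (a' : ℤ)) (hY : ∀ b ∈ Y, ∃ b' ∈ B, b = (b' : ℤ)) :
    (val l m X Y).card ≤ ((A ×ˢ B).image (fun z : ℕ × ℕ => l * z.1 + m * z.2)).card := by
  refine Finset.card_le_card ?_
  intro t ht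
  unfold val at ht
  rw [Finset.mem_image] at ht
  obtain ⟨⟨x, y⟩, hz, rfl⟩ := ht
  rw [Finset.mem_product] at hz
  obtain ⟨a, ha, hxa⟩ := hX x hz.1
  obtain ⟨b, hb, hyb⟩ := hY y hz.2
  rw [Finset.mem_image]
  refine ⟨(a, b), Finset.mem_product.2 ⟨ha, hb⟩, ?_⟩
  have h1 : x = (a : ℤ) := hxa
  have h2 : y = (b : ℤ) := hyb
  subst h1 h2
  rfl

private theorem Main_symm (N : ℕ) (l m : ℤ) (ρ : ℝ) (A B X Y T : Finset ℤ)
    (h : Conf N l m ρ A B X Y T) : Conf N l m ρ B A X Y T := by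
  refine ⟨h.hB, h.hA, h.hX.symm, h.hY.symm, ?_, h.cB, h.cA, h.hT, h.cT, h.rT⟩
  intro p hp hpN
  rw [add_comm]
  exact h.loc p hp hpN

private theorem Main_lad_le (ρ₀ : ℝ) (j : ℕ) : lad ρ₀ j ≤ 489 / 1000 := min_le_left _ _

private theorem Main_lad_ge (ρ₀ δ : ℝ) (j : ℕ) (h : δ ≤ ρ₀) (h' : δ ≤ 489 / 1000) :
    δ ≤ lad ρ₀ j := by
  refine le_min h' ?_
  have : (0 : ℝ) ≤ (j : ℝ) / 1000 := by positivity
  linarith

theorem main (l m : ℤ) (hl : l ≠ 0) (hm : m ≠ 0) (γ : ℝ) (hγ : γ < 73 / 100) :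
    ∃ N₀ : ℕ, ∀ N : ℕ, N₀ ≤ N → ∀ A B : Finset ℕ, A ⊆ Icc 1 N → B ⊆ Icc 1 N →
      (N : ℝ) ^ (49 / 100 : ℝ) ≤ A.card → (N : ℝ) ^ (49 / 100 : ℝ) ≤ B.card →
      (((A ×ˢ B).image (fun z : ℕ × ℕ => l * z.1 + m * z.2)).card : ℝ) ≤ (N : ℝ) ^ γ ∨
      (((A ×ˢ A).image (fun z : ℕ × ℕ => l * z.1 + m * z.2)).card : ℝ) ≤
        (N : ℝ) ^ (65 / 100 : ℝ) ∨
      (((B ×ˢ B).image (fun z : ℕ × ℕ => l * z.1 + m * z.2)).card : ℝ) ≤
        (N : ℝ) ^ (65 / 100 : ℝ) →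
      ∃ a ∈ A, ∃ b ∈ B, 1 < a + b ∧ ¬ (a + b).Prime := by
  classical
  obtain ⟨ρ₀, hρ₀⟩ : ∃ ρ₀ : ℝ, ρ₀ = 1 / 4 + (73 / 100 - γ) / 2 := ⟨_, rfl⟩
  have hρ1 : 1 / 4 < ρ₀ := by rw [hρ₀]; linarith
  have hρ2 : γ + ρ₀ < 98 / 100 := by rw [hρ₀]; linarith
  have hlad : ∀ j : ℕ, 1 / 4 < lad ρ₀ j := by
    intro j
    refine lt_min (by norm_num) ?_
    have : (0 : ℝ) ≤ (j : ℝ) / 1000 := by positivity
    linarith
  have eAB : ∀ᶠ N : ℕ in atTop, ∀ j ∈ Finset.range 241, ∀ A B T : Finset ℤ,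
      ¬ Conf N l m (lad ρ₀ j) A B A B T := by
    rw [Filter.eventually_all_finset]
    intro j _
    exact no_conf_AB l m hl hm _ (hlad j) (Main_lad_le ρ₀ j)
  have eAA : ∀ᶠ N : ℕ in atTop, ∀ j ∈ Finset.range 241, ∀ A B T : Finset ℤ,
      ¬ Conf N l m (lad (3299 / 10000) j) A B A A T := by
    rw [Filter.eventually_all_finset]
    intro j _
    exact no_conf_AA l m hl hm _ (Main_lad_ge _ _ j le_rfl (by norm_num))
      (Main_lad_le _ j)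
  have hall := red.and (eAB.and (eAA.and ((pig l m hm ρ₀ γ hρ1.le hρ2).and
    (pig l m hm (3299 / 10000) (65 / 100) (by norm_num) (by norm_num)))))
  obtain ⟨N₀, hN₀⟩ := Filter.eventually_atTop.1 hall
  refine ⟨N₀, ?_⟩
  intro N hN A B hA hB cA cB hsmall
  obtain ⟨h1, h2, h3, h4, h5⟩ := hN₀ N hN
  by_contra hcon
  push Not at hcon
  obtain ⟨A₁, B₁, hA₁, hB₁, loc, dA, dB, uA, uB, kA, kB⟩ := h1 A B hA hB cA cB (by
    intro a ha b hb hab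
    exact hab.2 (hcon a ha b hb hab.1))
  have bA : ∀ a ∈ A₁, 1 ≤ a ∧ a ≤ (N : ℤ) := by
    intro a ha
    obtain ⟨a', ha', rfl⟩ := hA₁ a ha
    have := Finset.mem_Icc.1 (hA ha')
    omega
  have bB : ∀ b ∈ B₁, 1 ≤ b ∧ b ≤ (N : ℤ) := by
    intro b hb
    obtain ⟨b', hb', rfl⟩ := hB₁ b hb
    have := Finset.mem_Icc.1 (hB hb')
    omega
  rcases hsmall with h | h | h
  · have hv : ((val l m A₁ B₁).card : ℝ) ≤ (N : ℝ) ^ γ :=
      le_trans (by exact_mod_cast Main_val l m A B A₁ B₁ hA₁ hB₁) h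
    obtain ⟨j, hj, hT⟩ := h4 A₁ B₁ dA dB uA hv
    exact h2 j (Finset.mem_range.2 (by omega)) A₁ B₁ _ (Main_conf N l m _ A₁ B₁ A₁ B₁ bA bB
      (Or.inl rfl) (Or.inr rfl) loc kA kB hT)
  · have hv : ((val l m A₁ A₁).card : ℝ) ≤ (N : ℝ) ^ (65 / 100 : ℝ) :=
      le_trans (by exact_mod_cast Main_val l m A A A₁ A₁ hA₁ hA₁) h
    obtain ⟨j, hj, hT⟩ := h5 A₁ A₁ dA dA uA hv
    exact h3 j (Finset.mem_range.2 (by omega)) A₁ B₁ _ (Main_conf N l m _ A₁ B₁ A₁ A₁ bA bB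
      (Or.inl rfl) (Or.inl rfl) loc kA kB hT)
  · have hv : ((val l m B₁ B₁).card : ℝ) ≤ (N : ℝ) ^ (65 / 100 : ℝ) :=
      le_trans (by exact_mod_cast Main_val l m B B B₁ B₁ hB₁ hB₁) h
    obtain ⟨j, hj, hT⟩ := h5 B₁ B₁ dB dB uB hv
    exact h3 j (Finset.mem_range.2 (by omega)) B₁ A₁ _ (Main_symm N l m _ A₁ B₁ B₁ B₁ _
      (Main_conf N l m _ A₁ B₁ B₁ B₁ bA bB
      (Or.inr rfl) (Or.inr rfl) loc kA kB hT))

end Pool.CSE
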