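import Pool.Agent.Lib.CSE.Defs
import Pool.Agent.Lib.MP_4b09b1_nt.MT

/-!
# CSE, module Mer: sums over `prI`

From `MP_4b09b1_nt/MT.lean` (Mertens: `MTaux.upper`, `MTaux.lower`; Chebyshev `MTaux.cheb`).
`mer`: for `b ≤ a` the right side is `≥ 0 ≥ (b-a) L - C`. For `0 ≤ a < b ≤ 1`: the primes
`≤ ⌊N^b⌋₊` minus the primes `≤ ⌊N^a⌋₊`: lower bound for the first sum, upper bound for the second,
`log ⌊N^b⌋₊ ≥ b L - log 2`. If `b > 1` replace... not needed: `b ≤ 1` is assumed.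
(`a` may be any real number `≥ 0`, `b ≤ 1` any real number, possibly negative.)
`cheb_prI`: `∑_{p ∈ prI N a b} log p ≤ log 4 * N^b ≤ 2 N^b`.
-/

set_option autoImplicit false

open Finset

namespace Pool.CSE

theorem mem_prI {N : ℕ} {a b : ℝ} {p : ℕ} :
    p ∈ prI N a b ↔ p ≤ N ∧ p.Prime ∧ (N : ℝ) ^ a < p ∧ (p : ℝ) ≤ (N : ℝ) ^ b := by
  unfold prI
  rw [mem_filter, mem_range, Nat.lt_succ_iff]

theorem mer_wt_nonneg (p : ℕ) : 0 ≤ wt p := by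
  unfold wt
  exact div_nonneg (Real.log_natCast_nonneg p) (Nat.cast_nonneg p)

theorem mer_mem_pr {y p : ℕ} : p ∈ Pool.Agent.Lib.MP_4b09b1_nt.pr y ↔ p ≤ y ∧ p.Prime := by
  simp [Pool.Agent.Lib.MP_4b09b1_nt.pr]

theorem mer (a b : ℝ) (ha : 0 ≤ a) (hb : b ≤ 1) :
    ∃ C : ℝ, 0 ≤ C ∧ ∀ N : ℕ, 2 ≤ N →
      (b - a) * Real.log N - C ≤ ∑ p ∈ prI N a b, wt p := by
  obtain ⟨C1, hC1, h1⟩ := Pool.Agent.Lib.MP_4b09b1_nt.MTaux.lower
  have hl2 : 0 ≤ Real.log 2 := Real.log_nonneg (by norm_num)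
  refine ⟨Real.log 2 + C1 + 6, by linarith, fun N hN => ?_⟩
  have hN1 : (1 : ℝ) ≤ N := by exact_mod_cast (by omega : 1 ≤ N)
  have hN0 : (0 : ℝ) < N := by linarith
  have hlN : 0 ≤ Real.log N := Real.log_nonneg hN1
  have hs : 0 ≤ ∑ p ∈ prI N a b, wt p := sum_nonneg fun p _ => mer_wt_nonneg p
  rcases le_total b a with hba | hab
  · have : (b - a) * Real.log N ≤ 0 := mul_nonpos_of_nonpos_of_nonneg (by linarith) hlN
    linarith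
  have hx1 : (1 : ℝ) ≤ (N : ℝ) ^ b := Real.one_le_rpow hN1 (by linarith)
  have hy1 : (1 : ℝ) ≤ (N : ℝ) ^ a := Real.one_le_rpow hN1 ha
  set X : ℕ := ⌊(N : ℝ) ^ b⌋₊ with hX
  set Y : ℕ := ⌊(N : ℝ) ^ a⌋₊ with hY
  have hX1 : 1 ≤ X := Nat.le_floor (by simpa using hx1)
  have hY1 : 1 ≤ Y := Nat.le_floor (by simpa using hy1)
  have hXle : (X : ℝ) ≤ (N : ℝ) ^ b := Nat.floor_le (by linarith)
  have hYle : (Y : ℝ) ≤ (N : ℝ) ^ a := Nat.floor_le (by linarith)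
  have hXlt : (N : ℝ) ^ b < X + 1 := Nat.lt_floor_add_one _
  have hX1' : (1 : ℝ) ≤ X := by exact_mod_cast hX1
  have hY1' : (1 : ℝ) ≤ Y := by exact_mod_cast hY1
  have hlX : b * Real.log N - Real.log 2 ≤ Real.log X := by
    have h2 : (N : ℝ) ^ b ≤ 2 * X := by linarith
    have h3 : Real.log ((N : ℝ) ^ b) ≤ Real.log (2 * X) :=
      Real.log_le_log (by linarith) h2
    rw [Real.log_rpow hN0, Real.log_mul (by norm_num) (by positivity)] at h3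
    linarith
  have hlY : Real.log Y ≤ a * Real.log N := by
    have h3 : Real.log Y ≤ Real.log ((N : ℝ) ^ a) := Real.log_le_log (by linarith) hYle
    rwa [Real.log_rpow hN0] at h3
  have hsub : Pool.Agent.Lib.MP_4b09b1_nt.pr X
      ⊆ Pool.Agent.Lib.MP_4b09b1_nt.pr Y ∪ prI N a b := by
    intro p hp
    rw [mer_mem_pr] at hp
    rw [mem_union, mer_mem_pr, mem_prI]
    by_cases hpY : p ≤ Y
    · exact Or.inl ⟨hpY, hp.2⟩
    · right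
      have hpx : (p : ℝ) ≤ (N : ℝ) ^ b := le_trans (by exact_mod_cast hp.1) hXle
      refine ⟨?_, hp.2, ?_, hpx⟩
      · have : (N : ℝ) ^ b ≤ (N : ℝ) ^ (1 : ℝ) :=
          Real.rpow_le_rpow_of_exponent_le hN1 hb
        rw [Real.rpow_one] at this
        exact_mod_cast hpx.trans this
      · exact Nat.lt_of_floor_lt (by omega)
  have hsum : ∑ p ∈ Pool.Agent.Lib.MP_4b09b1_nt.pr X, wt p
      ≤ ∑ p ∈ Pool.Agent.Lib.MP_4b09b1_nt.pr Y, wt p + ∑ p ∈ prI N a b, wt p := by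
    refine (sum_le_sum_of_subset_of_nonneg hsub fun p _ _ => mer_wt_nonneg p).trans ?_
    have := sum_union_inter (s₁ := Pool.Agent.Lib.MP_4b09b1_nt.pr Y) (s₂ := prI N a b) (f := wt)
    have h0 : 0 ≤ ∑ p ∈ Pool.Agent.Lib.MP_4b09b1_nt.pr Y ∩ prI N a b, wt p :=
      sum_nonneg fun p _ => mer_wt_nonneg p
    linarith
  have h4 := h1 X hX1
  have h5 := Pool.Agent.Lib.MP_4b09b1_nt.MTaux.upper Y hY1
  unfold wt at *
  linarith [sub_mul b a (Real.log N)]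

theorem cheb_prI (N : ℕ) (hN : 2 ≤ N) (a b : ℝ) :
    ∑ p ∈ prI N a b, Real.log p ≤ 2 * (N : ℝ) ^ b := by
  have hN0 : (0 : ℝ) < N := by exact_mod_cast (by omega : 0 < N)
  have hx : (0 : ℝ) ≤ (N : ℝ) ^ b := (Real.rpow_pos_of_pos hN0 b).le
  have hsub : prI N a b ⊆ Pool.Agent.Lib.MP_4b09b1_nt.pr ⌊(N : ℝ) ^ b⌋₊ := by
    intro p hp
    rw [mem_prI] at hp
    rw [mer_mem_pr]
    exact ⟨Nat.le_floor hp.2.2.2, hp.2.1⟩
  have h1 : ∑ p ∈ prI N a b, Real.log p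
      ≤ ∑ p ∈ Pool.Agent.Lib.MP_4b09b1_nt.pr ⌊(N : ℝ) ^ b⌋₊, Real.log p :=
    sum_le_sum_of_subset_of_nonneg hsub fun p _ _ => Real.log_natCast_nonneg p
  have h2 := Pool.Agent.Lib.MP_4b09b1_nt.MTaux.cheb ⌊(N : ℝ) ^ b⌋₊
  have h3 : ((⌊(N : ℝ) ^ b⌋₊ : ℕ) : ℝ) ≤ (N : ℝ) ^ b := Nat.floor_le hx
  have h4 : Real.log 4 ≤ 2 := by
    have : Real.log 4 = 2 * Real.log 2 := by
      rw [show (4 : ℝ) = 2 ^ 2 by norm_num, Real.log_pow]
      norm_num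
    rw [this]
    linarith [Real.log_two_lt_d9]
  have h5 : 0 ≤ Real.log 4 := Real.log_nonneg (by norm_num)
  have h6 : (0 : ℝ) ≤ ((⌊(N : ℝ) ^ b⌋₊ : ℕ) : ℝ) := Nat.cast_nonneg _
  have h7 : Real.log 4 * ((⌊(N : ℝ) ^ b⌋₊ : ℕ) : ℝ) ≤ 2 * (N : ℝ) ^ b :=
    mul_le_mul h4 h3 h6 (by norm_num)
  linarith

theorem prI_mono {N : ℕ} (hN : 1 ≤ N) {a a' b b' : ℝ} (ha : a' ≤ a) (hb : b ≤ b') :
    prI N a b ⊆ prI N a' b' := by
  have hN1 : (1 : ℝ) ≤ N := by exact_mod_cast hN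
  intro p hp
  rw [mem_prI] at hp ⊢
  exact ⟨hp.1, hp.2.1, lt_of_le_of_lt (Real.rpow_le_rpow_of_exponent_le hN1 ha) hp.2.2.1,
    hp.2.2.2.trans (Real.rpow_le_rpow_of_exponent_le hN1 hb)⟩

theorem prI_disj {N : ℕ} (hN : 1 ≤ N) {a b b' c' : ℝ} (h : b ≤ b') :
    Disjoint (prI N a b) (prI N b' c') := by
  have hN1 : (1 : ℝ) ≤ N := by exact_mod_cast hN
  rw [disjoint_left]
  intro p hp hq
  rw [mem_prI] at hp hq
  have := Real.rpow_le_rpow_of_exponent_le hN1 h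
  linarith [hp.2.2.2, hq.2.2.1]

theorem prI_split {N : ℕ} (hN : 1 ≤ N) {a b c : ℝ} (h : a ≤ b) (h' : b ≤ c) :
    prI N a c = prI N a b ∪ prI N b c := by
  have hN1 : (1 : ℝ) ≤ N := by exact_mod_cast hN
  ext p
  rw [mem_union, mem_prI, mem_prI, mem_prI]
  have h1 := Real.rpow_le_rpow_of_exponent_le hN1 h
  have h2 := Real.rpow_le_rpow_of_exponent_le hN1 h'
  constructor
  · rintro ⟨h3, h4, h5, h6⟩
    rcases le_or_gt (p : ℝ) ((N : ℝ) ^ b) with h7 | h7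
    · exact Or.inl ⟨h3, h4, h5, h7⟩
    · exact Or.inr ⟨h3, h4, h7, h6⟩
  · rintro (⟨h3, h4, h5, h6⟩ | ⟨h3, h4, h5, h6⟩)
    · exact ⟨h3, h4, h5, h6.trans h2⟩
    · exact ⟨h3, h4, lt_of_le_of_lt h1 h5, h6⟩

end Pool.CSE
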