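import Mathlib

/-!
# CSE, module Root: roots of unity are separated (easy)

`root_sep`: `∑_{j<n} ζ^j = 0` (geometric sum, `ζ^n = 1`, `ζ ≠ 1`: `mul_neg_geom_sum` or
`geom_sum_eq`), so `n = ∑_{j<n} (1 - ζ^j)` and `‖1 - ζ^j‖ ≤ j ‖1 - ζ‖ ≤ n ‖ζ - 1‖`
(`‖ζ‖ = 1`: `Complex.norm_eq_one_of_pow_eq_one`; induction on `j`, or the factorisation
`1 - ζ^j = (1-ζ) ∑_{i<j} ζ^i`). Hence `n ≤ n * n * ‖ζ - 1‖`, so `1/n ≤ ‖ζ-1‖`.
-/

set_option autoImplicit false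

open Finset

namespace Pool.CSE

theorem root_sep (n : ℕ) (hn : 0 < n) (ζ : ℂ) (h1 : ζ ^ n = 1) (h2 : ζ ≠ 1) :
    1 / (n : ℝ) ≤ ‖ζ - 1‖ := by
  have hn' : (0 : ℝ) < n := by exact_mod_cast hn
  have hz : ‖ζ‖ = 1 := Complex.norm_eq_one_of_pow_eq_one h1 hn.ne'
  have hsum : ∑ j ∈ range n, ζ ^ j = 0 := by
    rw [geom_sum_eq h2, h1, sub_self, zero_div]
  have hj : ∀ j : ℕ, ‖ζ ^ j - 1‖ ≤ j * ‖ζ - 1‖ := by
    intro j
    induction j with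
    | zero => simp
    | succ j ih =>
      have h3 : ζ ^ (j + 1) - 1 = ζ ^ j * (ζ - 1) + (ζ ^ j - 1) := by ring
      rw [h3]
      refine (norm_add_le _ _).trans ?_
      rw [norm_mul, norm_pow, hz, one_pow, one_mul]
      push_cast
      linarith
  have h4 : ∑ j ∈ range n, (ζ ^ j - 1) = -(n : ℂ) := by
    rw [sum_sub_distrib, hsum]
    simp
  have h5 : (n : ℝ) ≤ n * (n * ‖ζ - 1‖) := by
    calc (n : ℝ) = ‖-(n : ℂ)‖ := by rw [norm_neg, Complex.norm_natCast]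
      _ = ‖∑ j ∈ range n, (ζ ^ j - 1)‖ := by rw [h4]
      _ ≤ ∑ j ∈ range n, ‖ζ ^ j - 1‖ := norm_sum_le _ _
      _ ≤ ∑ _j ∈ range n, (n * ‖ζ - 1‖ : ℝ) := by
        refine sum_le_sum fun j hjn => (hj j).trans ?_
        have h6 : (j : ℝ) ≤ n := by exact_mod_cast (mem_range.1 hjn).le
        exact mul_le_mul_of_nonneg_right h6 (norm_nonneg _)
      _ = n * (n * ‖ζ - 1‖) := by rw [sum_const, card_range, nsmul_eq_mul]
  have h7 : (1 : ℝ) ≤ n * ‖ζ - 1‖ := by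
    by_contra h8
    push Not at h8
    have h9 := mul_lt_mul_of_pos_left h8 hn'
    linarith
  rw [div_le_iff₀ hn']
  linarith [mul_comm (n : ℝ) ‖ζ - 1‖]

end Pool.CSE
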