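import Pool.Agent.Lib.CSE.Cover
import Pool.Agent.Lib.CSE.FouB
import Pool.Agent.Lib.CSE.Lar
import Pool.Agent.Lib.CSE.Mer

/-!
# CSE, module Skel: the local data of a configuration

Everything for `N` so large that `N^ε > max |l| |m|, 2` (so every `p ∈ prI N ε b` is odd and does not
divide `l m`: `(l : ZMod p) ≠ 0`, `(m : ZMod p) ≠ 0`), `N^ρ ≥ 1`.
`dA`: `A` and `B` are nonempty (`cA`, `cB`), so the densities are positive; `loc` divided by `p`.
`s0`: `sv > 0`: every `G ≥ 1` (`G_pos`, `rT` and `N^ρ > 0`), `T` nonempty (`cT`);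
`sv ≤ dens X`: `G_le_X`; `sv ≤ dens Y`: `G_le_Y`; `one_le_Mv`.
`s1`: `G_nonbad` divided by `p |T|`, and `√(|X_p||Y_p|) ≤ p`. `s2`: `G_l2` divided by `p|T|`.
`S1`: `rep_sieve` with `P = prI N ε ρ`, `D = N`, `R = N^ρ`;
`log p * (|T| / ∑ G) = wt p / sv p`; `(∑ log p)/N^ρ ≤ 2` (`cheb_prI`).
`SA`, `SB`: `res_sieve` with `P = prI N ε (489/1000)`, `D = N`,
`log p / |res A p| = wt p / dens A p`, `(∑ log p)/|A| ≤ 2`.
`S3`: `col_sieve` with `P = prI N 0 (489/500-ρ)` (`489/500 - ρ ≥ ρ`), `D = 2(|l|+|m|)N`: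
`∑_P wt p Mv ≤ L + C`; subtract `mer`: `∑_P wt p (Mv - 1) ≤ (1 - (489/500-ρ)) L + C`
(`1 - 489/500 = 11/500`), and `prI N ε ρ ⊆ P`, all terms `≥ 0` (`one_le_Mv`).
`S5`: `cover`.
-/

set_option autoImplicit false

open Finset Filter

namespace Pool.CSE

open Pool.Agent.Lib.MP_4b09b1_nt (res pairs)

/-- a prime larger than `|l|` does not divide `l ≠ 0` -/
private lemma skel_ne (l : ℤ) (hl : l ≠ 0) (p : ℕ) (h : |(l : ℝ)| < p) : (l : ZMod p) ≠ 0 := by
  intro h0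
  rw [ZMod.intCast_zmod_eq_zero_iff_dvd] at h0
  have h1 := Int.le_of_dvd (abs_pos.mpr hl) ((dvd_abs _ _).mpr h0)
  have h2 : (p : ℝ) ≤ |(l : ℝ)| := by exact_mod_cast h1
  linarith

private lemma skel_res_nonempty {X : Finset ℤ} (hX : X.Nonempty) (p : ℕ) :
    0 < ((res X p).card : ℝ) := by
  classical
  obtain ⟨x, hx⟩ := hX
  have h1 : ∀ c : ZMod p, c ∈ res X p ↔ ∃ x ∈ X, (x : ZMod p) = c := by
    intro c
    unfold res
    simp [Finset.bind_def]
  have h : (x : ZMod p) ∈ res X p := (h1 _).2 ⟨x, hx, rfl⟩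
  exact_mod_cast Finset.card_pos.2 ⟨_, h⟩

private lemma skel_card_le (p : ℕ) [Fact p.Prime] (X : Finset (ZMod p)) : (X.card : ℝ) ≤ p := by
  have h := X.card_le_univ
  rw [ZMod.card] at h
  exact_mod_cast h

private lemma skel_diff {N : ℕ} {X : Finset ℤ} (h : ∀ x ∈ X, 1 ≤ x ∧ x ≤ (N : ℤ)) :
    ∀ x ∈ X, ∀ x' ∈ X, |(x : ℝ) - x'| ≤ N := by
  intro x hx x' hx'
  have h1 := h x hx
  have h2 := h x' hx'
  have h3 : |x - x'| ≤ (N : ℤ) := by
    rw [abs_le]
    constructor <;> omega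
  exact_mod_cast h3

/-- the density sum of one set -/
private lemma skel_SA {N : ℕ} (hN : 2 ≤ N) (ε : ℝ) (A : Finset ℤ)
    (hA : ∀ a ∈ A, 1 ≤ a ∧ a ≤ (N : ℤ)) (cA : (N : ℝ) ^ (489 / 1000 : ℝ) ≤ A.card) :
    ∑ p ∈ prI N ε (489 / 1000), wt p / dens A p ≤ Real.log N + 2 := by
  have hN0 : (0 : ℝ) < N := by exact_mod_cast (by omega : 0 < N)
  have hN1 : (1 : ℝ) ≤ N := by exact_mod_cast (by omega : 1 ≤ N)
  have hx : (0 : ℝ) < (N : ℝ) ^ (489 / 1000 : ℝ) := Real.rpow_pos_of_pos hN0 _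
  have hc : (0 : ℝ) < A.card := lt_of_lt_of_le hx cA
  have hne : A.Nonempty := by
    rw [← Finset.card_pos]
    exact_mod_cast hc
  have h := res_sieve A hne (prI N ε (489 / 1000)) (fun p hp => (mem_prI.1 hp).2.1) N hN1
    (skel_diff hA)
  have h1 : (∑ p ∈ prI N ε (489 / 1000), Real.log p) / A.card ≤ 2 := by
    rw [div_le_iff₀ hc]
    have h2 := cheb_prI N hN ε (489 / 1000)
    linarith
  have h2 : ∑ p ∈ prI N ε (489 / 1000), wt p / dens A p =
      ∑ p ∈ prI N ε (489 / 1000), Real.log p / (res A p).card := by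
    refine Finset.sum_congr rfl fun p hp => ?_
    have hp0 : (0 : ℝ) < p := by exact_mod_cast (mem_prI.1 hp).2.1.pos
    have hr := skel_res_nonempty hne p
    unfold wt dens
    field_simp
  rw [h2]
  linarith

theorem skel (l m : ℤ) (hl : l ≠ 0) (hm : m ≠ 0) (ρ ε c η : ℝ) (hρ : 1 / 4 ≤ ρ)
    (hρ1 : ρ ≤ 489 / 1000) (hε : 0 < ε) (hε1 : ε ≤ 1 / 100) (hc : 0 < c) (hc1 : c ≤ 1 / 100)
    (hη : 0 < η) (hη1 : η ≤ 1) :
    ∃ C : ℝ, ∀ᶠ N : ℕ in atTop, ∀ A B X Y T : Finset ℤ, Conf N l m ρ A B X Y T →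
      Sk N l m ρ ε c η C A B X Y T := by
  obtain ⟨Cm, hCm, hmer⟩ := mer 0 (489 / 500 - ρ) le_rfl (by linarith)
  have hl1 : (1 : ℝ) ≤ |(l : ℝ)| := by exact_mod_cast Int.one_le_abs hl
  have hm1 : (1 : ℝ) ≤ |(m : ℝ)| := by exact_mod_cast Int.one_le_abs hm
  have hK : 0 ≤ Real.log (2 * (|(l : ℝ)| + |(m : ℝ)|)) := Real.log_nonneg (by linarith)
  refine ⟨2 + Real.log (2 * (|(l : ℝ)| + |(m : ℝ)|)) + Cm, ?_⟩
  have hev : ∀ᶠ N : ℕ in atTop, |(l : ℝ)| + |(m : ℝ)| + 2 ≤ (N : ℝ) ^ ε :=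
    ((tendsto_rpow_atTop hε).comp tendsto_natCast_atTop_atTop).eventually_ge_atTop _
  filter_upwards [cover l m ρ ε c η hρ hε hε1 hc hc1 hη hη1, eventually_ge_atTop 2, hev]
    with N hcov hN hNε A B X Y T hF
  have hN0 : (0 : ℝ) < N := by exact_mod_cast (by omega : 0 < N)
  have hN1 : (1 : ℝ) ≤ N := by exact_mod_cast (by omega : 1 ≤ N)
  have hlN : 0 ≤ Real.log N := Real.log_nonneg hN1
  have hx : (0 : ℝ) < (N : ℝ) ^ (489 / 1000 : ℝ) := Real.rpow_pos_of_pos hN0 _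
  have hρN : (0 : ℝ) < (N : ℝ) ^ ρ := Real.rpow_pos_of_pos hN0 _
  have hAc : (0 : ℝ) < A.card := lt_of_lt_of_le hx hF.cA
  have hBc : (0 : ℝ) < B.card := lt_of_lt_of_le hx hF.cB
  have hTc : (0 : ℝ) < T.card := lt_of_lt_of_le (Real.rpow_pos_of_pos hN0 _) hF.cT
  have hAne : A.Nonempty := by
    rw [← Finset.card_pos]; exact_mod_cast hAc
  have hBne : B.Nonempty := by
    rw [← Finset.card_pos]; exact_mod_cast hBc
  have hTne : T.Nonempty := by
    rw [← Finset.card_pos]; exact_mod_cast hTc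
  have hXN : ∀ x ∈ X, 1 ≤ x ∧ x ≤ (N : ℤ) := by
    rcases hF.hX with h | h <;> rw [h]
    · exact hF.hA
    · exact hF.hB
  -- the primes
  have hpr : ∀ b : ℝ, ∀ p ∈ prI N ε b, p.Prime ∧ p ≠ 2 ∧ (0 : ℝ) < p ∧
      (l : ZMod p) ≠ 0 ∧ (m : ZMod p) ≠ 0 := by
    intro b p hp
    have h := mem_prI.1 hp
    have h3 : |(l : ℝ)| + |(m : ℝ)| + 2 < p := lt_of_le_of_lt hNε h.2.2.1
    refine ⟨h.2.1, ?_, by exact_mod_cast h.2.1.pos, skel_ne l hl p (by linarith),
      skel_ne m hm p (by linarith)⟩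
    rintro rfl
    have : ((2 : ℕ) : ℝ) = 2 := by norm_num
    rw [this] at h3
    linarith
  -- positivity of the sum of `G`
  have hG0 : ∀ p : ℕ, 0 < ∑ t ∈ T, (G p l m (res X p) (res Y p) (t : ZMod p) : ℝ) := by
    intro p
    apply Finset.sum_pos _ hTne
    intro t ht
    have h1 : (0 : ℝ) < rep l m X Y t := lt_of_lt_of_le hρN (hF.rT t ht)
    have h2 : 0 < rep l m X Y t := by exact_mod_cast h1
    exact_mod_cast G_pos p l m X Y t h2
  have hMv : ∀ p : ℕ, p.Prime → 1 ≤ Mv T p := by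
    intro p hp
    haveI : Fact p.Prime := ⟨hp⟩
    exact one_le_Mv p T hTne
  refine ⟨?_, ?_, ?_, ?_, ?_, ?_, ?_, ?_, ?_⟩
  · -- dA
    intro p hp
    obtain ⟨hpp, _, hp0, _, _⟩ := hpr _ p hp
    have h1 := hF.loc p hpp (mem_prI.1 hp).2.2.2
    refine ⟨div_pos (skel_res_nonempty hAne p) hp0, div_pos (skel_res_nonempty hBne p) hp0, ?_⟩
    unfold dens
    rw [← add_div, div_le_one hp0]
    exact_mod_cast h1
  · -- s0
    intro p hp
    obtain ⟨hpp, _, hp0, hlp, hmp⟩ := hpr _ p hp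
    haveI : Fact p.Prime := ⟨hpp⟩
    have hden : (0 : ℝ) < p * T.card := mul_pos hp0 hTc
    refine ⟨div_pos (hG0 p) hden, ?_, ?_, hMv p hpp⟩
    · unfold sv dens
      rw [div_le_div_iff₀ hden hp0]
      have h1 : ∑ t ∈ T, (G p l m (res X p) (res Y p) (t : ZMod p) : ℝ) ≤
          T.card * (res X p).card := by
        have h2 : ∑ t ∈ T, (G p l m (res X p) (res Y p) (t : ZMod p) : ℝ) ≤
            ∑ _t ∈ T, ((res X p).card : ℝ) := by
          apply Finset.sum_le_sum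
          intro t _
          exact_mod_cast G_le_X p l m hmp (res X p) (res Y p) (t : ZMod p)
        rwa [Finset.sum_const, nsmul_eq_mul] at h2
      nlinarith
    · unfold sv dens
      rw [div_le_div_iff₀ hden hp0]
      have h1 : ∑ t ∈ T, (G p l m (res X p) (res Y p) (t : ZMod p) : ℝ) ≤
          T.card * (res Y p).card := by
        have h2 : ∑ t ∈ T, (G p l m (res X p) (res Y p) (t : ZMod p) : ℝ) ≤
            ∑ _t ∈ T, ((res Y p).card : ℝ) := by
          apply Finset.sum_le_sum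
          intro t _
          exact_mod_cast G_le_Y p l m hlp (res X p) (res Y p) (t : ZMod p)
        rwa [Finset.sum_const, nsmul_eq_mul] at h2
      nlinarith
  · -- s1
    intro p hp hbad
    obtain ⟨hpp, _, hp0, hlp, hmp⟩ := hpr _ p hp
    haveI : Fact p.Prime := ⟨hpp⟩
    have hden : (0 : ℝ) < p * T.card := mul_pos hp0 hTc
    have h1 := G_nonbad p l m hlp hmp (res X p) (res Y p) T η hη.le hbad
    have h2 : √((res X p).card * (res Y p).card : ℝ) ≤ p := by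
      rw [Real.sqrt_le_left hp0.le]
      have hx1 := skel_card_le p (res X p)
      have hy1 := skel_card_le p (res Y p)
      have hx0 : (0 : ℝ) ≤ (res X p).card := Nat.cast_nonneg _
      have hy0 : (0 : ℝ) ≤ (res Y p).card := Nat.cast_nonneg _
      nlinarith
    have h3 : dens X p * dens Y p + η =
        (T.card * ((res X p).card * (res Y p).card / p + η * p)) / (p * T.card) := by
      unfold dens
      field_simp
    rw [h3]
    unfold sv
    rw [div_le_div_iff_of_pos_right hden]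
    refine h1.trans ?_
    gcongr
  · -- s2
    intro p hp
    obtain ⟨hpp, hp2, hp0, hlp, hmp⟩ := hpr _ p hp
    haveI : Fact p.Prime := ⟨hpp⟩
    have hden : (0 : ℝ) < p * T.card := mul_pos hp0 hTc
    have h1 := G_l2 p hp2 l m hlp hmp (res X p) (res Y p) T hTne
    have h3 : dens X p * dens Y p + √((Mv T p - 1) / 32) =
        (T.card * ((res X p).card * (res Y p).card / p + p * √((Mv T p - 1) / 32))) /
          (p * T.card) := by
      unfold dens
      field_simp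
    rw [h3]
    unfold sv
    rw [div_le_div_iff_of_pos_right hden]
    exact h1
  · -- S1
    have h := rep_sieve l m hm X Y T hTne ((N : ℝ) ^ ρ) hρN hF.rT (prI N ε ρ)
      (fun p hp => (mem_prI.1 hp).2.1) N hN1 (skel_diff hXN)
    have h1 : (∑ p ∈ prI N ε ρ, Real.log p) / (N : ℝ) ^ ρ ≤ 2 := by
      rw [div_le_iff₀ hρN]
      exact cheb_prI N hN ε ρ
    have h2 : ∑ p ∈ prI N ε ρ, wt p / sv l m X Y T p = ∑ p ∈ prI N ε ρ, Real.log p *
        (T.card / ∑ t ∈ T, (G p l m (res X p) (res Y p) (t : ZMod p) : ℝ)) := by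
      refine Finset.sum_congr rfl fun p hp => ?_
      obtain ⟨hpp, _, hp0, _, _⟩ := hpr _ p hp
      have hg := hG0 p
      unfold wt sv
      field_simp
    rw [h2]
    linarith
  · -- SA
    have h := skel_SA hN ε A hF.hA hF.cA
    linarith
  · -- SB
    have h := skel_SA hN ε B hF.hB hF.cB
    linarith
  · -- S3
    have hD1 : (1 : ℝ) ≤ 2 * (|(l : ℝ)| + |(m : ℝ)|) * N := by nlinarith
    have hT' : ∀ x ∈ T, ∀ x' ∈ T, |(x : ℝ) - x'| ≤ 2 * (|(l : ℝ)| + |(m : ℝ)|) * N := by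
      intro x hx x' hx'
      have h1 : |(x : ℝ)| ≤ (|(l : ℝ)| + |(m : ℝ)|) * N := by exact_mod_cast hF.hT x hx
      have h2 : |(x' : ℝ)| ≤ (|(l : ℝ)| + |(m : ℝ)|) * N := by exact_mod_cast hF.hT x' hx'
      have h3 := abs_sub (x : ℝ) (x' : ℝ)
      linarith
    have h := col_sieve T hTne (prI N 0 (489 / 500 - ρ)) (fun p hp => (mem_prI.1 hp).2.1)
      (2 * (|(l : ℝ)| + |(m : ℝ)|) * N) hD1 hT'
    have h1 : (∑ p ∈ prI N 0 (489 / 500 - ρ), Real.log p) / T.card ≤ 2 := by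
      rw [div_le_iff₀ hTc]
      have h2 := cheb_prI N hN 0 (489 / 500 - ρ)
      have h3 := hF.cT
      linarith
    have h2 : Real.log (2 * (|(l : ℝ)| + |(m : ℝ)|) * N) =
        Real.log (2 * (|(l : ℝ)| + |(m : ℝ)|)) + Real.log N :=
      Real.log_mul (by positivity) hN0.ne'
    have h3 := hmer N hN
    have h4 : ∑ p ∈ prI N 0 (489 / 500 - ρ), wt p * (Mv T p - 1) =
        ∑ p ∈ prI N 0 (489 / 500 - ρ), wt p * Mv T p - ∑ p ∈ prI N 0 (489 / 500 - ρ), wt p := by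
      rw [← Finset.sum_sub_distrib]
      refine Finset.sum_congr rfl fun p _ => ?_
      ring
    have h5 : ∑ p ∈ prI N ε ρ, wt p * (Mv T p - 1) ≤
        ∑ p ∈ prI N 0 (489 / 500 - ρ), wt p * (Mv T p - 1) := by
      apply Finset.sum_le_sum_of_subset_of_nonneg
      · exact prI_mono (by omega) hε.le (by linarith)
      · intro p hp _
        have := hMv p (mem_prI.1 hp).2.1
        exact mul_nonneg (mer_wt_nonneg p) (by linarith)
    rw [h4] at h5
    rw [h2] at h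
    have h6 : (489 / 500 - ρ - 0) * Real.log N = (489 / 500 - ρ) * Real.log N := by ring
    rw [h6] at h3
    linarith
  · -- S5
    exact hcov T hF.hT hF.cT

end Pool.CSE
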